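import Mathlib
import Pool.Agent.CB27.Frob
import Pool.Agent.CB.CIK1

/-!
# Two-level pencils: common definitions for the case `k = 1` in characteristic `0`

`n = r + 2`.  Slots `i : Fin r`, degrees `d i`, forms `a0 i, b0 i, a1 i, b1 i` of degree `d i` over
`κ`.  Parameters `(i, 0) = s_i`, `(i, 1) = s'_i`, `(i, 2) = τ_i`.  In
`CC κ n r = κ[x, parameters]`:

`f0 i = a0 i + s_i * b0 i`, `f1 i = a1 i + s'_i * b1 i`, `ff i = f0 i + τ_i * f1 i`.

`Z` is the fraction field of `Lam κ r = κ[parameters]`; `evZ : CC κ n r → Z[x]`.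
-/

set_option autoImplicit false
set_option linter.all false

noncomputable section

namespace Pool.Agent.K1Z

open Module MvPolynomial Pool.Agent.CB Pool.Agent.CB27

/-- the parameters -/
abbrev Par (r : ℕ) := Fin r × Fin 3

/-- `κ[parameters]` -/
abbrev Lam (κ : Type*) [Field κ] (r : ℕ) := MvPolynomial (Par r) κ

/-- `κ[x, parameters]` -/
abbrev CC (κ : Type*) [Field κ] (n r : ℕ) := MvPolynomial (Fin n ⊕ Par r) κ

section ev

variable {κ : Type*} [Field κ] {n r : ℕ}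

/-- substitution of values for the parameters -/
def evA {A : Type*} [CommRing A] [Algebra κ A] (e : Par r → A) :
    CC κ n r →ₐ[κ] MvPolynomial (Fin n) A :=
  aeval (Sum.elim X fun q => C (e q))

@[simp] lemma evA_inl {A : Type*} [CommRing A] [Algebra κ A] (e : Par r → A) (i : Fin n) :
    evA e (X (Sum.inl i) : CC κ n r) = X i := by
  simp [evA]

@[simp] lemma evA_inr {A : Type*} [CommRing A] [Algebra κ A] (e : Par r → A) (q : Par r) :
    evA e (X (Sum.inr q) : CC κ n r) = (C (e q) : MvPolynomial (Fin n) A) := by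
  simp [evA]

@[simp] lemma evA_rename {A : Type*} [CommRing A] [Algebra κ A] (e : Par r → A)
    (u : MvPolynomial (Fin n) κ) :
    evA e (rename Sum.inl u : CC κ n r) = map (algebraMap κ A) u := by
  induction u using MvPolynomial.induction_on with
  | C a =>
    rw [rename_C, map_C, ← algebraMap_eq, AlgHom.commutes, ← algebraMap_eq,
      IsScalarTower.algebraMap_apply κ A (MvPolynomial (Fin n) A)]
  | add p q hp hq => rw [map_add, map_add, map_add, hp, hq]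
  | mul_X p i hp => rw [map_mul, map_mul, map_mul, hp, rename_X, evA_inl, map_X]

/-- over `κ[parameters]` -/
def evL : CC κ n r →ₐ[κ] MvPolynomial (Fin n) (Lam κ r) := evA X

variable (Z : Type*) [Field Z] [Algebra κ Z] [Algebra (Lam κ r) Z]

/-- over the fraction field -/
def evZ : CC κ n r →ₐ[κ] MvPolynomial (Fin n) Z := evA fun q => algebraMap (Lam κ r) Z (X q)

lemma evZ_eq_map [IsScalarTower κ (Lam κ r) Z] (c : CC κ n r) :
    evZ Z c = map (algebraMap (Lam κ r) Z) (evL c) := by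
  have h : (evZ Z : CC κ n r →ₐ[κ] MvPolynomial (Fin n) Z) =
      (MvPolynomial.mapAlgHom (IsScalarTower.toAlgHom κ (Lam κ r) Z)).comp evL := by
    apply MvPolynomial.algHom_ext
    rintro (i | q)
    · simp [evZ, evL]
    · simp [evZ, evL]
  rw [h]
  rfl

end ev

/-- the data of the pencils -/
structure Pen (κ : Type*) [Field κ] (n r : ℕ) where
  /-- degrees -/
  d : Fin r → ℕ
  /-- constant term of `f0` -/
  a0 : Fin r → MvPolynomial (Fin n) κ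
  /-- coefficient of `s` in `f0` -/
  b0 : Fin r → MvPolynomial (Fin n) κ
  /-- constant term of `f1` -/
  a1 : Fin r → MvPolynomial (Fin n) κ
  /-- coefficient of `s'` in `f1` -/
  b1 : Fin r → MvPolynomial (Fin n) κ
  hd : ∀ i, 1 ≤ d i
  ha0 : ∀ i, (a0 i).IsHomogeneous (d i)
  hb0 : ∀ i, (b0 i).IsHomogeneous (d i)
  ha1 : ∀ i, (a1 i).IsHomogeneous (d i)
  hb1 : ∀ i, (b1 i).IsHomogeneous (d i)

namespace Pen

variable {κ : Type*} [Field κ] {n r : ℕ} (P : Pen κ n r)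

/-- `f0 i = a0 i + s_i * b0 i` -/
def f0 (i : Fin r) : CC κ n r :=
  rename Sum.inl (P.a0 i) + X (Sum.inr (i, 0)) * rename Sum.inl (P.b0 i)

/-- `f1 i = a1 i + s'_i * b1 i` -/
def f1 (i : Fin r) : CC κ n r :=
  rename Sum.inl (P.a1 i) + X (Sum.inr (i, 1)) * rename Sum.inl (P.b1 i)

/-- `ff i = f0 i + τ_i * f1 i` -/
def ff (i : Fin r) : CC κ n r := P.f0 i + X (Sum.inr (i, 2)) * P.f1 i

/-- total degree of the slots -/
def bb : ℕ := ∑ i, P.d i

/-- `f^(p-1)` -/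
def HH (p : ℕ) : CC κ n r := ∏ i, P.ff i ^ (p - 1)

section Z

variable (Z : Type*) [Field Z] [Algebra κ Z] [Algebra (Lam κ r) Z]

/-- `f_i` over `Z` -/
def fZ (i : Fin r) : MvPolynomial (Fin n) Z := evZ Z (P.ff i)

/-- `f1_i` over `Z` -/
def f1Z (i : Fin r) : MvPolynomial (Fin n) Z := evZ Z (P.f1 i)

/-- `b_i` over `Z` -/
def b0Z (i : Fin r) : MvPolynomial (Fin n) Z := map (algebraMap κ Z) (P.b0 i)

/-- `b'_i` over `Z` -/
def b1Z (i : Fin r) : MvPolynomial (Fin n) Z := map (algebraMap κ Z) (P.b1 i)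

/-- the list of the `f_i` over `Z` -/
def FL : List (ℕ × MvPolynomial (Fin n) Z) := (List.finRange r).map fun i => (P.d i, P.fZ Z i)

/-- the ideal of the `f_i` over `Z` -/
def IZ : Ideal (MvPolynomial (Fin n) Z) := IL (P.FL Z)

/-- the functional `G = f^(p-1) Φ` over `Z` -/
def GG (p : ℕ) (φ : MvPolynomial (Fin n) κ →ₗ[κ] κ) : MvPolynomial (Fin n) Z →ₗ[Z] Z :=
  act (∏ i, P.fZ Z i ^ (p - 1)) (frob p Z φ)

/-- regularity of the lists over `Z` (output of M3) -/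
structure Reg : Prop where
  /-- `f_1..f_r, f1_i, b_i` -/
  r1 : ∀ i, WR ((P.d i, P.b0Z Z i) :: (P.d i, P.f1Z Z i) :: P.FL Z)
  /-- `f_1..f_r, f1_i, b'_i` -/
  r2 : ∀ i, WR ((P.d i, P.b1Z Z i) :: (P.d i, P.f1Z Z i) :: P.FL Z)
  /-- `f_1..f_r, f1_i, f1_l` -/
  r3 : ∀ i l, l ≠ i → WR ((P.d l, P.f1Z Z l) :: (P.d i, P.f1Z Z i) :: P.FL Z)
  /-- `f_1..f_r` -/
  r0 : WR (P.FL Z)

variable {Z}

lemma f1Z_eq (i : Fin r) : P.f1Z Z i = map (algebraMap κ Z) (P.a1 i) +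
    C (algebraMap (Lam κ r) Z (X (i, 1))) * map (algebraMap κ Z) (P.b1 i) := by
  rw [f1Z, f1, map_add, map_mul, evZ, evA_rename, evA_rename, evA_inr]

lemma f0Z_eq (i : Fin r) : evZ Z (P.f0 i) = map (algebraMap κ Z) (P.a0 i) +
    C (algebraMap (Lam κ r) Z (X (i, 0))) * map (algebraMap κ Z) (P.b0 i) := by
  rw [f0, map_add, map_mul, evZ, evA_rename, evA_rename, evA_inr]

lemma fZ_eq (i : Fin r) : P.fZ Z i = evZ Z (P.f0 i) +
    C (algebraMap (Lam κ r) Z (X (i, 2))) * P.f1Z Z i := by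
  rw [fZ, ff, map_add, map_mul, f1Z]
  congr 2
  rw [evZ, evA_inr]

lemma hom_map {u : MvPolynomial (Fin n) κ} {j : ℕ} (hu : u.IsHomogeneous j) :
    (map (algebraMap κ Z) u).IsHomogeneous j := hu.map _

lemma hom_C_mul {u : MvPolynomial (Fin n) Z} {j : ℕ} (c : Z) (hu : u.IsHomogeneous j) :
    (C c * u).IsHomogeneous j := by
  have := (isHomogeneous_C (Fin n) c).mul hu
  rwa [zero_add] at this

lemma f1Z_hom (i : Fin r) : (P.f1Z Z i).IsHomogeneous (P.d i) := by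
  rw [f1Z_eq]
  exact (hom_map (P.ha1 i)).add (hom_C_mul _ (hom_map (P.hb1 i)))

lemma f0Z_hom (i : Fin r) : (evZ Z (P.f0 i)).IsHomogeneous (P.d i) := by
  rw [f0Z_eq]
  exact (hom_map (P.ha0 i)).add (hom_C_mul _ (hom_map (P.hb0 i)))

lemma fZ_hom (i : Fin r) : (P.fZ Z i).IsHomogeneous (P.d i) := by
  rw [fZ_eq]
  exact (P.f0Z_hom i).add (hom_C_mul _ (P.f1Z_hom i))

lemma b0Z_hom (i : Fin r) : (P.b0Z Z i).IsHomogeneous (P.d i) := hom_map (P.hb0 i)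

lemma b1Z_hom (i : Fin r) : (P.b1Z Z i).IsHomogeneous (P.d i) := hom_map (P.hb1 i)

lemma mem_FL {a : ℕ × MvPolynomial (Fin n) Z} : a ∈ P.FL Z ↔ ∃ i, a = (P.d i, P.fZ Z i) := by
  rw [FL, List.mem_map]
  constructor
  · rintro ⟨i, -, rfl⟩
    exact ⟨i, rfl⟩
  · rintro ⟨i, rfl⟩
    exact ⟨i, List.mem_finRange i, rfl⟩

lemma FL_length : (P.FL Z).length = r := by
  rw [FL, List.length_map, List.length_finRange]

lemma okf_FL : ∀ a ∈ P.FL Z, okf a := by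
  intro a ha
  obtain ⟨i, rfl⟩ := P.mem_FL.1 ha
  exact ⟨P.hd i, P.fZ_hom i⟩

lemma HI_IZ : HI (P.IZ Z) := HI_IL P.okf_FL

lemma fZ_mem (i : Fin r) : P.fZ Z i ∈ P.IZ Z :=
  mem_IL (a := (P.d i, P.fZ Z i)) (P.mem_FL.2 ⟨i, rfl⟩)

lemma sd_FL : sd (P.FL Z) = ∑ i, (P.d i - 1) := by
  rw [sd, FL, List.map_map, Finset.sum, Fin.univ_val_map, List.ofFn_eq_map, Multiset.sum_coe]
  rfl

lemma pd_FL : pd (P.FL Z) = ∏ i, P.d i := by
  rw [pd, FL, List.map_map, Finset.prod, Fin.univ_val_map, List.ofFn_eq_map, Multiset.prod_coe]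
  rfl

/-- `f_i^p` kills the Frobenius functional -/
lemma fZ_pow_mem {p : ℕ} [CharP κ p] [Fact p.Prime] {φ : MvPolynomial (Fin n) κ →ₗ[κ] κ}
    (h0 : ∀ i, P.a0 i ∈ Ann φ) (h0' : ∀ i, P.b0 i ∈ Ann φ) (h1 : ∀ i, P.a1 i ∈ Ann φ)
    (h1' : ∀ i, P.b1 i ∈ Ann φ) (i : Fin r) : P.fZ Z i ^ p ∈ Ann (frob p Z φ) := by
  have hcL : CharP Z p := charP_of_injective_algebraMap (algebraMap κ Z).injective p
  have hcM : CharP (MvPolynomial (Fin n) Z) p := inferInstance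
  rw [fZ_eq, f0Z_eq, f1Z_eq, add_pow_char, add_pow_char, mul_pow, mul_pow, add_pow_char, mul_pow]
  refine Ideal.add_mem _ (Ideal.add_mem _ (pow_mem_Ann p (h0 i))
    (Ideal.mul_mem_left _ _ (pow_mem_Ann p (h0' i)))) (Ideal.mul_mem_left _ _
    (Ideal.add_mem _ (pow_mem_Ann p (h1 i)) (Ideal.mul_mem_left _ _ (pow_mem_Ann p (h1' i)))))

/-- `f_i` kills `G` -/
lemma fZ_mem_Ann_GG {p : ℕ} [CharP κ p] [Fact p.Prime] {φ : MvPolynomial (Fin n) κ →ₗ[κ] κ}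
    (h0 : ∀ i, P.a0 i ∈ Ann φ) (h0' : ∀ i, P.b0 i ∈ Ann φ) (h1 : ∀ i, P.a1 i ∈ Ann φ)
    (h1' : ∀ i, P.b1 i ∈ Ann φ) (i : Fin r) : P.fZ Z i ∈ Ann (P.GG Z p φ) := by
  have hp : p.Prime := Fact.out
  rw [GG, Ann_act, mem_col, ← Finset.mul_prod_erase Finset.univ _ (Finset.mem_univ i),
    mul_right_comm, pow_sub_one_mul hp.ne_zero]
  exact Ideal.mul_mem_right _ _ (P.fZ_pow_mem h0 h0' h1 h1' i)

lemma IZ_le_Ann_GG {p : ℕ} [CharP κ p] [Fact p.Prime] {φ : MvPolynomial (Fin n) κ →ₗ[κ] κ}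
    (h0 : ∀ i, P.a0 i ∈ Ann φ) (h0' : ∀ i, P.b0 i ∈ Ann φ) (h1 : ∀ i, P.a1 i ∈ Ann φ)
    (h1' : ∀ i, P.b1 i ∈ Ann φ) : P.IZ Z ≤ Ann (P.GG Z p φ) := by
  refine IL_le fun a ha => ?_
  obtain ⟨i, rfl⟩ := P.mem_FL.1 ha
  exact P.fZ_mem_Ann_GG h0 h0' h1 h1' i

end Z

end Pen

end Pool.Agent.K1Z
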