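import Mathlib
import Pool.Agent.K1Z.Defs

/-!
# The choice of the pencils over the ground field
-/

set_option autoImplicit false
set_option linter.all false

noncomputable section

namespace Pool.Agent.K1Z

open Module MvPolynomial Pool.Agent.CB

variable {κ : Type*} [Field κ] {n r : ℕ}

/-- the list of the forms with index at least `3` -/
def L0 (r : ℕ) (d : ℕ → ℕ) (F : ℕ → MvPolynomial (Fin n) κ) :
    List (ℕ × MvPolynomial (Fin n) κ) :=
  (List.finRange r).map fun i : Fin r => (d (i + 3), F (i + 3))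

lemma L0_length (r : ℕ) (d : ℕ → ℕ) (F : ℕ → MvPolynomial (Fin n) κ) :
    (L0 r d F).length = r := by
  rw [L0, List.length_map, List.length_finRange]

lemma mem_L0 {r : ℕ} {d : ℕ → ℕ} {F : ℕ → MvPolynomial (Fin n) κ}
    {a : ℕ × MvPolynomial (Fin n) κ} :
    a ∈ L0 r d F ↔ ∃ i, 3 ≤ i ∧ i ≤ r + 2 ∧ a = (d i, F i) := by
  rw [L0, List.mem_map]
  constructor
  · rintro ⟨i, -, rfl⟩
    exact ⟨i + 3, by omega, by omega, rfl⟩
  · rintro ⟨i, h1, h2, rfl⟩
    refine ⟨⟨i - 3, by omega⟩, List.mem_finRange _, ?_⟩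
    simp only
    rw [Nat.sub_add_cancel h1]

lemma L0_perm (r : ℕ) (d : ℕ → ℕ) (F : ℕ → MvPolynomial (Fin n) κ) :
    (EL d F (r + 2)).Perm ((d 1, F 1) :: (d 2, F 2) :: L0 r d F) := by
  induction r with
  | zero =>
    change ((d 2, F 2) :: (d 1, F 1) :: []).Perm _
    exact List.Perm.swap _ _ _
  | succ r ih =>
    have h1 : L0 (r + 1) d F = L0 r d F ++ [(d (r + 3), F (r + 3))] := by
      rw [L0, List.finRange_succ_last, List.map_append, List.map_map, L0]
      rfl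
    rw [h1]
    change ((d (r + 3), F (r + 3)) :: EL d F (r + 2)).Perm _
    refine (List.Perm.cons _ ih).trans ?_
    refine (List.Perm.swap _ _ _).trans (List.Perm.cons _ ?_)
    refine (List.Perm.swap _ _ _).trans (List.Perm.cons _ ?_)
    exact List.perm_append_singleton _ _ |>.symm

section

variable {d : ℕ → ℕ} {F : ℕ → MvPolynomial (Fin n) κ}

/-- a prime ideal of small height does not contain all the `F i` -/
lemma not_all_mem (hwr : WR (EL d F n)) {q : List (ℕ × MvPolynomial (Fin n) κ)}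
    (hq : q.length < n) {𝔮 : Ideal (MvPolynomial (Fin n) κ)} (h𝔮 : 𝔮 ∈ (IL q).minimalPrimes) :
    ¬ ∀ i, 1 ≤ i → i ≤ n → F i ∈ 𝔮 := by
  intro h
  have h1 : IL (EL d F n) ≤ 𝔮 := by
    refine IL_le fun a ha => ?_
    obtain ⟨i, h1, h2, rfl⟩ := mem_EL.1 ha
    exact h i h1 h2
  have h2 := hwr.ht 𝔮 h𝔮.1.1 h1
  rw [EL_length] at h2
  have h3 := h2.trans (height_le_length h𝔮)
  have h4 : n ≤ q.length := by exact_mod_cast h3
  omega

/-- some variable is not in the prime ideal -/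
lemma exists_X_notMem (hd1 : ∀ i, 1 ≤ i → i ≤ n → 1 ≤ d i)
    (hF : ∀ i, 1 ≤ i → i ≤ n → (F i).IsHomogeneous (d i)) (hwr : WR (EL d F n))
    {q : List (ℕ × MvPolynomial (Fin n) κ)} (hq : q.length < n)
    {𝔮 : Ideal (MvPolynomial (Fin n) κ)} (h𝔮 : 𝔮 ∈ (IL q).minimalPrimes) :
    ∃ l, (X l : MvPolynomial (Fin n) κ) ∉ 𝔮 := by
  by_contra hX
  push Not at hX
  apply not_all_mem hwr hq h𝔮
  intro i h1 h2
  have h3 : idealOfVars (Fin n) κ ≤ 𝔮 := by
    rw [idealOfVars, Ideal.span_le]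
    rintro _ ⟨i, rfl⟩
    exact hX i
  apply h3
  have h4 : F i ∈ idealOfVars (Fin n) κ ^ 1 := by
    rw [mem_pow_idealOfVars_iff]
    intro x hx
    have h5 : Finsupp.degree x = d i := by
      rw [Finsupp.degree_eq_weight_one]
      exact hF i h1 h2 (MvPolynomial.mem_support_iff.1 hx)
    rw [h5]
    exact hd1 i h1 h2
  rwa [pow_one] at h4

/-- forms of degree `e` of the ideal are not all in the prime ideal -/
lemma exists_form_notMem (hd1 : ∀ i, 1 ≤ i → i ≤ n → 1 ≤ d i)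
    (hF : ∀ i, 1 ≤ i → i ≤ n → (F i).IsHomogeneous (d i)) (hwr : WR (EL d F n))
    {J : Ideal (MvPolynomial (Fin n) κ)} (hJ : ∀ i, 1 ≤ i → i ≤ n → F i ∈ J)
    {q : List (ℕ × MvPolynomial (Fin n) κ)} (hq : q.length < n) {e : ℕ}
    (he : ∀ i, 1 ≤ i → i ≤ n → d i ≤ e ∨ F i ∈ IL q)
    {𝔮 : Ideal (MvPolynomial (Fin n) κ)} (h𝔮 : 𝔮 ∈ (IL q).minimalPrimes) :
    ∃ f ∈ J, f.IsHomogeneous e ∧ f ∉ 𝔮 := by
  by_contra hcon
  push Not at hcon
  obtain ⟨l, hl⟩ := exists_X_notMem hd1 hF hwr hq h𝔮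
  have h𝔮p : 𝔮.IsPrime := h𝔮.1.1
  apply not_all_mem hwr hq h𝔮
  intro i h1 h2
  rcases he i h1 h2 with h3 | h3
  · have h4 : (X l : MvPolynomial (Fin n) κ) ^ (e - d i) * F i ∈ 𝔮 := by
      refine hcon _ (J.mul_mem_left _ (hJ i h1 h2)) ?_
      have h5 := ((isHomogeneous_X κ l).pow (e - d i)).mul (hF i h1 h2)
      rw [one_mul, Nat.sub_add_cancel h3] at h5
      exact h5
    rcases h𝔮p.mem_or_mem h4 with h5 | h5
    · exact absurd (h𝔮p.mem_of_pow_mem _ h5) hl
    · exact h5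
  · exact h𝔮.1.2 h3

end

lemma Ht_perm {l l' : List (ℕ × MvPolynomial (Fin n) κ)} (h : l.Perm l') (hl : Ht l) : Ht l' := by
  intro 𝔭 h𝔭 hle
  rw [← IL_perm h] at hle
  rw [← h.length_eq]
  exact hl 𝔭 h𝔭 hle

lemma finite_min (q : List (ℕ × MvPolynomial (Fin n) κ)) : (IL q).minimalPrimes.Finite :=
  Ideal.finite_minimalPrimes_of_isNoetherianRing _ (IL q)

section choice

variable [Infinite κ] {d : ℕ → ℕ} {F : ℕ → MvPolynomial (Fin n) κ}

/-- one form avoiding the minimal primes of finitely many short lists containing `L0` -/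
lemma exists_good (hn : n = r + 2) (hd1 : ∀ i, 1 ≤ i → i ≤ n → 1 ≤ d i)
    (hmono : ∀ i j, 1 ≤ i → i ≤ j → j ≤ n → d i ≤ d j)
    (hF : ∀ i, 1 ≤ i → i ≤ n → (F i).IsHomogeneous (d i)) (hwr : WR (EL d F n))
    {J : Ideal (MvPolynomial (Fin n) κ)} (hJ : ∀ i, 1 ≤ i → i ≤ n → F i ∈ J) (i : Fin r)
    {S : Set (List (ℕ × MvPolynomial (Fin n) κ))} (hS : S.Finite)
    (hS1 : ∀ q ∈ S, q.length < n) (hS2 : ∀ q ∈ S, IL (L0 r d F) ≤ IL q)
    (hS3 : ∀ q ∈ S, Ht q) :
    ∃ f ∈ J, f.IsHomogeneous (d (i + 3)) ∧ ∀ q ∈ S, Ht ((d (i + 3), f) :: q) := by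
  obtain ⟨f, hf, hf1, hf2⟩ := exists_avoid (J := J) (d := d (i + 3))
    (T := ⋃ q ∈ S, (IL q).minimalPrimes) (hS.biUnion fun q _ => finite_min q) (by
      intro 𝔮 h𝔮
      obtain ⟨q, hq, h𝔮'⟩ := Set.mem_iUnion₂.1 h𝔮
      refine exists_form_notMem hd1 hF hwr hJ (hS1 q hq) ?_ h𝔮'
      intro l h1 h2
      rcases Nat.lt_or_ge l 3 with h3 | h3
      · left
        exact hmono l (i + 3) h1 (by omega) (by omega)
      · right
        exact hS2 q hq (mem_IL (a := (d l, F l)) (mem_L0.2 ⟨l, h3, by omega, rfl⟩)))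
  refine ⟨f, hf, hf1, fun q hq => Ht_cons (hS3 q hq) fun 𝔮 h𝔮 => hf2 𝔮 ?_⟩
  exact Set.mem_iUnion₂.2 ⟨q, hq, h𝔮⟩

/-- one linear form -/
lemma exists_good_lin (hd1 : ∀ i, 1 ≤ i → i ≤ n → 1 ≤ d i)
    (hF : ∀ i, 1 ≤ i → i ≤ n → (F i).IsHomogeneous (d i)) (hwr : WR (EL d F n))
    {q : List (ℕ × MvPolynomial (Fin n) κ)} (hq : q.length < n) (hq3 : Ht q) :
    ∃ f : MvPolynomial (Fin n) κ, f.IsHomogeneous 1 ∧ Ht ((1, f) :: q) := by
  obtain ⟨f, hf, hf1, hf2⟩ := exists_avoid (J := ⊤) (d := 1)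
    (T := (IL q).minimalPrimes) (finite_min q) (by
      intro 𝔮 h𝔮
      obtain ⟨l, hl⟩ := exists_X_notMem hd1 hF hwr hq h𝔮
      exact ⟨X l, trivial, isHomogeneous_X κ l, hl⟩)
  exact ⟨f, hf1, Ht_cons hq3 fun 𝔮 h𝔮 => hf2 𝔮 h𝔮⟩

end choice

/-- **The choice of the pencils.** -/
theorem exists_pen [IsAlgClosed κ] (hn : n = r + 2) {d : ℕ → ℕ}
    {F : ℕ → MvPolynomial (Fin n) κ} (hd1 : ∀ i, 1 ≤ i → i ≤ n → 1 ≤ d i)
    (hmono : ∀ i j, 1 ≤ i → i ≤ j → j ≤ n → d i ≤ d j)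
    (hF : ∀ i, 1 ≤ i → i ≤ n → (F i).IsHomogeneous (d i)) (hnz : NZ (EL d F n))
    {J : Ideal (MvPolynomial (Fin n) κ)} (hJ : ∀ i, 1 ≤ i → i ≤ n → F i ∈ J) :
    ∃ P : Pen κ n r, (∀ i, P.d i = d (i + 3)) ∧ (∀ i, P.a0 i ∈ J) ∧ (∀ i, P.b0 i ∈ J) ∧
      (∀ i, P.a1 i ∈ J) ∧ (∀ i, P.b1 i = P.b0 i) ∧
      (∀ i, NZ ((P.d i, P.b0 i) :: (P.d i, P.a1 i) ::
        (List.finRange r).map fun i => (P.d i, P.a0 i))) ∧
      (∀ i l, l ≠ i → NZ ((P.d l, P.a1 l) :: (P.d i, P.a1 i) ::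
        (List.finRange r).map fun i => (P.d i, P.a0 i))) ∧
      ∃ p q : MvPolynomial (Fin n) κ, p.IsHomogeneous 1 ∧ q.IsHomogeneous 1 ∧
        NZ ((1, p) :: (1, q) :: (List.finRange r).map fun i => (P.d i, P.a0 i)) := by
  classical
  have hinf : Infinite κ := IsAlgClosed.instInfinite
  have hokF := okf_EL hd1 hF
  have hwr : WR (EL d F n) := (CI_of_NZ _ (EL_length _ _ _) hokF hnz).wr
  -- the list `L0`
  have hperm' : ∀ m, m = r + 2 → (EL d F m).Perm ((d 1, F 1) :: (d 2, F 2) :: L0 r d F) := by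
    rintro m rfl
    exact L0_perm r d F
  have hperm := hperm' n hn
  have hwr0 : WR (L0 r d F) := (WR_perm hperm hokF hwr).1.1
  have hHt0 : Ht (L0 r d F) := hwr0.ht
  have hlen0 : (L0 r d F).length < n := by rw [L0_length]; omega
  have hok0 : ∀ a ∈ L0 r d F, okf a := by
    intro a ha
    obtain ⟨i, h1, h2, rfl⟩ := mem_L0.1 ha
    exact ⟨hd1 i (by omega) (by omega), hF i (by omega) (by omega)⟩
  -- the forms `a1`
  have key : ∀ k ≤ r, ∃ g : ℕ → MvPolynomial (Fin n) κ,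
      (∀ i < k, g i ∈ J ∧ (g i).IsHomogeneous (d (i + 3)) ∧ Ht ((d (i + 3), g i) :: L0 r d F)) ∧
      ∀ i l, i < l → l < k → Ht ((d (l + 3), g l) :: (d (i + 3), g i) :: L0 r d F) := by
    intro k
    induction k with
    | zero => exact fun _ => ⟨fun _ => 0, fun i hi => by omega, fun i l _ hl => by omega⟩
    | succ k ih =>
      intro hk
      obtain ⟨g, hg1, hg2⟩ := ih (by omega)
      obtain ⟨S, hS⟩ : ∃ S : Set (List (ℕ × MvPolynomial (Fin n) κ)), S = insert (L0 r d F)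
        ((fun i => (d (i + 3), g i) :: L0 r d F) '' (Set.Iio k)) := ⟨_, rfl⟩
      obtain ⟨f, hf1, hf2, hf3⟩ := exists_good hn hd1 hmono hF hwr hJ ⟨k, by omega⟩ (S := S)
        (by rw [hS]; exact ((Set.finite_Iio k).image _).insert _)
        (by
          intro q hq
          rw [hS] at hq
          rcases hq with rfl | ⟨i, -, rfl⟩
          · exact hlen0
          · rw [List.length_cons, L0_length]; omega)
        (by
          intro q hq
          rw [hS] at hq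
          rcases hq with rfl | ⟨i, -, rfl⟩
          · exact le_rfl
          · rw [IL_cons]; exact le_sup_left)
        (by
          intro q hq
          rw [hS] at hq
          rcases hq with rfl | ⟨i, hi, rfl⟩
          · exact hHt0
          · exact (hg1 i hi).2.2)
      refine ⟨Function.update g k f, ?_, ?_⟩
      · intro i hi
        by_cases hik : i = k
        · subst hik
          rw [Function.update_self]
          exact ⟨hf1, hf2, hf3 _ (by rw [hS]; exact Set.mem_insert _ _)⟩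
        · rw [Function.update_of_ne hik]
          exact hg1 i (by omega)
      · intro i l hil hl
        by_cases hlk : l = k
        · subst hlk
          rw [Function.update_self, Function.update_of_ne (by omega)]
          exact hf3 _ (by rw [hS]; exact Set.mem_insert_of_mem _ ⟨i, hil, rfl⟩)
        · rw [Function.update_of_ne hlk, Function.update_of_ne (by omega)]
          exact hg2 i l hil (by omega)
  obtain ⟨g, hg1, hg2⟩ := key r le_rfl
  -- the forms `b`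
  have hb : ∀ i : Fin r, ∃ f ∈ J, f.IsHomogeneous (d (i + 3)) ∧
      Ht ((d (i + 3), f) :: (d (i + 3), g i) :: L0 r d F) := by
    intro i
    obtain ⟨f, hf1, hf2, hf3⟩ := exists_good hn hd1 hmono hF hwr hJ i
      (S := {(d (i + 3), g i) :: L0 r d F}) (Set.finite_singleton _)
      (by
        rintro q rfl
        rw [List.length_cons, L0_length]; omega)
      (by
        rintro q rfl
        rw [IL_cons]; exact le_sup_left)
      (by
        rintro q rfl
        exact (hg1 i i.2).2.2)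
    exact ⟨f, hf1, hf2, hf3 _ rfl⟩
  choose b hb1 hb2 hb3 using hb
  have hNZ : ∀ {q : List (ℕ × MvPolynomial (Fin n) κ)}, q.length = n → (∀ a ∈ q, okf a) →
      Ht q → NZ q := fun h1 h2 h3 => NZ_of_Ht h1 h2 h3
  obtain ⟨p1, hp1, hp1'⟩ := exists_good_lin hd1 hF hwr hlen0 hHt0
  obtain ⟨p2, hp2, hp2'⟩ := exists_good_lin hd1 hF hwr
    (by rw [List.length_cons, L0_length]; omega) hp1'
  have hpos : ∀ i : Fin r, 1 ≤ d (i + 3) := fun i => hd1 _ (by omega) (by omega)
  refine ⟨⟨fun i => d (i + 3), fun i => F (i + 3), b, fun i => g i, b, hpos,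
    fun i => hF _ (by omega) (by omega), hb2, fun i => (hg1 i i.2).2.1, hb2⟩,
    fun i => rfl, fun i => hJ _ (by omega) (by omega), hb1, fun i => (hg1 i i.2).1,
    fun i => rfl, ?_, ?_, p2, p1, hp2, hp1, ?_⟩
  · intro i
    refine hNZ (q := (d (i + 3), b i) :: (d (i + 3), g i) :: L0 r d F) ?_ ?_ (hb3 i)
    · rw [List.length_cons, List.length_cons, L0_length, hn]
    · intro a ha
      rcases List.mem_cons.1 ha with rfl | ha
      · exact ⟨hpos i, hb2 i⟩
      · rcases List.mem_cons.1 ha with rfl | ha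
        · exact ⟨hpos i, (hg1 i i.2).2.1⟩
        · exact hok0 a ha
  · intro i l hil
    refine hNZ (q := (d (l + 3), g l) :: (d (i + 3), g i) :: L0 r d F) ?_ ?_ ?_
    · rw [List.length_cons, List.length_cons, L0_length, hn]
    · intro a ha
      rcases List.mem_cons.1 ha with rfl | ha
      · exact ⟨hpos l, (hg1 l l.2).2.1⟩
      · rcases List.mem_cons.1 ha with rfl | ha
        · exact ⟨hpos i, (hg1 i i.2).2.1⟩
        · exact hok0 a ha
    · rcases lt_or_gt_of_ne hil with h | h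
      · exact Ht_perm (List.Perm.swap _ _ _) (hg2 l i h i.2)
      · exact hg2 i l h l.2
  · refine hNZ (q := (1, p2) :: (1, p1) :: L0 r d F) ?_ ?_ hp2'
    · rw [List.length_cons, List.length_cons, L0_length, hn]
    · intro a ha
      rcases List.mem_cons.1 ha with rfl | ha
      · exact ⟨le_rfl, hp2⟩
      · rcases List.mem_cons.1 ha with rfl | ha
        · exact ⟨le_rfl, hp1⟩
        · exact hok0 a ha

end Pool.Agent.K1Z
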