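import Mathlib
import Pool.Agent.K1Z.Defs

/-!
# `Z[x]` is a localisation of `κ[x, parameters]`; abstract domain lemma; elimination lemma
-/

set_option autoImplicit false
set_option linter.all false

noncomputable section

namespace Pool.Agent.K1Z

open Module MvPolynomial Pool.Agent.CB Pool.Agent.CB27

section loc

variable {κ : Type*} [Field κ] {n r : ℕ}

/-- polynomials in the parameters inside `κ[x, parameters]` -/
def lamC (n : ℕ) : Lam κ r →ₐ[κ] CC κ n r := rename Sum.inr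

variable (Z : Type*) [Field Z] [Algebra κ Z] [Algebra (Lam κ r) Z] [IsScalarTower κ (Lam κ r) Z]

lemma evZ_lamC (l : Lam κ r) :
    evZ Z (lamC n l) = (C (algebraMap (Lam κ r) Z l) : MvPolynomial (Fin n) Z) := by
  have h : (evZ Z : CC κ n r →ₐ[κ] MvPolynomial (Fin n) Z).comp (lamC n) =
      (IsScalarTower.toAlgHom κ Z (MvPolynomial (Fin n) Z)).comp
        (IsScalarTower.toAlgHom κ (Lam κ r) Z) := by
    apply MvPolynomial.algHom_ext
    intro q
    simp [evZ, lamC, MvPolynomial.algebraMap_eq]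
  exact DFunLike.congr_fun h l

lemma evL_eq (c : CC κ n r) : evL c = sumAlgEquiv κ (Fin n) (Par r) c := by
  have h : (evL : CC κ n r →ₐ[κ] MvPolynomial (Fin n) (Lam κ r)) =
      (sumAlgEquiv κ (Fin n) (Par r)).toAlgHom := by
    apply MvPolynomial.algHom_ext
    rintro (i | q)
    · simp [evL]
    · simp [evL]
  exact DFunLike.congr_fun h c

variable [IsFractionRing (Lam κ r) Z]

lemma evZ_injective : Function.Injective (evZ Z : CC κ n r →ₐ[κ] MvPolynomial (Fin n) Z) := by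
  intro a b h
  rw [evZ_eq_map, evZ_eq_map] at h
  have h1 := MvPolynomial.map_injective _ (IsFractionRing.injective (Lam κ r) Z) h
  rw [evL_eq, evL_eq] at h1
  exact (sumAlgEquiv κ (Fin n) (Par r)).injective h1

/-- common denominators -/
lemma exists_den (s : MvPolynomial (Fin n) Z) :
    ∃ l : Lam κ r, l ≠ 0 ∧ ∃ c : CC κ n r, evZ Z (lamC n l) * s = evZ Z c := by
  induction s using MvPolynomial.induction_on with
  | C a =>
    obtain ⟨x, y, hy, rfl⟩ := IsFractionRing.div_surjective (A := Lam κ r) a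
    refine ⟨y, nonZeroDivisors.ne_zero hy, lamC n x, ?_⟩
    rw [evZ_lamC, evZ_lamC, ← C_mul]
    congr 1
    rw [mul_div_cancel₀]
    exact IsFractionRing.to_map_ne_zero_of_mem_nonZeroDivisors hy
  | add p q hp hq =>
    obtain ⟨l1, h1, c1, e1⟩ := hp
    obtain ⟨l2, h2, c2, e2⟩ := hq
    refine ⟨l1 * l2, mul_ne_zero h1 h2, lamC n l2 * c1 + lamC n l1 * c2, ?_⟩
    rw [map_add, map_mul, map_mul, map_mul, map_mul, ← e1, ← e2]
    ring
  | mul_X p i hp =>
    obtain ⟨l1, h1, c1, e1⟩ := hp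
    refine ⟨l1, h1, c1 * X (Sum.inl i), ?_⟩
    rw [map_mul, ← e1, evZ, evA_inl]
    ring

lemma evZ_lamC_unit {l : Lam κ r} (hl : l ≠ 0) :
    IsUnit (evZ Z (lamC n l) : MvPolynomial (Fin n) Z) := by
  rw [evZ_lamC]
  refine (isUnit_iff_ne_zero.2 ?_).map C
  rwa [Ne, FaithfulSMul.algebraMap_eq_zero_iff]

/-- the multiplicative set -/
def LamS (κ : Type*) [Field κ] (n r : ℕ) : Submonoid (CC κ n r) :=
  (nonZeroDivisors (Lam κ r)).map (lamC n)

lemma mem_LamS {c : CC κ n r} : c ∈ LamS κ n r ↔ ∃ l : Lam κ r, l ≠ 0 ∧ lamC n l = c := by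
  rw [LamS, Submonoid.mem_map]
  simp only [mem_nonZeroDivisors_iff_ne_zero]

lemma exists_den_map (I : Ideal (CC κ n r)) {s : MvPolynomial (Fin n) Z}
    (hs : s ∈ I.map (evZ Z : CC κ n r →ₐ[κ] MvPolynomial (Fin n) Z)) :
    ∃ l : Lam κ r, l ≠ 0 ∧ ∃ c ∈ I, evZ Z (lamC n l) * s = evZ Z c := by
  induction hs using Submodule.span_induction with
  | mem x hx =>
    obtain ⟨c, hc, rfl⟩ := hx
    exact ⟨1, one_ne_zero, c, hc, by rw [map_one, map_one, one_mul]⟩
  | zero => exact ⟨1, one_ne_zero, 0, I.zero_mem, by rw [mul_zero, map_zero]⟩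
  | add p q _ _ hp hq =>
    obtain ⟨l1, h1, c1, hc1, e1⟩ := hp
    obtain ⟨l2, h2, c2, hc2, e2⟩ := hq
    refine ⟨l1 * l2, mul_ne_zero h1 h2, lamC n l2 * c1 + lamC n l1 * c2,
      I.add_mem (I.mul_mem_left _ hc1) (I.mul_mem_left _ hc2), ?_⟩
    rw [map_add, map_mul, map_mul, map_mul, map_mul, ← e1, ← e2]
    ring
  | smul a p _ hp =>
    obtain ⟨l1, h1, c1, hc1, e1⟩ := hp
    obtain ⟨l2, h2, c2, e2⟩ := exists_den (κ := κ) (r := r) Z a
    refine ⟨l2 * l1, mul_ne_zero h2 h1, c2 * c1, I.mul_mem_left _ hc1, ?_⟩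
    rw [map_mul, map_mul, map_mul, ← e1, ← e2, smul_eq_mul]
    ring

lemma den_mem (I : Ideal (CC κ n r)) {c : CC κ n r}
    (hc : evZ Z c ∈ I.map (evZ Z : CC κ n r →ₐ[κ] MvPolynomial (Fin n) Z)) :
    ∃ l ∈ LamS κ n r, l * c ∈ I := by
  obtain ⟨l, hl, c', hc', e⟩ := exists_den_map Z I hc
  refine ⟨lamC n l, mem_LamS.2 ⟨l, hl, rfl⟩, ?_⟩
  rw [← map_mul] at e
  rw [evZ_injective Z e]
  exact hc'

end loc

/-- abstract domain lemma -/
theorem dom_abs {C S E : Type*} [CommRing C] [CommRing S] [Field E] (ev : C →+* S)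
    (L : Submonoid C) (hu : ∀ l ∈ L, IsUnit (ev l))
    (hsurj : ∀ s : S, ∃ l ∈ L, ∃ c, ev l * s = ev c)
    (I : Ideal C) (hI : ∀ c, ev c ∈ I.map ev → ∃ l ∈ L, l * c ∈ I)
    (θ : C →+* E) (hθ : ∀ c ∈ I, θ c = 0) (B0 : Set C) (b : C)
    (hB : ∀ c, ∃ M : ℕ, ∃ P ∈ B0, b ^ M * c - P ∈ I) (hinj : ∀ P ∈ B0, θ P = 0 → P = 0)
    (hb : ∀ x, ev b * x ∈ I.map ev → x ∈ I.map ev) (h1 : (1 : S) ∉ I.map ev) :
    (I.map ev).IsPrime ∧ ∀ c, θ c = 0 ↔ ev c ∈ I.map ev := by
  have hbM : ∀ (M : ℕ) (x : S), ev b ^ M * x ∈ I.map ev → x ∈ I.map ev := by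
    intro M
    induction M with
    | zero => intro x hx; rwa [pow_zero, one_mul] at hx
    | succ M ih =>
      intro x hx
      rw [pow_succ, mul_assoc] at hx
      exact hb _ (ih _ hx)
  have ha : ∀ c, θ c = 0 → ev c ∈ I.map ev := by
    intro c hc
    obtain ⟨M, P, hP, hM⟩ := hB c
    have h2 := hθ _ hM
    rw [map_sub, map_mul, hc, mul_zero, zero_sub, neg_eq_zero] at h2
    rw [hinj P hP h2, sub_zero] at hM
    have h3 := Ideal.mem_map_of_mem ev hM
    rw [map_mul, map_pow] at h3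
    exact hbM M _ h3
  have hl : ∀ l ∈ L, θ l ≠ 0 := by
    intro l hl h
    exact h1 ((Ideal.eq_top_iff_one _).1 (Ideal.eq_top_of_isUnit_mem _ (ha l h) (hu l hl)))
  have hc : ∀ c, ev c ∈ I.map ev → θ c = 0 := by
    intro c hc
    obtain ⟨l, hlL, hlc⟩ := hI c hc
    have h2 := hθ _ hlc
    rw [map_mul] at h2
    exact (mul_eq_zero.1 h2).resolve_left (hl l hlL)
  refine ⟨⟨fun h => h1 (h ▸ trivial), fun {x y} hxy => ?_⟩, fun c => ⟨ha c, hc c⟩⟩
  obtain ⟨l1, hl1, c1, e1⟩ := hsurj x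
  obtain ⟨l2, hl2, c2, e2⟩ := hsurj y
  have h2 : ev (c1 * c2) ∈ I.map ev := by
    rw [map_mul, ← e1, ← e2]
    have : ev l1 * x * (ev l2 * y) = ev l1 * ev l2 * (x * y) := by ring
    rw [this]
    exact Ideal.mul_mem_left _ _ hxy
  have h3 := hc _ h2
  rw [map_mul] at h3
  have hfin : ∀ (l : C) (s : S) (c : C), l ∈ L → ev l * s = ev c → θ c = 0 →
      s ∈ I.map ev := by
    intro l s c hl e h
    have h4 := ha c h
    rw [← e] at h4
    obtain ⟨u, hu'⟩ := hu l hl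
    have h5 := Ideal.mul_mem_left (I.map ev) (↑u⁻¹ : S) h4
    rwa [← hu', ← mul_assoc, Units.inv_mul, one_mul] at h5
  rcases mul_eq_zero.1 h3 with h | h
  · exact Or.inl (hfin l1 x c1 hl1 e1 h)
  · exact Or.inr (hfin l2 y c2 hl2 e2 h)

section elim

variable {κ : Type*} [Field κ] {σ : Type*} [DecidableEq σ] (W : Finset σ)
  (α β : σ → MvPolynomial σ κ)

/-- the ideal of the equations `α w + X w * β w = 0`, `w ∈ W` -/
def elimI : Ideal (MvPolynomial σ κ) := Ideal.span {u | ∃ w ∈ W, u = α w + X w * β w}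

/-- polynomials without the variables of `W` -/
def elimB : Subalgebra κ (MvPolynomial σ κ) := supported κ {v | v ∉ W}

/-- solving the equations -/
def elimθ : MvPolynomial σ κ →ₐ[κ] FractionRing (MvPolynomial σ κ) :=
  aeval fun v => if v ∈ W then
    -(algebraMap (MvPolynomial σ κ) (FractionRing (MvPolynomial σ κ)) (α v)) /
      algebraMap (MvPolynomial σ κ) (FractionRing (MvPolynomial σ κ)) (β v)
    else algebraMap (MvPolynomial σ κ) (FractionRing (MvPolynomial σ κ)) (X v)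

variable {W}

lemma elimθ_B {P : MvPolynomial σ κ} (hP : P ∈ elimB W) :
    elimθ W α β P = algebraMap _ (FractionRing (MvPolynomial σ κ)) P := by
  rw [elimB, supported_eq_adjoin_X] at hP
  induction hP using Algebra.adjoin_induction with
  | mem x hx =>
    obtain ⟨v, hv, rfl⟩ := hx
    rw [elimθ, aeval_X, if_neg hv]
  | algebraMap c =>
    rw [AlgHom.commutes, IsScalarTower.algebraMap_apply κ (MvPolynomial σ κ)
      (FractionRing (MvPolynomial σ κ))]
  | add x y _ _ hx hy => rw [map_add, map_add, hx, hy]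
  | mul x y _ _ hx hy => rw [map_mul, map_mul, hx, hy]

lemma elimθ_inj {P : MvPolynomial σ κ} (hP : P ∈ elimB W) (h : elimθ W α β P = 0) : P = 0 := by
  rw [elimθ_B α β hP] at h
  exact (FaithfulSMul.algebraMap_eq_zero_iff _ _).1 h

variable {α β} (hα : ∀ w ∈ W, α w ∈ elimB W) (hβ : ∀ w ∈ W, β w ∈ elimB W)

include hα hβ

lemma elimθ_I (hβ0 : ∀ w ∈ W, β w ≠ 0) {c : MvPolynomial σ κ} (hc : c ∈ elimI W α β) :
    elimθ W α β c = 0 := by
  have h1 : elimI W α β ≤ RingHom.ker (elimθ W α β).toRingHom := by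
    rw [elimI, Ideal.span_le]
    rintro _ ⟨w, hw, rfl⟩
    rw [SetLike.mem_coe, RingHom.mem_ker]
    change elimθ W α β (α w + X w * β w) = 0
    rw [map_add, map_mul, elimθ_B α β (hα w hw), elimθ_B α β (hβ w hw), elimθ, aeval_X, if_pos hw,
      div_mul_cancel₀, add_neg_cancel]
    rw [Ne, FaithfulSMul.algebraMap_eq_zero_iff]
    exact hβ0 w hw
  exact h1 hc

lemma elim_red (c : MvPolynomial σ κ) :
    ∃ M : ℕ, ∃ P ∈ elimB W, (∏ w ∈ W, β w) ^ M * c - P ∈ elimI W α β := by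
  have hb : (∏ w ∈ W, β w) ∈ elimB W := Subalgebra.prod_mem _ hβ
  induction c using MvPolynomial.induction_on with
  | C a =>
    refine ⟨0, C a, (elimB W).algebraMap_mem a, ?_⟩
    rw [pow_zero, one_mul, sub_self]
    exact Ideal.zero_mem _
  | add p q hp hq =>
    obtain ⟨M1, P1, hP1, h1⟩ := hp
    obtain ⟨M2, P2, hP2, h2⟩ := hq
    refine ⟨M1 + M2, (∏ w ∈ W, β w) ^ M2 * P1 + (∏ w ∈ W, β w) ^ M1 * P2,
      Subalgebra.add_mem _ (Subalgebra.mul_mem _ (Subalgebra.pow_mem _ hb _) hP1)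
        (Subalgebra.mul_mem _ (Subalgebra.pow_mem _ hb _) hP2), ?_⟩
    have : (∏ w ∈ W, β w) ^ (M1 + M2) * (p + q) -
        ((∏ w ∈ W, β w) ^ M2 * P1 + (∏ w ∈ W, β w) ^ M1 * P2) =
        (∏ w ∈ W, β w) ^ M2 * ((∏ w ∈ W, β w) ^ M1 * p - P1) +
        (∏ w ∈ W, β w) ^ M1 * ((∏ w ∈ W, β w) ^ M2 * q - P2) := by ring
    rw [this]
    exact Ideal.add_mem _ (Ideal.mul_mem_left _ _ h1) (Ideal.mul_mem_left _ _ h2)
  | mul_X p v hp =>
    obtain ⟨M, P, hP, h1⟩ := hp
    by_cases hv : v ∈ W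
    · have hb' : (∏ w ∈ W.erase v, β w) ∈ elimB W :=
        Subalgebra.prod_mem _ fun w hw => hβ w (Finset.mem_of_mem_erase hw)
      refine ⟨M + 1, -(P * α v * ∏ w ∈ W.erase v, β w), ?_, ?_⟩
      · exact Subalgebra.neg_mem _ (Subalgebra.mul_mem _ (Subalgebra.mul_mem _ hP (hα v hv)) hb')
      · have hsp := Finset.mul_prod_erase W β hv
        have : (∏ w ∈ W, β w) ^ (M + 1) * (p * X v) - -(P * α v * ∏ w ∈ W.erase v, β w) =
            ((∏ w ∈ W.erase v, β w) * X v * β v) * ((∏ w ∈ W, β w) ^ M * p - P) +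
            (P * ∏ w ∈ W.erase v, β w) * (α v + X v * β v) := by
          rw [pow_succ]
          nth_rw 2 [← hsp]
          ring
        rw [this]
        exact Ideal.add_mem _ (Ideal.mul_mem_left _ _ h1) (Ideal.mul_mem_left _ _
          (Ideal.subset_span ⟨v, hv, rfl⟩))
    · refine ⟨M, P * X v, Subalgebra.mul_mem _ hP ?_, ?_⟩
      · rw [elimB, supported_eq_adjoin_X]
        exact Algebra.subset_adjoin ⟨v, hv, rfl⟩
      · have : (∏ w ∈ W, β w) ^ M * (p * X v) - P * X v =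
            X v * ((∏ w ∈ W, β w) ^ M * p - P) := by ring
        rw [this]
        exact Ideal.mul_mem_left _ _ h1

end elim

end Pool.Agent.K1Z
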