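import Mathlib
import Pool.Agent.K1Z.Loc

/-!
# The ideals `(f_*)` and `(f_*, f1_i)` over `Z` are prime
-/

set_option autoImplicit false
set_option linter.all false

noncomputable section

namespace Pool.Agent.K1Z

open Module MvPolynomial Pool.Agent.CB Pool.Agent.CB27

lemma one_notMem_IL {K : Type*} [Field K] {N : ℕ} {l : List (ℕ × MvPolynomial (Fin N) K)}
    (hl : ∀ a ∈ l, okf a) : (1 : MvPolynomial (Fin N) K) ∉ IL l := by
  intro h
  have h1 := eval_eq_zero_of_mem_IL (x := 0) (fun a ha => eval_zero_of_hom (hl a ha).1 (hl a ha).2) h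
  rw [map_one] at h1
  exact one_ne_zero h1

lemma NZD_prod {K : Type*} [Field K] {N : ℕ} {I : Ideal (MvPolynomial (Fin N) K)} {T : Type*}
    (s : Finset T) (f : T → MvPolynomial (Fin N) K) (h : ∀ t ∈ s, NZD I (f t)) :
    NZD I (∏ t ∈ s, f t) := by
  classical
  induction s using Finset.induction_on with
  | empty =>
    intro u hu
    rwa [Finset.prod_empty, one_mul] at hu
  | insert t s ht ih =>
    intro u hu
    rw [Finset.prod_insert ht, mul_assoc] at hu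
    exact ih (fun t' ht' => h t' (Finset.mem_insert_of_mem ht')) u
      (h t (Finset.mem_insert_self _ _) _ hu)

lemma rename_mem_elimB {κ : Type*} [Field κ] {σ τ : Type*} [DecidableEq σ] {W : Finset σ}
    (f : τ → σ) (hf : ∀ t, f t ∉ W) (u : MvPolynomial τ κ) : rename f u ∈ elimB (κ := κ) W := by
  induction u using MvPolynomial.induction_on with
  | C a =>
    rw [rename_C]
    exact (elimB W).algebraMap_mem a
  | add p q hp hq =>
    rw [map_add]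
    exact Subalgebra.add_mem _ hp hq
  | mul_X p t hp =>
    rw [map_mul, rename_X]
    refine Subalgebra.mul_mem _ hp ?_
    rw [elimB, supported_eq_adjoin_X]
    exact Algebra.subset_adjoin ⟨f t, hf t, rfl⟩

lemma X_mem_elimB {κ : Type*} [Field κ] {σ : Type*} [DecidableEq σ] {W : Finset σ} {v : σ}
    (hv : v ∉ W) : (X v : MvPolynomial σ κ) ∈ elimB (κ := κ) W := by
  rw [elimB, supported_eq_adjoin_X]
  exact Algebra.subset_adjoin ⟨v, hv, rfl⟩

section Z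

variable {κ : Type*} [Field κ] {n r : ℕ}
variable {Z : Type*} [Field Z] [Algebra κ Z] [Algebra (Lam κ r) Z] [IsScalarTower κ (Lam κ r) Z]
  [IsFractionRing (Lam κ r) Z]

theorem dom_elim {W : Finset (Fin n ⊕ Par r)} {α β : Fin n ⊕ Par r → CC κ n r}
    (hα : ∀ w ∈ W, α w ∈ elimB W) (hβ : ∀ w ∈ W, β w ∈ elimB W)
    {l : List (ℕ × MvPolynomial (Fin n) Z)} (hl : ∀ a ∈ l, okf a)
    (hmap : (elimI W α β).map (evZ Z : CC κ n r →ₐ[κ] MvPolynomial (Fin n) Z) = IL l)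
    (hnz : ∀ w ∈ W, NZD (IL l) (evZ Z (β w))) :
    (IL l).IsPrime ∧ ∀ c, elimθ W α β c = 0 ↔ evZ Z c ∈ IL l := by
  have hβ0 : ∀ w ∈ W, β w ≠ 0 := by
    intro w hw h
    apply one_notMem_IL hl
    apply hnz w hw
    rw [h, map_zero, zero_mul]
    exact Ideal.zero_mem _
  have hb : NZD (IL l) (evZ Z (∏ w ∈ W, β w)) := by
    rw [map_prod]
    exact NZD_prod _ _ hnz
  have key := dom_abs (evZ Z : CC κ n r →ₐ[κ] MvPolynomial (Fin n) Z).toRingHom (LamS κ n r)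
    (by
      intro c hc
      obtain ⟨l', hl', rfl⟩ := mem_LamS.1 hc
      exact evZ_lamC_unit Z hl')
    (by
      intro s
      obtain ⟨l', hl', c, e⟩ := exists_den (κ := κ) (r := r) Z s
      exact ⟨lamC n l', mem_LamS.2 ⟨l', hl', rfl⟩, c, e⟩)
    (elimI W α β) (fun c hc => den_mem Z _ hc) (elimθ W α β).toRingHom
    (fun c hc => elimθ_I hα hβ hβ0 hc) (elimB (κ := κ) W : Set (CC κ n r)) (∏ w ∈ W, β w)
    (elim_red hα hβ) (fun P hP h => elimθ_inj α β hP h)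
    (by
      intro x hx
      change x ∈ (elimI W α β).map (evZ Z : CC κ n r →ₐ[κ] MvPolynomial (Fin n) Z)
      rw [hmap]
      refine hb x ?_
      rw [← hmap]
      exact hx)
    (by
      intro h
      apply one_notMem_IL hl
      rw [← hmap]
      exact h)
  obtain ⟨h1, h2⟩ := key
  constructor
  · rw [← hmap]
    exact h1
  · intro c
    rw [← hmap]
    exact h2 c

namespace Pen

variable (P : Pen κ n r)

/-! ### first elimination: the variables `τ_i` -/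

/-- the variables `τ_i` -/
def W1 (n r : ℕ) : Finset (Fin n ⊕ Par r) := Finset.univ.image fun i : Fin r => Sum.inr (i, 2)

/-- slot of a variable -/
def α1 (P : Pen κ n r) : Fin n ⊕ Par r → CC κ n r
  | Sum.inl _ => 0
  | Sum.inr q => P.f0 q.1

/-- slot of a variable -/
def β1 (P : Pen κ n r) : Fin n ⊕ Par r → CC κ n r
  | Sum.inl _ => 1
  | Sum.inr q => P.f1 q.1

lemma mem_W1 {w : Fin n ⊕ Par r} : w ∈ W1 n r ↔ ∃ i, w = Sum.inr (i, 2) := by
  rw [W1, Finset.mem_image]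
  constructor
  · rintro ⟨i, -, rfl⟩
    exact ⟨i, rfl⟩
  · rintro ⟨i, rfl⟩
    exact ⟨i, Finset.mem_univ _, rfl⟩

lemma inl_notMem_W1 (a : Fin n) : (Sum.inl a : Fin n ⊕ Par r) ∉ W1 n r := by
  rw [mem_W1]
  rintro ⟨i, h⟩
  exact absurd h (by simp)

lemma inr_notMem_W1 (i : Fin r) {k : Fin 3} (hk : k ≠ 2) :
    (Sum.inr (i, k) : Fin n ⊕ Par r) ∉ W1 n r := by
  rw [mem_W1]
  rintro ⟨j, h⟩
  simp only [Sum.inr.injEq, Prod.mk.injEq] at h
  exact hk h.2

lemma f0_mem (i : Fin r) : P.f0 i ∈ elimB (κ := κ) (W1 n r) :=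
  Subalgebra.add_mem _ (rename_mem_elimB _ inl_notMem_W1 _)
    (Subalgebra.mul_mem _ (X_mem_elimB (inr_notMem_W1 i (by decide)))
      (rename_mem_elimB _ inl_notMem_W1 _))

lemma f1_mem (i : Fin r) : P.f1 i ∈ elimB (κ := κ) (W1 n r) :=
  Subalgebra.add_mem _ (rename_mem_elimB _ inl_notMem_W1 _)
    (Subalgebra.mul_mem _ (X_mem_elimB (inr_notMem_W1 i (by decide)))
      (rename_mem_elimB _ inl_notMem_W1 _))

lemma elimI1 : elimI (W1 n r) P.α1 P.β1 = Ideal.span (Set.range P.ff) := by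
  rw [elimI]
  congr 1
  ext u
  constructor
  · rintro ⟨w, hw, rfl⟩
    obtain ⟨i, rfl⟩ := mem_W1.1 hw
    exact ⟨i, rfl⟩
  · rintro ⟨i, rfl⟩
    exact ⟨Sum.inr (i, 2), mem_W1.2 ⟨i, rfl⟩, rfl⟩

lemma map_span_ff :
    (Ideal.span (Set.range P.ff)).map (evZ Z : CC κ n r →ₐ[κ] MvPolynomial (Fin n) Z) =
      P.IZ Z := by
  rw [Ideal.map_span, IZ, IL]
  congr 1
  ext u
  constructor
  · rintro ⟨_, ⟨i, rfl⟩, rfl⟩
    exact ⟨(P.d i, P.fZ Z i), P.mem_FL.2 ⟨i, rfl⟩, rfl⟩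
  · rintro ⟨a, ha, rfl⟩
    obtain ⟨i, rfl⟩ := P.mem_FL.1 ha
    exact ⟨P.ff i, ⟨i, rfl⟩, rfl⟩

lemma Reg.nzd_f1 {P : Pen κ n r} (h : P.Reg Z) (i : Fin r) : NZD (P.IZ Z) (P.f1Z Z i) :=
  (h.r1 i).1.2

theorem dom1 (h : P.Reg Z) : (P.IZ Z).IsPrime ∧
    ∀ c, elimθ (W1 n r) P.α1 P.β1 c = 0 ↔ evZ Z c ∈ P.IZ Z := by
  refine dom_elim (W := W1 n r) (α := P.α1) (β := P.β1) ?_ ?_ P.okf_FL ?_ ?_
  · intro w hw
    obtain ⟨i, rfl⟩ := mem_W1.1 hw
    exact P.f0_mem i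
  · intro w hw
    obtain ⟨i, rfl⟩ := mem_W1.1 hw
    exact P.f1_mem i
  · rw [P.elimI1]
    exact P.map_span_ff
  · intro w hw
    obtain ⟨i, rfl⟩ := mem_W1.1 hw
    exact h.nzd_f1 i

theorem IZ_isPrime (h : P.Reg Z) : (P.IZ Z).IsPrime := (P.dom1 h).1

/-- elements of the subring without `τ` are not in the ideal -/
lemma B_inj (h : P.Reg Z) {u : CC κ n r} (hu : u ∈ elimB (κ := κ) (W1 n r))
    (hu' : evZ Z u ∈ P.IZ Z) : u = 0 :=
  elimθ_inj P.α1 P.β1 hu (((P.dom1 h).2 u).2 hu')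

/-! ### second elimination: the variables `s_i, s'_i, τ_l` -/

/-- the variables `s_i`, `s'_i` and `τ_l`, `l ≠ i` -/
def W2 (n : ℕ) {r : ℕ} (i : Fin r) : Finset (Fin n ⊕ Par r) :=
  insert (Sum.inr (i, 0)) (insert (Sum.inr (i, 1))
    ((Finset.univ.erase i).image fun l : Fin r => Sum.inr (l, 2)))

/-- constant terms -/
def α2 (P : Pen κ n r) : Fin n ⊕ Par r → CC κ n r
  | Sum.inl _ => 0
  | Sum.inr (i, 0) => rename Sum.inl (P.a0 i)
  | Sum.inr (i, 1) => rename Sum.inl (P.a1 i)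
  | Sum.inr (i, 2) => P.f0 i

/-- linear coefficients -/
def β2 (P : Pen κ n r) : Fin n ⊕ Par r → CC κ n r
  | Sum.inl _ => 1
  | Sum.inr (i, 0) => rename Sum.inl (P.b0 i)
  | Sum.inr (i, 1) => rename Sum.inl (P.b1 i)
  | Sum.inr (i, 2) => P.f1 i

lemma mem_W2 {i : Fin r} {w : Fin n ⊕ Par r} : w ∈ W2 n i ↔
    w = Sum.inr (i, 0) ∨ w = Sum.inr (i, 1) ∨ ∃ l, l ≠ i ∧ w = Sum.inr (l, 2) := by
  rw [W2, Finset.mem_insert, Finset.mem_insert, Finset.mem_image]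
  constructor
  · rintro (h | h | ⟨l, hl, rfl⟩)
    · exact Or.inl h
    · exact Or.inr (Or.inl h)
    · exact Or.inr (Or.inr ⟨l, (Finset.mem_erase.1 hl).1, rfl⟩)
  · rintro (h | h | ⟨l, hl, rfl⟩)
    · exact Or.inl h
    · exact Or.inr (Or.inl h)
    · exact Or.inr (Or.inr ⟨l, Finset.mem_erase.2 ⟨hl, Finset.mem_univ _⟩, rfl⟩)

lemma inl_notMem_W2 (i : Fin r) (a : Fin n) : (Sum.inl a : Fin n ⊕ Par r) ∉ W2 n i := by
  rw [mem_W2]
  rintro (h | h | ⟨l, -, h⟩) <;> exact absurd h (by simp)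

lemma inr_notMem_W2 {i l : Fin r} (hl : l ≠ i) {k : Fin 3} (hk : k ≠ 2) :
    (Sum.inr (l, k) : Fin n ⊕ Par r) ∉ W2 n i := by
  rw [mem_W2]
  rintro (h | h | ⟨j, -, h⟩) <;> simp only [Sum.inr.injEq, Prod.mk.injEq] at h
  · exact hl h.1
  · exact hl h.1
  · exact hk h.2

lemma f0_mem2 {i l : Fin r} (hl : l ≠ i) : P.f0 l ∈ elimB (κ := κ) (W2 n i) :=
  Subalgebra.add_mem _ (rename_mem_elimB _ (inl_notMem_W2 i) _)
    (Subalgebra.mul_mem _ (X_mem_elimB (inr_notMem_W2 hl (by decide)))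
      (rename_mem_elimB _ (inl_notMem_W2 i) _))

lemma f1_mem2 {i l : Fin r} (hl : l ≠ i) : P.f1 l ∈ elimB (κ := κ) (W2 n i) :=
  Subalgebra.add_mem _ (rename_mem_elimB _ (inl_notMem_W2 i) _)
    (Subalgebra.mul_mem _ (X_mem_elimB (inr_notMem_W2 hl (by decide)))
      (rename_mem_elimB _ (inl_notMem_W2 i) _))

lemma map_elimI2 (i : Fin r) :
    (elimI (W2 n i) P.α2 P.β2).map (evZ Z : CC κ n r →ₐ[κ] MvPolynomial (Fin n) Z) =
      IL ((P.d i, P.f1Z Z i) :: P.FL Z) := by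
  rw [elimI, Ideal.map_span, IL_cons]
  apply le_antisymm
  · rw [Ideal.span_le]
    rintro _ ⟨_, ⟨w, hw, rfl⟩, rfl⟩
    rcases mem_W2.1 hw with rfl | rfl | ⟨l, hl, rfl⟩
    · have h1 : P.α2 (Sum.inr (i, 0)) + X (Sum.inr (i, 0)) * P.β2 (Sum.inr (i, 0)) =
          P.ff i - X (Sum.inr (i, 2)) * P.f1 i := by
        simp only [α2, β2, ff, f0]
        ring
      rw [h1, map_sub, map_mul]
      refine Ideal.sub_mem _ (Ideal.mem_sup_left (P.fZ_mem i)) (Ideal.mem_sup_right ?_)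
      exact Ideal.mul_mem_left _ _ (Ideal.mem_span_singleton_self _)
    · have h1 : P.α2 (Sum.inr (i, 1)) + X (Sum.inr (i, 1)) * P.β2 (Sum.inr (i, 1)) =
          P.f1 i := by
        simp only [α2, β2, f1]
      rw [h1]
      exact Ideal.mem_sup_right (Ideal.mem_span_singleton_self _)
    · have h1 : P.α2 (Sum.inr (l, 2)) + X (Sum.inr (l, 2)) * P.β2 (Sum.inr (l, 2)) =
          P.ff l := by
        simp only [α2, β2, ff]
      rw [h1]
      exact Ideal.mem_sup_left (P.fZ_mem l)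
  · have hgen : ∀ w ∈ W2 n i, evZ Z (P.α2 w + X w * P.β2 w) ∈
        Ideal.span ((evZ Z : CC κ n r →ₐ[κ] MvPolynomial (Fin n) Z) ''
          {u | ∃ w ∈ W2 n i, u = P.α2 w + X w * P.β2 w}) :=
      fun w hw => Ideal.subset_span ⟨_, ⟨w, hw, rfl⟩, rfl⟩
    have hf1 : P.f1Z Z i ∈ Ideal.span ((evZ Z : CC κ n r →ₐ[κ] MvPolynomial (Fin n) Z) ''
          {u | ∃ w ∈ W2 n i, u = P.α2 w + X w * P.β2 w}) := by
      have h1 := hgen (Sum.inr (i, 1)) (mem_W2.2 (Or.inr (Or.inl rfl)))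
      have h2 : P.α2 (Sum.inr (i, 1)) + X (Sum.inr (i, 1)) * P.β2 (Sum.inr (i, 1)) =
          P.f1 i := by
        simp only [α2, β2, f1]
      rw [h2] at h1
      exact h1
    refine sup_le (IL_le fun a ha => ?_) (by rw [Ideal.span_singleton_le_iff_mem]; exact hf1)
    obtain ⟨l, rfl⟩ := P.mem_FL.1 ha
    by_cases hl : l = i
    · subst hl
      have h1 := hgen (Sum.inr (l, 0)) (mem_W2.2 (Or.inl rfl))
      have h2 : P.ff l = (P.α2 (Sum.inr (l, 0)) + X (Sum.inr (l, 0)) * P.β2 (Sum.inr (l, 0))) +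
          X (Sum.inr (l, 2)) * P.f1 l := by
        simp only [α2, β2, ff, f0]
      change evZ Z (P.ff l) ∈ _
      rw [h2, map_add, map_mul]
      exact Ideal.add_mem _ h1 (Ideal.mul_mem_left _ _ hf1)
    · have h1 := hgen (Sum.inr (l, 2)) (mem_W2.2 (Or.inr (Or.inr ⟨l, hl, rfl⟩)))
      exact h1

theorem dom2 (h : P.Reg Z) (i : Fin r) : (IL ((P.d i, P.f1Z Z i) :: P.FL Z)).IsPrime := by
  refine (dom_elim (W := W2 n i) (α := P.α2) (β := P.β2) ?_ ?_ ?_ (P.map_elimI2 i) ?_).1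
  · intro w hw
    rcases mem_W2.1 hw with rfl | rfl | ⟨l, hl, rfl⟩
    · exact rename_mem_elimB _ (inl_notMem_W2 i) _
    · exact rename_mem_elimB _ (inl_notMem_W2 i) _
    · exact P.f0_mem2 hl
  · intro w hw
    rcases mem_W2.1 hw with rfl | rfl | ⟨l, hl, rfl⟩
    · exact rename_mem_elimB _ (inl_notMem_W2 i) _
    · exact rename_mem_elimB _ (inl_notMem_W2 i) _
    · exact P.f1_mem2 hl
  · intro a ha
    rcases List.mem_cons.1 ha with rfl | ha
    · exact ⟨P.hd i, P.f1Z_hom i⟩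
    · exact P.okf_FL a ha
  · intro w hw
    rcases mem_W2.1 hw with rfl | rfl | ⟨l, hl, rfl⟩
    · have := (h.r1 i).2
      rw [b0Z] at this
      simp only [β2]
      rw [evZ, evA_rename]
      exact this
    · have := (h.r2 i).2
      rw [b1Z] at this
      simp only [β2]
      rw [evZ, evA_rename]
      exact this
    · exact (h.r3 i l hl).2

end Pen

end Z

end Pool.Agent.K1Z
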