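import Mathlib
import Pool.Agent.CB.CIThm
import Pool.Agent.EGH51.BaseC

/-!
# Complete intersections over an arbitrary field

`CI_of_deg`: `N` forms of positive degrees in `N` variables over any field whose ideal contains all
forms of one degree are a complete intersection.
-/

set_option autoImplicit false
set_option linter.all false

noncomputable section

namespace Pool.Agent.K1Z

open Module MvPolynomial Pool.Agent.CB Pool.Agent.EGH51

variable {L : Type*} [Field L] {n : ℕ}

/-- extension of the scalars of a list of forms -/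
def mapL (E : Type*) [Field E] [Algebra L E] (l : List (ℕ × MvPolynomial (Fin n) L)) :
    List (ℕ × MvPolynomial (Fin n) E) := l.map fun a => (a.1, ext L E n a.2)

section

variable {E : Type*} [Field E] [Algebra L E]

lemma IL_mapL (l : List (ℕ × MvPolynomial (Fin n) L)) :
    IL (mapL E l) = (IL l).map (ext L E n) := by
  induction l with
  | nil => rw [mapL, List.map_nil, IL_nil, IL_nil, Ideal.map_bot]
  | cons a l ih =>
    rw [mapL, List.map_cons, IL_cons, IL_cons, Ideal.map_sup, Ideal.map_span,
      Set.image_singleton, ← ih]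
    rfl

lemma mem_of_ext_mem {J : Ideal (MvPolynomial (Fin n) L)} {u : MvPolynomial (Fin n) L}
    (h : ext L E n u ∈ J.map (ext L E n)) : u ∈ J := by
  obtain ⟨s, ⟨b⟩⟩ := Basis.exists_basis L E
  have h1 := (mem_ext_iff b J _).1 h
  obtain ⟨i, hi⟩ : ∃ i, b.coord i (1 : E) ≠ 0 := by
    by_contra hcon
    push Not at hcon
    exact one_ne_zero (b.ext_elem fun i => by
      have := hcon i
      rw [map_zero]
      exact this : (1 : E) = 0)
  have h2 := h1 i
  rw [← one_mul (ext L E n u), ← C_1, cf_C_mul_ext] at h2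
  have h3 := J.mul_mem_left (C (b.coord i (1 : E))⁻¹) h2
  rw [← mul_assoc, ← C_mul, inv_mul_cancel₀ hi, C_1, one_mul] at h3
  exact h3

lemma WR_of_mapL {l : List (ℕ × MvPolynomial (Fin n) L)} (h : WR (mapL E l)) : WR l := by
  induction l with
  | nil => exact trivial
  | cons a l ih =>
    rw [mapL, List.map_cons] at h
    refine ⟨ih h.1, ?_⟩
    intro u hu
    apply mem_of_ext_mem (E := E)
    rw [← IL_mapL]
    apply h.2
    change ext L E n a.2 * ext L E n u ∈ _
    rw [← map_mul]
    change _ ∈ IL (mapL E l)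
    rw [IL_mapL]
    exact Ideal.mem_map_of_mem _ hu

lemma sd_mapL (l : List (ℕ × MvPolynomial (Fin n) L)) : sd (mapL E l) = sd l := by
  unfold sd mapL
  rw [List.map_map]
  rfl

lemma pd_mapL (l : List (ℕ × MvPolynomial (Fin n) L)) : pd (mapL E l) = pd l := by
  unfold pd mapL
  rw [List.map_map]
  rfl

end

/-- the criterion -/
theorem CI_of_deg {l : List (ℕ × MvPolynomial (Fin n) L)} (hlen : l.length = n)
    (hok : ∀ a ∈ l, okf a) {M : ℕ}
    (hM : ∀ f : MvPolynomial (Fin n) L, f.IsHomogeneous M → f ∈ IL l) : CI l := by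
  obtain ⟨E, hE⟩ : ∃ E, E = AlgebraicClosure L := ⟨_, rfl⟩
  have hokE : ∀ a ∈ mapL (AlgebraicClosure L) l, okf a := by
    intro a ha
    obtain ⟨b, hb, rfl⟩ := List.mem_map.1 ha
    exact ⟨(hok b hb).1, (hok b hb).2.map _⟩
  have hnz : NZ (mapL (AlgebraicClosure L) l) := by
    intro x hx
    funext i
    have h1 := hM (X i ^ M) (by simpa using (isHomogeneous_X L i).pow M)
    have h2 : ext L (AlgebraicClosure L) n (X i ^ M) ∈ IL (mapL (AlgebraicClosure L) l) := by
      rw [IL_mapL]
      exact Ideal.mem_map_of_mem _ h1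
    have h3 := eval_eq_zero_of_mem_IL hx h2
    rw [map_pow, map_X, map_pow, eval_X] at h3
    exact eq_zero_of_pow_eq_zero h3
  have hci : CI (mapL (AlgebraicClosure L) l) :=
    CI_of_NZ _ (by rw [mapL, List.length_map, hlen]) hokE hnz
  obtain ⟨h1, h2, h3, h4, h5⟩ := hci
  have hhd : ∀ j, hd (IL (mapL (AlgebraicClosure L) l)) j = hd (IL l) j := by
    intro j
    rw [IL_mapL, hd_ext (HI_IL hok)]
  simp only [hhd, sd_mapL, pd_mapL] at h2 h3 h4 h5
  refine ⟨WR_of_mapL h1, h2, h3, h4, ?_⟩
  intro j u hu hu0 hXu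
  refine h5 j (ext L (AlgebraicClosure L) n u) (hu.map _) ?_ ?_
  · intro h6
    rw [IL_mapL] at h6
    exact hu0 (mem_of_ext_mem h6)
  · intro i
    rw [IL_mapL, ← map_X (algebraMap L (AlgebraicClosure L)) i]
    change ext L _ n (X i) * ext L _ n u ∈ _
    rw [← map_mul]
    exact Ideal.mem_map_of_mem _ (hXu i)

/-- the Hilbert function of a two dimensional complete intersection -/
theorem hd_bounds {l : List (ℕ × MvPolynomial (Fin n) L)} {p q : MvPolynomial (Fin n) L}
    (hok : ∀ a ∈ l, okf a) (hp : p.IsHomogeneous 1) (hq : q.IsHomogeneous 1)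
    (h : CI ((1, p) :: (1, q) :: l)) (s : ℕ) :
    hd (IL l) s ≤ pd l * (s + 1) ∧ pd l * (s + 1) ≤ hd (IL l) s + pd l * sd l := by
  have hwr := h.wr
  have e1 : sd ((1, p) :: (1, q) :: l) = sd l := by simp [sd]
  have e2 : pd ((1, p) :: (1, q) :: l) = pd l := by simp [pd]
  have hlen := h.len
  rw [e1, e2] at hlen
  have hI := HI_IL hok
  have hokq : ∀ a ∈ ((1, q) :: l), okf a := by
    intro a ha
    rcases List.mem_cons.1 ha with rfl | ha
    · exact ⟨le_rfl, hq⟩
    · exact hok a ha
  have hIq := HI_IL hokq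
  have hsumq : ∀ s, ∑ j ∈ Finset.range (s + 1), hd (IL ((1, p) :: (1, q) :: l)) j =
      hd (IL ((1, q) :: l)) s := by
    intro s
    induction s with
    | zero =>
      rw [Finset.sum_range_one, IL_cons (1, p), hd_low hIq hp (by norm_num)]
    | succ s ih =>
      rw [Finset.sum_range_succ, ih]
      have h1 := hd_col hIq hp s
      have h2 : NZD (IL ((1, q) :: l)) p := hwr.2
      rw [h2.col_eq] at h1
      rw [IL_cons (1, p)]
      exact h1
  have hsum : ∀ s, ∑ j ∈ Finset.range (s + 1), hd (IL ((1, q) :: l)) j = hd (IL l) s := by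
    intro s
    induction s with
    | zero =>
      rw [Finset.sum_range_one, IL_cons, hd_low hI hq (by norm_num)]
    | succ s ih =>
      rw [Finset.sum_range_succ, ih]
      have h1 := hd_col hI hq s
      have h2 : NZD (IL l) q := hwr.1.2
      rw [h2.col_eq] at h1
      rw [IL_cons]
      exact h1
  have hle : ∀ j, hd (IL ((1, q) :: l)) j ≤ pd l := by
    intro j
    rw [← hsumq, ← hlen (sd l + j + 1) (by omega)]
    apply Finset.sum_le_sum_of_subset
    intro i hi
    rw [Finset.mem_range] at *
    omega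
  have heq : ∀ j, sd l ≤ j → hd (IL ((1, q) :: l)) j = pd l := by
    intro j hj
    rw [← hsumq, hlen (j + 1) (by omega)]
  rw [← hsum s]
  constructor
  · calc ∑ j ∈ Finset.range (s + 1), hd (IL ((1, q) :: l)) j ≤
        ∑ j ∈ Finset.range (s + 1), pd l := Finset.sum_le_sum fun j _ => hle j
      _ = pd l * (s + 1) := by rw [Finset.sum_const, Finset.card_range, smul_eq_mul, mul_comm]
  · have h1 : ∀ s, pd l * (s + 1) ≤ ∑ j ∈ Finset.range (s + 1), hd (IL ((1, q) :: l)) j +
        pd l * sd l := by
      intro s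
      by_cases hs : s < sd l
      · have : pd l * (s + 1) ≤ pd l * sd l := Nat.mul_le_mul_left _ (by omega)
        omega
      · obtain ⟨i, rfl⟩ := Nat.exists_eq_add_of_le (not_lt.1 hs)
        have h2 : ∑ j ∈ Finset.range (sd l + i + 1), hd (IL ((1, q) :: l)) j =
            ∑ j ∈ Finset.range (sd l), hd (IL ((1, q) :: l)) j + pd l * (i + 1) := by
          rw [add_assoc, Finset.sum_range_add]
          congr 1
          rw [Finset.sum_congr rfl (g := fun _ => pd l) (fun j _ => heq _ (by omega))]
          rw [Finset.sum_const, Finset.card_range, smul_eq_mul, mul_comm]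
        rw [h2]
        have h3 : pd l * (sd l + i + 1) = pd l * (i + 1) + pd l * sd l := by ring
        omega
    exact h1 s

end Pool.Agent.K1Z
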