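import Mathlib
import Pool.Agent.K1Z.CIField
import Pool.Agent.K1Z.Defs

/-!
# Specialisation of parameters

`spec_CI`: a list of `n` forms with parameters, whose specialisation at some values of the parameters
has no nontrivial common zero, is a complete intersection over the field of fractions of the
parameter ring.
-/

set_option autoImplicit false
set_option linter.all false

noncomputable section

namespace Pool.Agent.K1Z

open Module MvPolynomial Pool.Agent.CB Pool.Agent.CB27

variable {κ : Type*} [Field κ] {n r : ℕ}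

lemma evA_eq_map_eval (e : Par r → κ) (w : CC κ n r) :
    evA e w = MvPolynomial.map (eval e) (evL w) := by
  induction w using MvPolynomial.induction_on with
  | C a =>
    rw [← algebraMap_eq, AlgHom.commutes, AlgHom.commutes]
    rw [IsScalarTower.algebraMap_apply κ (Lam κ r) (MvPolynomial (Fin n) (Lam κ r)),
      algebraMap_eq, algebraMap_eq, algebraMap_eq, map_C, eval_C]
  | add p q hp hq => rw [map_add, map_add, map_add, hp, hq]
  | mul_X p i hp =>
    rw [map_mul, map_mul, map_mul, hp]
    congr 1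
    rcases i with i | q
    · rw [evA_inl, evL, evA_inl, map_X]
    · rw [evA_inr, evL, evA_inr, map_C, eval_X]

lemma evA_rename_self (e : Par r → κ) (c : MvPolynomial (Fin n) κ) :
    evA e (rename Sum.inl c : CC κ n r) = c := by
  rw [evA_rename, Algebra.algebraMap_self, MvPolynomial.map_id]

variable {Z : Type*} [Field Z] [Algebra κ Z] [Algebra (Lam κ r) Z] [IsScalarTower κ (Lam κ r) Z]

lemma exists_lift (e : Par r → κ) (l : List (ℕ × CC κ n r))
    {f : MvPolynomial (Fin n) κ} (hf : f ∈ IL (l.map fun a => (a.1, evA e a.2))) :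
    ∃ w : CC κ n r, evA e w = f ∧ evZ Z w ∈ IL (l.map fun a => (a.1, evZ Z a.2)) := by
  unfold IL at hf
  refine Submodule.span_induction (p := fun f _ => ∃ w : CC κ n r,
    evA e w = f ∧ evZ Z w ∈ IL (l.map fun a => (a.1, evZ Z a.2))) ?_ ?_ ?_ ?_ hf
  · rintro _ ⟨a, ha, rfl⟩
    obtain ⟨b, hb, rfl⟩ := List.mem_map.1 ha
    exact ⟨b.2, rfl, mem_IL (a := (b.1, evZ Z b.2)) (List.mem_map.2 ⟨b, hb, rfl⟩)⟩
  · exact ⟨0, map_zero _, by rw [map_zero]; exact Ideal.zero_mem _⟩
  · rintro x y - - ⟨w, hw, hw'⟩ ⟨v, hv, hv'⟩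
    exact ⟨w + v, by rw [map_add, hw, hv], by rw [map_add]; exact Ideal.add_mem _ hw' hv'⟩
  · rintro c x - ⟨w, hw, hw'⟩
    exact ⟨rename Sum.inl c * w, by rw [map_mul, hw, evA_rename_self, smul_eq_mul],
      by rw [map_mul]; exact Ideal.mul_mem_left _ _ hw'⟩

/-- Surjectivity in one degree is an open condition. -/
theorem spec_deg (hinj : Function.Injective (algebraMap (Lam κ r) Z))
    (e : Par r → κ) (l : List (ℕ × CC κ n r))
    {M : ℕ} (hM : ∀ f : MvPolynomial (Fin n) κ, f.IsHomogeneous M →
      f ∈ IL (l.map fun a => (a.1, evA e a.2)))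
    (hHI : HI (IL (l.map fun a => (a.1, evZ Z a.2)))) :
    ∀ f : MvPolynomial (Fin n) Z, f.IsHomogeneous M → f ∈ IL (l.map fun a => (a.1, evZ Z a.2)) := by
  classical
  let s : Finset (Fin n →₀ ℕ) := (Finset.univ : Finset (Fin n)).finsuppAntidiag M
  have hs : ∀ m, m ∈ s ↔ Finsupp.degree m = M := by
    intro m
    rw [Finset.mem_finsuppAntidiag]
    constructor
    · rintro ⟨h, -⟩
      rw [Finsupp.degree_eq_sum]
      exact h
    · intro h
      rw [Finsupp.degree_eq_sum] at h
      exact ⟨h, Finset.subset_univ _⟩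
  have hmon : ∀ (m : s), (monomial m.1 (1 : κ)).IsHomogeneous M := by
    intro m
    exact isHomogeneous_monomial _ ((hs m.1).1 m.2)
  choose w hw hw' using fun m : s => exists_lift (Z := Z) e l (hM _ (hmon m))
  obtain ⟨A, hA⟩ : ∃ A : Matrix s s (Lam κ r),
    A = Matrix.of fun m m' => coeff m'.1 (evL (w m)) := ⟨_, rfl⟩
  have hA1 : A.map (eval e) = 1 := by
    ext m m'
    rw [Matrix.map_apply, hA, Matrix.of_apply, ← coeff_map, ← evA_eq_map_eval, hw, coeff_monomial,
      Matrix.one_apply]
    exact if_congr Subtype.ext_iff.symm rfl rfl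
  have hdet : A.det ≠ 0 := by
    intro h0
    have h1 : eval e A.det = 1 := by
      rw [RingHom.map_det]
      change (A.map (eval e)).det = 1
      rw [hA1, Matrix.det_one]
    rw [h0, map_zero] at h1
    exact zero_ne_one h1
  obtain ⟨B, hB⟩ : ∃ B : Matrix s s Z, B = (A.map (algebraMap (Lam κ r) Z))⁻¹ := ⟨_, rfl⟩
  have hBA : B * A.map (algebraMap (Lam κ r) Z) = 1 := by
    rw [hB]
    apply Matrix.nonsing_inv_mul
    have : (A.map (algebraMap (Lam κ r) Z)).det =
        algebraMap (Lam κ r) Z A.det := by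
      rw [RingHom.map_det]
      rfl
    rw [this]
    refine isUnit_iff_ne_zero.2 fun h0 => hdet ?_
    exact hinj (by rw [h0, map_zero])
  have hmem : ∀ m : s, (monomial m.1 (1 : Z)) ∈ IL (l.map fun a => (a.1, evZ Z a.2)) := by
    intro m0
    have h1 : monomial m0.1 (1 : Z) =
        ∑ m : s, C (B m0 m) * homogeneousComponent M (evZ Z (w m)) := by
      ext m'
      rw [coeff_sum]
      simp only [coeff_C_mul, coeff_homogeneousComponent]
      by_cases hm' : Finsupp.degree m' = M
      · simp only [hm', if_true]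
        have h2 := congrFun (congrFun hBA m0) ⟨m', (hs m').2 hm'⟩
        rw [Matrix.mul_apply] at h2
        have h3 : ∀ m : s, coeff m' (evZ Z (w m)) =
            A.map (algebraMap (Lam κ r) Z) m ⟨m', (hs m').2 hm'⟩ := by
          intro m
          rw [evZ_eq_map, coeff_map, Matrix.map_apply, hA, Matrix.of_apply]
        simp only [h3]
        rw [h2, coeff_monomial, Matrix.one_apply]
        refine if_congr ?_ rfl rfl
        rw [Subtype.ext_iff]
      · simp only [hm', if_false, mul_zero, Finset.sum_const_zero]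
        rw [coeff_monomial, if_neg]
        intro h
        exact hm' (by rw [← h]; exact (hs m0.1).1 m0.2)
    rw [h1]
    exact Ideal.sum_mem _ fun m _ => Ideal.mul_mem_left _ _ (hHI _ (hw' m) M)
  intro f hf
  rw [f.as_sum]
  refine Ideal.sum_mem _ fun m hm => ?_
  have h1 : Finsupp.degree m = M := by
    rw [Finsupp.degree_eq_weight_one]
    exact hf (mem_support_iff.1 hm)
  have h2 := Ideal.mul_mem_left _ (C (coeff m f)) (hmem ⟨m, (hs m).2 h1⟩)
  rw [C_mul_monomial, mul_one] at h2
  exact h2

/-- **Specialisation.** -/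
theorem spec_CI [IsAlgClosed κ] (hinj : Function.Injective (algebraMap (Lam κ r) Z))
    (e : Par r → κ) (l : List (ℕ × CC κ n r)) (hlen : l.length = n)
    (hnz : NZ (l.map fun a => (a.1, evA e a.2)))
    (hok : ∀ a ∈ l, okf (a.1, evZ Z a.2)) : CI (l.map fun a => (a.1, evZ Z a.2)) := by
  obtain ⟨M, hM⟩ := hnz.exists_deg
  have hok' : ∀ a ∈ l.map fun a => (a.1, evZ Z a.2), okf a := by
    intro a ha
    obtain ⟨b, hb, rfl⟩ := List.mem_map.1 ha
    exact hok b hb
  exact CI_of_deg (by rw [List.length_map, hlen]) hok'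
    (spec_deg hinj e l (hM M le_rfl) (HI_IL hok'))

end Pool.Agent.K1Z
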