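import Mathlib
import Pool.Agent.EGH51.DimS
import Pool.Agent.CB.CIK1

/-!
# Regular sequences of length `N` in `N` variables over any field: nothing above the socle degree
-/

set_option autoImplicit false
set_option linter.all false

noncomputable section

namespace Pool.Agent.K1Z

open Module MvPolynomial Pool.Agent.CB

variable {K : Type*} [Field K] {N : ℕ}

/-- Hilbert series -/
def ser (I : Ideal (MvPolynomial (Fin N) K)) : PowerSeries ℤ :=
  PowerSeries.mk fun j => (hd I j : ℤ)

lemma hd_bot' (j : ℕ) :
    hd (⊥ : Ideal (MvPolynomial (Fin N) K)) j = finrank K (homogeneousSubmodule (Fin N) K j) := by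
  have h : Jn (⊥ : Ideal (MvPolynomial (Fin N) K)) j = ⊥ := by
    rw [eq_bot_iff]
    intro x hx
    exact hx.1
  unfold hd
  rw [h, finrank_bot, Nat.sub_zero]

lemma ser_nil :
    (1 - PowerSeries.X) ^ N * ser (⊥ : Ideal (MvPolynomial (Fin N) K)) = 1 := by
  rcases Nat.eq_zero_or_pos N with rfl | hN
  · rw [pow_zero, one_mul]
    ext j
    rw [ser, PowerSeries.coeff_mk, PowerSeries.coeff_one, hd_bot']
    split_ifs with h
    · rw [h, finrank_S0]; rfl
    · have : homogeneousSubmodule (Fin 0) K j = ⊥ := by
        rw [eq_bot_iff]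
        intro f hf
        rw [Submodule.mem_bot]
        by_contra hne
        obtain ⟨m, hm⟩ := MvPolynomial.ne_zero_iff.1 hne
        have h1 := hf hm
        have h2 : m = 0 := Subsingleton.elim _ _
        rw [h2] at h1
        simp at h1
        exact h h1.symm
      rw [this, finrank_bot]
      rfl
  · have h1 : ser (⊥ : Ideal (MvPolynomial (Fin N) K)) =
        (PowerSeries.invOneSubPow ℤ N).val := by
      rw [PowerSeries.invOneSubPow_val_eq_mk_sub_one_add_choose_of_pos ℤ N hN]
      ext j
      rw [ser, PowerSeries.coeff_mk, PowerSeries.coeff_mk, hd_bot',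
        Pool.Agent.EGH51.finrank_hom K hN]
      have : j + N - 1 = N - 1 + j := by omega
      rw [this]
    rw [h1, ← PowerSeries.invOneSubPow_inv_eq_one_sub_pow]
    exact Units.inv_mul _

lemma ser_cons {I : Ideal (MvPolynomial (Fin N) K)} (hI : HI I) {d : ℕ}
    {f : MvPolynomial (Fin N) K} (hf : f.IsHomogeneous d) (h : NZD I f) :
    ser (I ⊔ Ideal.span {f}) = (1 - PowerSeries.X ^ d) * ser I := by
  have key : ser I = ser (I ⊔ Ideal.span {f}) + PowerSeries.X ^ d * ser I := by
    ext j
    rw [map_add, PowerSeries.coeff_X_pow_mul']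
    simp only [ser, PowerSeries.coeff_mk]
    split_ifs with hj
    · obtain ⟨i, rfl⟩ := Nat.exists_eq_add_of_le' hj
      have h1 := hd_col hI hf i
      rw [h.col_eq] at h1
      rw [Nat.add_sub_cancel]
      rw [← h1]
      push_cast
      ring
    · rw [hd_low hI hf (not_le.1 hj), add_zero]
  linear_combination (-1 : PowerSeries ℤ) * key

/-- product of the geometric sums -/
def geo : List (ℕ × MvPolynomial (Fin N) K) → Polynomial ℤ
  | [] => 1
  | a :: l => (∑ i ∈ Finset.range a.1, Polynomial.X ^ i) * geo l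

lemma geo_deg {l : List (ℕ × MvPolynomial (Fin N) K)} (hl : ∀ a ∈ l, okf a) :
    (geo l).natDegree ≤ sd l := by
  induction l with
  | nil => simp [geo, sd]
  | cons a l ih =>
    rw [geo, sd, List.map_cons, List.sum_cons]
    refine Polynomial.natDegree_mul_le.trans (Nat.add_le_add ?_
      (ih fun b hb => hl b (List.mem_cons_of_mem _ hb)))
    refine Polynomial.natDegree_sum_le_of_forall_le _ _ fun i hi => ?_
    rw [Polynomial.natDegree_X_pow]
    have := Finset.mem_range.1 hi
    omega

lemma ser_list (l : List (ℕ × MvPolynomial (Fin N) K)) (hl : ∀ a ∈ l, okf a) (h : WR l) :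
    (1 - PowerSeries.X) ^ N * ser (IL l) =
      (1 - PowerSeries.X) ^ l.length * ((geo l : Polynomial ℤ) : PowerSeries ℤ) := by
  induction l with
  | nil =>
    rw [IL_nil, ser_nil]
    simp [geo]
  | cons a l ih =>
    have hok : ∀ b ∈ l, okf b := fun b hb => hl b (List.mem_cons_of_mem _ hb)
    rw [IL_cons, ser_cons (HI_IL hok) (hl a List.mem_cons_self).2 h.2, List.length_cons,
      pow_succ (1 - PowerSeries.X : PowerSeries ℤ) l.length, mul_left_comm, ih hok h.1, geo]
    have h1 : (1 - PowerSeries.X ^ a.1 : PowerSeries ℤ) = (1 - PowerSeries.X) *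
        (((∑ i ∈ Finset.range a.1, Polynomial.X ^ i : Polynomial ℤ)) : PowerSeries ℤ) := by
      have h3 : (1 - Polynomial.X ^ a.1 : Polynomial ℤ) =
          (1 - Polynomial.X) * ∑ i ∈ Finset.range a.1, Polynomial.X ^ i :=
        (mul_neg_geom_sum (Polynomial.X : Polynomial ℤ) a.1).symm
      have h4 := congrArg (fun q : Polynomial ℤ => (q : PowerSeries ℤ)) h3
      simpa using h4
    rw [h1, Polynomial.coe_mul]
    ring

/-- a regular sequence of length `N`: nothing above the socle degree -/
theorem WR_zero {l : List (ℕ × MvPolynomial (Fin N) K)} (hlen : l.length = N)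
    (hl : ∀ a ∈ l, okf a) (h : WR l) {j : ℕ} (hj : sd l < j) : hd (IL l) j = 0 := by
  have h1 := ser_list l hl h
  rw [hlen] at h1
  have h3 : ((1 - PowerSeries.X : PowerSeries ℤ)) ^ N ≠ 0 := by
    intro h0
    have := congrArg PowerSeries.constantCoeff h0
    simp at this
  have h4 := mul_left_cancel₀ h3 h1
  have h5 := congrArg (PowerSeries.coeff j) h4
  rw [ser, PowerSeries.coeff_mk, Polynomial.coeff_coe,
    Polynomial.coeff_eq_zero_of_natDegree_lt ((geo_deg hl).trans_lt hj)] at h5
  exact_mod_cast h5

/-- a nonzero form of the dual killed by a regular sequence of length `N` has degree at most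
the socle degree -/
theorem deg_le_sd {l : List (ℕ × MvPolynomial (Fin N) K)} (hlen : l.length = N)
    (hl : ∀ a ∈ l, okf a) (h : WR l) {G : MvPolynomial (Fin N) K →ₗ[K] K} {t : ℕ}
    (hG : G ∈ DD K N t) (hG0 : G ≠ 0) (hle : IL l ≤ Ann G) : t ≤ sd l := by
  by_contra hcon
  apply hG0
  have h1 := hd_eq_zero_iff.1 (WR_zero hlen hl h (not_le.1 hcon))
  apply LinearMap.ext
  intro u
  rw [← sum_homogeneousComponent u, map_sum, LinearMap.zero_apply]
  refine Finset.sum_eq_zero fun k _ => ?_
  by_cases hk : k = t
  · subst hk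
    have h2 := hle (h1 _ (homogeneousComponent_isHomogeneous k u))
    have h3 := mem_Ann'.1 h2 1
    rwa [mul_one] at h3
  · exact hG _ _ (homogeneousComponent_isHomogeneous k u) (by tauto)

end Pool.Agent.K1Z
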