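import Mathlib
import Pool.Agent.K1Z.Spec
import Pool.Agent.K1Z.WRZero

/-!
# Regularity of the lists over `Z`
-/

set_option autoImplicit false
set_option linter.all false

noncomputable section

namespace Pool.Agent.K1Z

open Module MvPolynomial Pool.Agent.CB Pool.Agent.CB27

namespace Pen

variable {κ : Type*} [Field κ] {n r : ℕ} (P : Pen κ n r)

lemma evA_f0 (i : Fin r) : evA (0 : Par r → κ) (P.f0 i) = P.a0 i := by
  rw [f0, map_add, map_mul, evA_rename_self, evA_inr, Pi.zero_apply, C_0, zero_mul, add_zero]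

lemma evA_f1 (i : Fin r) : evA (0 : Par r → κ) (P.f1 i) = P.a1 i := by
  rw [f1, map_add, map_mul, evA_rename_self, evA_inr, Pi.zero_apply, C_0, zero_mul, add_zero]

lemma evA_ff (i : Fin r) : evA (0 : Par r → κ) (P.ff i) = P.a0 i := by
  rw [ff, map_add, map_mul, evA_f0, evA_inr, Pi.zero_apply, C_0, zero_mul, add_zero]

variable {Z : Type*} [Field Z] [Algebra κ Z] [Algebra (Lam κ r) Z] [IsScalarTower κ (Lam κ r) Z]

/-- the general form -/
lemma CI_list [IsAlgClosed κ] (hinj : Function.Injective (algebraMap (Lam κ r) Z))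
    (hn : n = r + 2) {x y : ℕ × CC κ n r} {w : Fin r → CC κ n r}
    (hw : ∀ i, evA (0 : Par r → κ) (w i) = P.a0 i) (hwh : ∀ i, (evZ Z (w i)).IsHomogeneous (P.d i))
    (hx : okf (x.1, evZ Z x.2)) (hy : okf (y.1, evZ Z y.2))
    (hnz : NZ ((x.1, evA (0 : Par r → κ) x.2) :: (y.1, evA (0 : Par r → κ) y.2) ::
        (List.finRange r).map fun i => (P.d i, P.a0 i))) :
    CI ((x.1, evZ Z x.2) :: (y.1, evZ Z y.2) ::
        (List.finRange r).map fun i => (P.d i, evZ Z (w i))) := by
  have h := spec_CI (Z := Z) hinj 0 (x :: y :: (List.finRange r).map fun i => (P.d i, w i))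
    (by rw [List.length_cons, List.length_cons, List.length_map, List.length_finRange, hn])
    (by
      rw [List.map_cons, List.map_cons, List.map_map]
      have : ((fun a : ℕ × CC κ n r => (a.1, evA (0 : Par r → κ) a.2)) ∘
          fun i => (P.d i, w i)) = fun i => (P.d i, P.a0 i) := by
        funext i
        exact Prod.ext rfl (hw i)
      rw [this]
      exact hnz)
    (by
      intro a ha
      rcases List.mem_cons.1 ha with rfl | ha
      · exact hx
      · rcases List.mem_cons.1 ha with rfl | ha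
        · exact hy
        · obtain ⟨i, -, rfl⟩ := List.mem_map.1 ha
          exact ⟨P.hd i, hwh i⟩)
  rw [List.map_cons, List.map_cons, List.map_map] at h
  exact h

section

variable [IsAlgClosed κ] (hinj : Function.Injective (algebraMap (Lam κ r) Z))
    (hn : n = r + 2)

include hinj hn

lemma CI_r1 (i : Fin r) (hnz : NZ ((P.d i, P.b0 i) :: (P.d i, P.a1 i) ::
      (List.finRange r).map fun i => (P.d i, P.a0 i))) :
    CI ((P.d i, P.b0Z Z i) :: (P.d i, P.f1Z Z i) :: P.FL Z) := by
  have h := P.CI_list (Z := Z) hinj hn (x := (P.d i, rename Sum.inl (P.b0 i)))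
    (y := (P.d i, P.f1 i)) (w := P.ff) P.evA_ff P.fZ_hom
    ⟨P.hd i, by
      simp only
      rw [evZ, evA_rename]
      exact P.b0Z_hom i⟩ ⟨P.hd i, P.f1Z_hom i⟩
    (by
      simp only
      rw [evA_rename_self, evA_f1]
      exact hnz)
  simp only at h
  rw [evZ, evA_rename] at h
  exact h

lemma CI_r3 (i l : Fin r) (hnz : NZ ((P.d l, P.a1 l) :: (P.d i, P.a1 i) ::
      (List.finRange r).map fun i => (P.d i, P.a0 i))) :
    CI ((P.d l, P.f1Z Z l) :: (P.d i, P.f1Z Z i) :: P.FL Z) := by
  have h := P.CI_list (Z := Z) hinj hn (x := (P.d l, P.f1 l))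
    (y := (P.d i, P.f1 i)) (w := P.ff) P.evA_ff P.fZ_hom
    ⟨P.hd l, P.f1Z_hom l⟩ ⟨P.hd i, P.f1Z_hom i⟩
    (by
      simp only
      rw [evA_f1, evA_f1]
      exact hnz)
  exact h

lemma CI_lin {p q : MvPolynomial (Fin n) κ} (hp : p.IsHomogeneous 1) (hq : q.IsHomogeneous 1)
    (hnz : NZ ((1, p) :: (1, q) :: (List.finRange r).map fun i => (P.d i, P.a0 i))) :
    CI ((1, map (algebraMap κ Z) p) :: (1, map (algebraMap κ Z) q) :: P.FL Z) := by
  have h := P.CI_list (Z := Z) hinj hn (x := (1, rename Sum.inl p))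
    (y := (1, rename Sum.inl q)) (w := P.ff) P.evA_ff P.fZ_hom
    ⟨le_rfl, by
      simp only
      rw [evZ, evA_rename]
      exact hom_map hp⟩ ⟨le_rfl, by
      simp only
      rw [evZ, evA_rename]
      exact hom_map hq⟩
    (by
      simp only
      rw [evA_rename_self, evA_rename_self]
      exact hnz)
  simp only at h
  rw [evZ, evA_rename, evA_rename] at h
  exact h

/-- the list used for the nonvanishing of `G` -/
lemma CI_m4 (i : Fin r) (hnz : NZ ((P.d i, P.b0 i) :: (P.d i, P.a1 i) ::
      (List.finRange r).map fun i => (P.d i, P.a0 i))) :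
    CI ((P.d i, P.b0Z Z i) :: (P.d i, map (algebraMap κ Z) (P.a1 i)) ::
      (List.finRange r).map fun l => (P.d l, if l = i then map (algebraMap κ Z) (P.a0 l)
        else P.fZ Z l)) := by
  have h := P.CI_list (Z := Z) hinj hn (x := (P.d i, rename Sum.inl (P.b0 i)))
    (y := (P.d i, rename Sum.inl (P.a1 i)))
    (w := fun l => if l = i then rename Sum.inl (P.a0 l) else P.ff l)
    (by
      intro l
      split_ifs
      · rw [evA_rename_self]
      · exact P.evA_ff l)
    (by
      intro l
      split_ifs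
      · rw [evZ, evA_rename]
        exact hom_map (P.ha0 l)
      · exact P.fZ_hom l)
    ⟨P.hd i, by
      simp only
      rw [evZ, evA_rename]
      exact P.b0Z_hom i⟩ ⟨P.hd i, by
      simp only
      rw [evZ, evA_rename]
      exact hom_map (P.ha1 i)⟩
    (by
      simp only
      rw [evA_rename_self, evA_rename_self]
      exact hnz)
  simp only at h
  have e1 : ∀ u : MvPolynomial (Fin n) κ, evZ Z (rename Sum.inl u : CC κ n r) =
      map (algebraMap κ Z) u := fun u => by rw [evZ, evA_rename]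
  rw [e1, e1] at h
  have e2 : (fun l => (P.d l, evZ Z (if l = i then rename Sum.inl (P.a0 l) else P.ff l))) =
      fun l => (P.d l, if l = i then map (algebraMap κ Z) (P.a0 l) else P.fZ Z l) := by
    funext l
    by_cases hl : l = i
    · simp only [hl, if_true]
      rw [e1]
    · simp only [hl, if_false]
      rfl
  rw [e2] at h
  exact h

/-- **Output of M3.** -/
theorem reg {p q : MvPolynomial (Fin n) κ} (hp : p.IsHomogeneous 1) (hq : q.IsHomogeneous 1)
    (h0 : NZ ((1, p) :: (1, q) :: (List.finRange r).map fun i => (P.d i, P.a0 i)))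
    (h1 : ∀ i, NZ ((P.d i, P.b0 i) :: (P.d i, P.a1 i) ::
      (List.finRange r).map fun i => (P.d i, P.a0 i)))
    (h3 : ∀ i l, l ≠ i → NZ ((P.d l, P.a1 l) :: (P.d i, P.a1 i) ::
      (List.finRange r).map fun i => (P.d i, P.a0 i)))
    (hb : ∀ i, P.b1 i = P.b0 i) : P.Reg Z where
  r1 := fun i => (P.CI_r1 hinj hn i (h1 i)).wr
  r2 := fun i => by
    have h := (P.CI_r1 (Z := Z) hinj hn i (h1 i)).wr
    rw [b0Z, ← hb i] at h
    exact h
  r3 := fun i l hil => (P.CI_r3 hinj hn i l (h3 i l hil)).wr
  r0 := (P.CI_lin (Z := Z) hinj hn hp hq h0).wr.1.1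

end

end Pen

end Pool.Agent.K1Z
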