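import Mathlib
import Pool.Agent.CB.CIBasic

/-!
# Factors of a form in a graded domain are forms
-/

set_option autoImplicit false
set_option linter.all false

noncomputable section

namespace Pool.Agent.K1Z

open Module MvPolynomial Pool.Agent.CB

variable {K : Type*} [Field K] {N : ℕ} (I : Ideal (MvPolynomial (Fin N) K))

/-- the grading homomorphism `x_a ↦ x_a T` -/
def psi0 : MvPolynomial (Fin N) K →+* Polynomial (MvPolynomial (Fin N) K ⧸ I) :=
  eval₂Hom (Polynomial.C.comp ((Ideal.Quotient.mk I).comp C))
    fun a => Polynomial.C (Ideal.Quotient.mk I (X a)) * Polynomial.X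

lemma psi0_monomial (m : Fin N →₀ ℕ) (c : K) :
    psi0 I (monomial m c) =
      Polynomial.C (Ideal.Quotient.mk I (monomial m c)) * Polynomial.X ^ Finsupp.degree m := by
  induction m using Finsupp.induction_linear with
  | zero =>
    rw [show Finsupp.degree (0 : Fin N →₀ ℕ) = 0 from map_zero _, pow_zero, mul_one]
    change psi0 I (C c) = _
    rw [psi0, coe_eval₂Hom, eval₂_C]
    rfl
  | add f g hf hg =>
    by_cases hc : c = 0
    · rw [hc, map_zero, map_zero, map_zero, map_zero, zero_mul]
    · have h1 : (monomial (f + g) c : MvPolynomial (Fin N) K) * C c =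
          monomial f c * monomial g c := by
        rw [monomial_mul, mul_comm, C_mul_monomial]
      have h2 : IsUnit (psi0 I (C c)) := ((isUnit_iff_ne_zero.2 hc).map C).map (psi0 I)
      apply h2.mul_right_cancel
      rw [← map_mul, h1, map_mul, hf, hg, map_add Finsupp.degree, pow_add]
      have h3 : psi0 I (C c) = Polynomial.C (Ideal.Quotient.mk I (C c)) := by
        rw [psi0, coe_eval₂Hom, eval₂_C]
        rfl
      rw [h3]
      have h4 := congrArg (fun z => Polynomial.C (Ideal.Quotient.mk I z)) h1
      simp only [map_mul] at h4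
      linear_combination (-(Polynomial.X ^ Finsupp.degree f * Polynomial.X ^ Finsupp.degree g)) * h4
  | single a k =>
    induction k with
    | zero =>
      rw [Finsupp.single_zero, show Finsupp.degree (0 : Fin N →₀ ℕ) = 0 from map_zero _, pow_zero, mul_one]
      change psi0 I (C c) = _
      rw [psi0, coe_eval₂Hom, eval₂_C]
      rfl
    | succ k ih =>
      have h1 : (monomial (Finsupp.single a (k + 1)) c : MvPolynomial (Fin N) K) =
          monomial (Finsupp.single a k) c * X a := by
        rw [X, monomial_mul, mul_one, ← Finsupp.single_add]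
      have h2 : psi0 I (X a) = Polynomial.C (Ideal.Quotient.mk I (X a)) * Polynomial.X := by
        rw [psi0, coe_eval₂Hom, eval₂_X]
      rw [h1, map_mul, ih, h2, Finsupp.degree_single, Finsupp.degree_single, map_mul, map_mul,
        pow_succ]
      ring

lemma psi0_hom {u : MvPolynomial (Fin N) K} {j : ℕ} (hu : u.IsHomogeneous j) :
    psi0 I u = Polynomial.C (Ideal.Quotient.mk I u) * Polynomial.X ^ j := by
  have h1 : ∀ m ∈ u.support, psi0 I (monomial m (coeff m u)) =
      Polynomial.C (Ideal.Quotient.mk I (monomial m (coeff m u))) * Polynomial.X ^ j := by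
    intro m hm
    rw [psi0_monomial]
    have : Finsupp.degree m = j := by
      rw [Finsupp.degree_eq_weight_one]
      exact hu (mem_support_iff.1 hm)
    rw [this]
  conv_lhs => rw [u.as_sum]
  rw [map_sum, Finset.sum_congr rfl h1, ← Finset.sum_mul, ← map_sum, ← map_sum, ← u.as_sum]

variable {I}

/-- the induced homomorphism on the quotient -/
def psi (hI : HI I) : (MvPolynomial (Fin N) K ⧸ I) →+* Polynomial (MvPolynomial (Fin N) K ⧸ I) :=
  Ideal.Quotient.lift I (psi0 I) (by
    intro u hu
    rw [← sum_homogeneousComponent u, map_sum]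
    refine Finset.sum_eq_zero fun j _ => ?_
    rw [psi0_hom I (homogeneousComponent_isHomogeneous j u),
      Ideal.Quotient.eq_zero_iff_mem.2 (hI u hu j), map_zero, zero_mul])

lemma psi_mk (hI : HI I) (u : MvPolynomial (Fin N) K) :
    psi hI (Ideal.Quotient.mk I u) = psi0 I u := by
  rw [psi, Ideal.Quotient.lift_mk]

lemma coeff_psi_mk (hI : HI I) (u : MvPolynomial (Fin N) K) (i : ℕ) :
    (psi hI (Ideal.Quotient.mk I u)).coeff i =
      Ideal.Quotient.mk I (homogeneousComponent i u) := by
  rw [psi_mk]
  conv_lhs => rw [← sum_homogeneousComponent u, map_sum]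
  rw [Polynomial.finset_sum_coeff]
  have h1 : ∀ j ∈ Finset.range (u.totalDegree + 1),
      (psi0 I (homogeneousComponent j u)).coeff i =
        if j = i then Ideal.Quotient.mk I (homogeneousComponent i u) else 0 := by
    intro j _
    rw [psi0_hom I (homogeneousComponent_isHomogeneous j u), Polynomial.coeff_C_mul_X_pow]
    split_ifs with h2 h3 h3
    · rw [h2]
    · exact absurd h2.symm h3
    · exact absurd h3.symm h2
    · rfl
  rw [Finset.sum_congr rfl h1, Finset.sum_ite_eq']
  split_ifs with h
  · rfl
  · rw [homogeneousComponent_eq_zero _ _ (by simpa using h), map_zero]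

lemma eval_psi (hI : HI I) (x : MvPolynomial (Fin N) K ⧸ I) : (psi hI x).eval 1 = x := by
  obtain ⟨u, rfl⟩ := Ideal.Quotient.mk_surjective x
  rw [psi_mk]
  conv_rhs => rw [← sum_homogeneousComponent u]
  conv_lhs => rw [← sum_homogeneousComponent u]
  rw [map_sum, map_sum, Polynomial.eval_finset_sum]
  refine Finset.sum_congr rfl fun j _ => ?_
  rw [psi0_hom I (homogeneousComponent_isHomogeneous j u)]
  simp

/-- factors of a form modulo a homogeneous prime are forms -/
theorem hom_factor (hI : HI I) (hp : I.IsPrime) {g : MvPolynomial (Fin N) K} {d : ℕ}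
    (hg : g.IsHomogeneous d) (hgI : g ∉ I) {x y : MvPolynomial (Fin N) K ⧸ I}
    (hxy : x * y = Ideal.Quotient.mk I g) :
    ∃ (i j : ℕ) (u v : MvPolynomial (Fin N) K), i + j = d ∧ u.IsHomogeneous i ∧
      v.IsHomogeneous j ∧ Ideal.Quotient.mk I u = x ∧ Ideal.Quotient.mk I v = y := by
  have hdom : IsDomain (MvPolynomial (Fin N) K ⧸ I) := (Ideal.Quotient.isDomain_iff_prime I).2 hp
  have hg0 : Ideal.Quotient.mk I g ≠ 0 := fun h => hgI (Ideal.Quotient.eq_zero_iff_mem.1 h)
  have hx0 : x ≠ 0 := by
    rintro rfl
    rw [zero_mul] at hxy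
    exact hg0 hxy.symm
  have hy0 : y ≠ 0 := by
    rintro rfl
    rw [mul_zero] at hxy
    exact hg0 hxy.symm
  have hpx : psi hI x ≠ 0 := by
    intro h
    apply hx0
    rw [← eval_psi hI x, h, Polynomial.eval_zero]
  have hpy : psi hI y ≠ 0 := by
    intro h
    apply hy0
    rw [← eval_psi hI y, h, Polynomial.eval_zero]
  have hprod : psi hI x * psi hI y = Polynomial.C (Ideal.Quotient.mk I g) * Polynomial.X ^ d := by
    rw [← map_mul, hxy, psi_mk, psi0_hom I hg]
  have hdeg : (psi hI x).natDegree + (psi hI y).natDegree = d := by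
    rw [← Polynomial.natDegree_mul hpx hpy, hprod, Polynomial.natDegree_C_mul_X_pow _ _ hg0]
  have htr : (psi hI x).natTrailingDegree + (psi hI y).natTrailingDegree = d := by
    rw [← Polynomial.natTrailingDegree_mul hpx hpy, hprod, Polynomial.C_mul_X_pow_eq_monomial,
      Polynomial.natTrailingDegree_monomial hg0]
  have h1 := Polynomial.natTrailingDegree_le_natDegree (psi hI x)
  have h2 := Polynomial.natTrailingDegree_le_natDegree (psi hI y)
  have key : ∀ z : MvPolynomial (Fin N) K ⧸ I,
      (psi hI z).natTrailingDegree = (psi hI z).natDegree →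
      ∃ u : MvPolynomial (Fin N) K, u.IsHomogeneous (psi hI z).natDegree ∧
        Ideal.Quotient.mk I u = z := by
    intro z hz
    obtain ⟨u, hu⟩ := Ideal.Quotient.mk_surjective z
    refine ⟨homogeneousComponent (psi hI z).natDegree u,
      homogeneousComponent_isHomogeneous _ _, ?_⟩
    have h3 : psi hI z = Polynomial.monomial (psi hI z).natDegree
        ((psi hI z).coeff (psi hI z).natDegree) := by
      ext k
      rw [Polynomial.coeff_monomial]
      split_ifs with h
      · rw [h]
      · rcases Nat.lt_or_gt_of_ne h with h' | h'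
        · exact Polynomial.coeff_eq_zero_of_natDegree_lt h'
        · apply Polynomial.coeff_eq_zero_of_lt_natTrailingDegree
          rw [hz]
          exact h'
    have h4 := eval_psi hI z
    rw [h3, Polynomial.eval_monomial, one_pow, mul_one] at h4
    rw [← coeff_psi_mk hI, hu]
    exact h4
  obtain ⟨u, hu, hux⟩ := key x (by omega)
  obtain ⟨v, hv, hvy⟩ := key y (by omega)
  exact ⟨_, _, u, v, hdeg, hu, hv, hux, hvy⟩

end Pool.Agent.K1Z
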