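import Mathlib

/-!
# An elementary form of the theorem of Nagata on factoriality

`ι : B → R` injective, `B` factorial, `R` a noetherian domain, `q i` primes of `R`,
`MM q` = units times products of the `q i`; every `ρ : R` has `ι t * ρ = ι P` with `ι t ∈ MM q`.
-/

set_option autoImplicit false
set_option linter.all false

noncomputable section

namespace Pool.Agent.K1Z

variable {B R : Type*} [CommRing B] [IsDomain B] [UniqueFactorizationMonoid B]
  [CommRing R] [IsDomain R] {J : Type*}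

/-- units times products of the `q i` -/
def MM {R : Type*} [CommRing R] {J : Type*} (q : J → R) : Submonoid R :=
  Submonoid.closure ({u | IsUnit u} ∪ Set.range q)

lemma unit_mem_MM {q : J → R} {u : R} (h : IsUnit u) : u ∈ MM q :=
  Submonoid.subset_closure (Or.inl h)

lemma q_mem_MM {q : J → R} (i : J) : q i ∈ MM q :=
  Submonoid.subset_closure (Or.inr ⟨i, rfl⟩)

/-- `MM q` is closed under divisors -/
lemma MM_dvd {q : J → R} (hq : ∀ i, Prime (q i)) {m : R} (hm : m ∈ MM q) :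
    ∀ x y, x * y = m → x ∈ MM q := by
  induction hm using Submonoid.closure_induction_left with
  | one =>
    intro x y h
    exact unit_mem_MM (IsUnit.of_mul_eq_one y h)
  | mul_left s hs m' hm' ih =>
    intro x y h
    rcases hs with hs | ⟨i, rfl⟩
    · obtain ⟨u, rfl⟩ := hs
      refine ih x (y * ↑u⁻¹) ?_
      rw [← mul_assoc, h, mul_comm (u : R) m', mul_assoc, Units.mul_inv, mul_one]
    · have hd : q i ∣ x * y := ⟨m', h⟩
      rcases (hq i).dvd_or_dvd hd with ⟨x', rfl⟩ | ⟨y', rfl⟩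
      · refine (MM q).mul_mem (q_mem_MM i) (ih x' y ?_)
        apply mul_left_cancel₀ (hq i).ne_zero
        rw [← mul_assoc, h]
      · refine ih x y' ?_
        apply mul_left_cancel₀ (hq i).ne_zero
        rw [mul_left_comm, h]

lemma MM_of_dvd {q : J → R} (hq : ∀ i, Prime (q i)) {m x : R} (hm : m ∈ MM q) (h : x ∣ m) :
    x ∈ MM q := by
  obtain ⟨y, rfl⟩ := h
  exact MM_dvd hq hm x y rfl

lemma MM_ne_zero {q : J → R} (hq : ∀ i, Prime (q i)) {m : R} (hm : m ∈ MM q) : m ≠ 0 := by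
  induction hm using Submonoid.closure_induction with
  | mem x hx =>
    rcases hx with hx | ⟨i, rfl⟩
    · exact hx.ne_zero
    · exact (hq i).ne_zero
  | one => exact one_ne_zero
  | mul x y _ _ hx hy => exact mul_ne_zero hx hy

/-- cancel elements of `MM q` -/
lemma MM_cancel {q : J → R} (hq : ∀ i, Prime (q i)) {π : R} (hπ : ∀ i, ¬ q i ∣ π) {m : R}
    (hm : m ∈ MM q) : ∀ x, π ∣ m * x → π ∣ x := by
  induction hm using Submonoid.closure_induction_left with
  | one =>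
    intro x h
    rwa [one_mul] at h
  | mul_left s hs m' hm' ih =>
    intro x h
    rcases hs with hs | ⟨i, rfl⟩
    · apply ih
      rw [mul_assoc] at h
      exact (hs.dvd_mul_left).1 h
    · apply ih
      obtain ⟨w, hw⟩ := h
      have h1 : q i ∣ π * w := ⟨m' * x, by rw [← hw, mul_assoc]⟩
      rcases (hq i).dvd_or_dvd h1 with h2 | ⟨w', rfl⟩
      · exact absurd h2 (hπ i)
      · refine ⟨w', ?_⟩
        apply mul_left_cancel₀ (hq i).ne_zero
        rw [← mul_assoc, hw, mul_left_comm]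

/-- a prime element is in `MM q` only if it is associated to some `q i` -/
lemma prime_mem_MM {q : J → R} (hq : ∀ i, Prime (q i)) {π : R} (hπ : Prime π) (h : π ∈ MM q) :
    ∃ i, Associated π (q i) := by
  by_contra hcon
  push Not at hcon
  have h1 : ∀ i, ¬ q i ∣ π := fun i hi => hcon i ((hq i).associated_of_dvd hπ hi).symm
  have h2 : ∀ i, ¬ π ∣ q i := fun i hi => hcon i (hπ.associated_of_dvd (hq i) hi)
  have h3 : ∀ m ∈ MM q, ¬ π ∣ m := by
    intro m hm
    induction hm using Submonoid.closure_induction with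
    | mem x hx =>
      rcases hx with hx | ⟨i, rfl⟩
      · exact fun h => hπ.not_unit (isUnit_of_dvd_unit h hx)
      · exact h2 i
    | one => exact fun h => hπ.not_unit (isUnit_of_dvd_one h)
    | mul x y _ _ hx hy =>
      intro h
      rcases hπ.dvd_or_dvd h with h | h
      · exact hx h
      · exact hy h
  exact h3 π h (dvd_refl π)

section main

variable {q : J → R} (hq : ∀ i, Prime (q i)) {ι : B →+* R} (hι : Function.Injective ι)
  (hfrac : ∀ ρ : R, ∃ t P : B, ι t ∈ MM q ∧ ι t * ρ = ι P)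

include hq hι hfrac

/-- the key: `ι Q = π * m` with `Q` prime, no `q i` dividing `π`, `π` not in `MM q` -/
lemma key_dvd {Q : B} (hQ : Prime Q) {π m : R} (hm : m ∈ MM q) (hQm : ι Q = π * m)
    (hπM : π ∉ MM q) (hπq : ∀ i, ¬ q i ∣ π) {P : B} (h : π ∣ ι P) : Q ∣ P := by
  obtain ⟨z, hz⟩ := h
  obtain ⟨t1, P1, ht1, h1⟩ := hfrac z
  obtain ⟨t2, P2, ht2, h2⟩ := hfrac m
  have hQM : ι Q ∉ MM q := fun hh => hπM (MM_of_dvd hq hh ⟨m, hQm⟩)
  have hQt : ∀ t : B, ι t ∈ MM q → ¬ Q ∣ t := fun t ht hd =>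
    hQM (MM_of_dvd hq ht (map_dvd ι hd))
  have e1 : ι (t1 * P2 * P) = ι (t2 * Q * P1) := by
    rw [map_mul, map_mul, map_mul, map_mul, ← h2, hz, ← h1, hQm]
    ring
  have e2 := hι e1
  have hd : Q ∣ t1 * P2 * P := ⟨t2 * P1, by rw [e2]; ring⟩
  rcases hQ.dvd_or_dvd hd with hd | hd
  · exfalso
    rcases hQ.dvd_or_dvd hd with hd | hd
    · exact hQt _ ht1 hd
    · refine hQt P2 ?_ hd
      rw [← h2]
      exact (MM q).mul_mem ht2 hm
  · exact hd

lemma key_prime {Q : B} (hQ : Prime Q) {π m : R} (hm : m ∈ MM q) (hQm : ι Q = π * m)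
    (hπM : π ∉ MM q) (hπq : ∀ i, ¬ q i ∣ π) : Prime π := by
  refine ⟨?_, fun hu => hπM (unit_mem_MM hu), fun x y hxy => ?_⟩
  · rintro rfl
    rw [zero_mul] at hQm
    exact hQ.ne_zero (hι (by rw [hQm, map_zero]))
  · obtain ⟨t1, P1, ht1, h1⟩ := hfrac x
    obtain ⟨t2, P2, ht2, h2⟩ := hfrac y
    have hd : π ∣ ι (P1 * P2) := by
      rw [map_mul, ← h1, ← h2]
      have : ι t1 * x * (ι t2 * y) = x * y * (ι t1 * ι t2) := by ring
      rw [this]
      exact hxy.mul_right _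
    have hπQ : π ∣ ι Q := ⟨m, hQm⟩
    rcases hQ.dvd_or_dvd (key_dvd hq hι hfrac hQ hm hQm hπM hπq hd) with hd | hd
    · left
      refine MM_cancel hq hπq ht1 x ?_
      rw [h1]
      exact hπQ.trans (map_dvd ι hd)
    · right
      refine MM_cancel hq hπq ht2 y ?_
      rw [h2]
      exact hπQ.trans (map_dvd ι hd)

/-- a nonzero prime ideal contains some `q i` or a prime coming from `B` -/
lemma prime_ideal_cases [IsNoetherianRing R] {𝔭 : Ideal R} (h𝔭 : 𝔭.IsPrime) (h0 : 𝔭 ≠ ⊥) :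
    (∃ i, q i ∈ 𝔭) ∨ ∃ (Q : B) (π m : R), Prime Q ∧ Prime π ∧ π ∈ 𝔭 ∧ m ∈ MM q ∧
      ι Q = π * m ∧ ∀ i, ¬ q i ∣ π := by
  by_cases hqp : ∃ i, q i ∈ 𝔭
  · exact Or.inl hqp
  · right
    push Not at hqp
    have hM𝔭 : ∀ m ∈ MM q, m ∉ 𝔭 := by
      intro m hm
      induction hm using Submonoid.closure_induction with
      | mem x hx =>
        rcases hx with hx | ⟨i, rfl⟩
        · exact fun h => h𝔭.ne_top (Ideal.eq_top_of_isUnit_mem _ h hx)
        · exact hqp i
      | one => exact fun h => h𝔭.ne_top ((Ideal.eq_top_iff_one _).2 h)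
      | mul x y _ _ hx hy =>
        intro h
        rcases h𝔭.mem_or_mem h with h | h
        · exact hx h
        · exact hy h
    obtain ⟨ρ, hρ, hρ0⟩ := Submodule.exists_mem_ne_zero_of_ne_bot h0
    obtain ⟨t, P, ht, hP⟩ := hfrac ρ
    have hP𝔭 : ι P ∈ 𝔭 := by
      rw [← hP]
      exact 𝔭.mul_mem_left _ hρ
    have hP0 : P ≠ 0 := by
      rintro rfl
      rw [map_zero] at hP
      exact (mul_ne_zero (MM_ne_zero hq ht) hρ0) hP
    -- a prime factor of `P` in `𝔭`
    have hQ : ∃ Q : B, Prime Q ∧ ι Q ∈ 𝔭 := by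
      have hgen : ∀ P : B, P ≠ 0 → ι P ∈ 𝔭 → ∃ Q : B, Prime Q ∧ ι Q ∈ 𝔭 := by
        intro P
        induction P using UniqueFactorizationMonoid.induction_on_prime with
        | h₁ => exact fun h => absurd rfl h
        | h₂ x hx => exact fun _ h => absurd (Ideal.eq_top_of_isUnit_mem _ h (hx.map ι)) h𝔭.ne_top
        | h₃ a p ha hp ih =>
          intro _ h
          rw [map_mul] at h
          rcases h𝔭.mem_or_mem h with h | h
          · exact ⟨p, hp, h⟩
          · exact ih ha h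
      exact hgen P hP0 hP𝔭
    obtain ⟨Q, hQ, hQ𝔭⟩ := hQ
    -- remove the `q i`
    obtain ⟨π, ⟨m, hm, hQm⟩, hmin⟩ := (wellFounded_dvdNotUnit (α := R)).has_min
      {x | ∃ m ∈ MM q, ι Q = x * m} ⟨ι Q, 1, (MM q).one_mem, by rw [mul_one]⟩
    have hιQ0 : ι Q ≠ 0 := fun h => hQ.ne_zero (hι (by rw [h, map_zero]))
    have hπ0 : π ≠ 0 := by
      rintro rfl
      rw [zero_mul] at hQm
      exact hιQ0 hQm
    have hπq : ∀ i, ¬ q i ∣ π := by
      rintro i ⟨w, hw⟩
      refine hmin w ⟨q i * m, (MM q).mul_mem (q_mem_MM i) hm, ?_⟩ ?_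
      · rw [hQm, hw]
        ring
      · refine ⟨?_, q i, (hq i).not_unit, ?_⟩
        · rintro rfl
          rw [mul_zero] at hw
          exact hπ0 hw
        · rw [hw, mul_comm]
    have hπ𝔭 : π ∈ 𝔭 := by
      rw [hQm] at hQ𝔭
      rcases h𝔭.mem_or_mem hQ𝔭 with h | h
      · exact h
      · exact absurd h (hM𝔭 m hm)
    have hπM : π ∉ MM q := fun h => hM𝔭 π h hπ𝔭
    exact ⟨Q, π, m, hQ, key_prime hq hι hfrac hQ hm hQm hπM hπq, hπ𝔭, hm, hQm, hπq⟩

theorem nag_ufd [IsNoetherianRing R] : UniqueFactorizationMonoid R := by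
  rw [UniqueFactorizationMonoid.iff_exists_prime_mem_of_isPrime]
  intro 𝔭 h0 h𝔭
  rcases prime_ideal_cases hq hι hfrac h𝔭 h0 with ⟨i, hi⟩ | ⟨Q, π, m, -, hπ, hπ𝔭, -⟩
  · exact ⟨q i, hi, hq i⟩
  · exact ⟨π, hπ𝔭, hπ⟩

/-- primes of `R`: associated to some `q i` or coming from `B` -/
theorem nag_prime [IsNoetherianRing R] {π : R} (hπ : Prime π) :
    (∃ i, Associated π (q i)) ∨ ((∀ i, ¬ Associated π (q i)) ∧ ∃ (Q : B) (m : R), Prime Q ∧
      m ∈ MM q ∧ ι Q = π * m ∧ ∀ P : B, π ∣ ι P → Q ∣ P) := by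
  by_cases hA : ∃ i, Associated π (q i)
  · exact Or.inl hA
  · right
    refine ⟨not_exists.1 hA, ?_⟩
    have h1 : (Ideal.span {π}).IsPrime := (Ideal.span_singleton_prime hπ.ne_zero).2 hπ
    have h2 : Ideal.span {π} ≠ ⊥ := by
      rw [Ne, Ideal.span_singleton_eq_bot]
      exact hπ.ne_zero
    rcases prime_ideal_cases hq hι hfrac h1 h2 with ⟨i, hi⟩ | ⟨Q, π', m, hQ, hπ', hmem, hm, hQm, -⟩
    · exact absurd ⟨i, hπ.associated_of_dvd (hq i) (Ideal.mem_span_singleton.1 hi)⟩ hA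
    · obtain ⟨u, hu⟩ := hπ.associated_of_dvd hπ' (Ideal.mem_span_singleton.1 hmem)
      have hm' : (u : R) * m ∈ MM q := (MM q).mul_mem (unit_mem_MM u.isUnit) hm
      have hQm' : ι Q = π * ((u : R) * m) := by rw [hQm, ← hu, mul_assoc]
      refine ⟨Q, u * m, hQ, hm', hQm', fun P hP => ?_⟩
      refine key_dvd hq hι hfrac hQ hm' hQm' (fun h => hA (prime_mem_MM hq hπ h)) ?_ hP
      intro i hi
      exact hA ⟨i, ((hq i).associated_of_dvd hπ hi).symm⟩

end main

end Pool.Agent.K1Z
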