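import Mathlib
import Pool.Agent.K1Z.Dom
import Pool.Agent.K1Z.Nag
import Pool.Agent.K1Z.HomFac

/-!
# `R = Z[x]/(f_*)` is factorial and its primes come from `κ[x, s, s']`
-/

set_option autoImplicit false
set_option linter.all false

noncomputable section

namespace Pool.Agent.K1Z

open Module MvPolynomial Pool.Agent.CB Pool.Agent.CB27

lemma mk_dvd_mk {S : Type*} [CommRing S] {I : Ideal S} {x a : S} :
    Ideal.Quotient.mk I x ∣ Ideal.Quotient.mk I a ↔ a ∈ I ⊔ Ideal.span {x} := by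
  constructor
  · rintro ⟨y, hy⟩
    obtain ⟨y, rfl⟩ := Ideal.Quotient.mk_surjective y
    rw [← map_mul, Ideal.Quotient.eq] at hy
    have : a = (a - x * y) + x * y := by ring
    rw [this]
    exact Submodule.add_mem_sup hy (Ideal.mul_mem_right _ _ (Ideal.mem_span_singleton_self _))
  · intro h
    obtain ⟨u, hu, v, hv, rfl⟩ := Submodule.mem_sup.1 h
    obtain ⟨w, rfl⟩ := Ideal.mem_span_singleton'.1 hv
    rw [map_add, Ideal.Quotient.eq_zero_iff_mem.2 hu, zero_add, map_mul]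
    exact dvd_mul_left _ _

lemma prime_mk {S : Type*} [CommRing S] {I : Ideal S} {x : S} (hx : x ∉ I)
    (h : (I ⊔ Ideal.span {x}).IsPrime) : Prime (Ideal.Quotient.mk I x) := by
  refine ⟨fun h0 => hx (Ideal.Quotient.eq_zero_iff_mem.1 h0), fun hu => ?_, fun a b hab => ?_⟩
  · apply h.ne_top
    rw [Ideal.eq_top_iff_one, ← mk_dvd_mk]
    exact hu.dvd
  · obtain ⟨a, rfl⟩ := Ideal.Quotient.mk_surjective a
    obtain ⟨b, rfl⟩ := Ideal.Quotient.mk_surjective b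
    rw [← map_mul, mk_dvd_mk] at hab
    rw [mk_dvd_mk, mk_dvd_mk]
    exact h.mem_or_mem hab

/-- `κ[x, s, s']` -/
abbrev BB (κ : Type*) [Field κ] (n r : ℕ) := MvPolynomial (Fin n ⊕ (Fin r × Fin 2)) κ

/-- inclusion of variables -/
def embB (n r : ℕ) : Fin n ⊕ (Fin r × Fin 2) → Fin n ⊕ Par r
  | Sum.inl a => Sum.inl a
  | Sum.inr q => Sum.inr (q.1, q.2.castSucc)

lemma embB_injective (n r : ℕ) : Function.Injective (embB n r) := by
  rintro (a | q) (b | q') h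
  · simpa [embB] using h
  · simp [embB] at h
  · simp [embB] at h
  · simp only [embB, Sum.inr.injEq, Prod.mk.injEq, Fin.castSucc_inj] at h
    rw [Sum.inr.injEq]
    exact Prod.ext h.1 h.2

section Z

variable {κ : Type*} [Field κ] {n r : ℕ}

/-- inclusion `κ[x, s, s'] → κ[x, s, s', τ]` -/
def inB : BB κ n r →ₐ[κ] CC κ n r := rename (embB n r)

lemma embB_notMem (v : Fin n ⊕ (Fin r × Fin 2)) : embB n r v ∉ Pen.W1 n r := by
  rcases v with a | q
  · exact Pen.inl_notMem_W1 a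
  · exact Pen.inr_notMem_W1 q.1 (by
      intro h
      have := congrArg Fin.val h
      simp at this
      omega)

lemma inB_mem (u : BB κ n r) : inB u ∈ elimB (κ := κ) (Pen.W1 n r) :=
  rename_mem_elimB _ embB_notMem u

lemma exists_inB {u : CC κ n r} (hu : u ∈ elimB (κ := κ) (Pen.W1 n r)) :
    ∃ v : BB κ n r, inB v = u := by
  rw [elimB, supported_eq_adjoin_X] at hu
  induction hu using Algebra.adjoin_induction with
  | mem x hx =>
    obtain ⟨v, hv, rfl⟩ := hx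
    rcases v with a | ⟨i, k⟩
    · exact ⟨X (Sum.inl a), by rw [inB, rename_X]; rfl⟩
    · have hk : k ≠ 2 := by
        rintro rfl
        exact hv (Pen.mem_W1.2 ⟨i, rfl⟩)
      obtain ⟨k', hk'⟩ : ∃ k' : Fin 2, k'.castSucc = k := by
        fin_cases k
        · exact ⟨0, rfl⟩
        · exact ⟨1, rfl⟩
        · exact absurd rfl hk
      refine ⟨X (Sum.inr (i, k')), ?_⟩
      rw [inB, rename_X, embB, hk']
  | algebraMap c => exact ⟨algebraMap κ _ c, by rw [AlgHom.commutes]⟩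
  | add x y _ _ hx hy =>
    obtain ⟨a, rfl⟩ := hx
    obtain ⟨b, rfl⟩ := hy
    exact ⟨a + b, by rw [map_add]⟩
  | mul x y _ _ hx hy =>
    obtain ⟨a, rfl⟩ := hx
    obtain ⟨b, rfl⟩ := hy
    exact ⟨a * b, by rw [map_mul]⟩

lemma inB_injective : Function.Injective (inB : BB κ n r →ₐ[κ] CC κ n r) :=
  rename_injective _ (embB_injective n r)

variable (Z : Type*) [Field Z] [Algebra κ Z] [Algebra (Lam κ r) Z]

namespace Pen

variable (P : Pen κ n r)

/-- the ring `R` -/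
abbrev RR := MvPolynomial (Fin n) Z ⧸ P.IZ Z

/-- the projection -/
def mkR : CC κ n r →+* P.RR Z :=
  (Ideal.Quotient.mk (P.IZ Z)).comp (evZ Z : CC κ n r →ₐ[κ] MvPolynomial (Fin n) Z).toRingHom

lemma mkR_apply (c : CC κ n r) : P.mkR Z c = Ideal.Quotient.mk (P.IZ Z) (evZ Z c) := rfl

/-- the map from `κ[x, s, s']` -/
def iotaB : BB κ n r →+* P.RR Z := (P.mkR Z).comp (inB : BB κ n r →ₐ[κ] CC κ n r).toRingHom

lemma iotaB_apply (u : BB κ n r) : P.iotaB Z u = P.mkR Z (inB u) := rfl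

/-- the primes `f1_i` -/
def qq (i : Fin r) : P.RR Z := P.mkR Z (P.f1 i)

/-- product of the `f1_i` -/
def bC : CC κ n r := ∏ i, P.f1 i

lemma prod_W1 : ∏ w ∈ W1 n r, P.β1 w = P.bC := by
  rw [W1, Finset.prod_image]
  · rfl
  · intro a _ b _ h
    simpa using h

lemma bC_mem : P.bC ∈ elimB (κ := κ) (W1 n r) := Subalgebra.prod_mem _ fun i _ => P.f1_mem i

variable [IsScalarTower κ (Lam κ r) Z] [IsFractionRing (Lam κ r) Z]
variable {Z} {P}

lemma Reg.isDomain (h : P.Reg Z) : IsDomain (P.RR Z) :=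
  (Ideal.Quotient.isDomain_iff_prime _).2 (P.IZ_isPrime h)

lemma Reg.notMem_f1 (h : P.Reg Z) (i : Fin r) : P.f1Z Z i ∉ P.IZ Z := by
  intro hm
  exact one_notMem_IL P.okf_FL (h.nzd_f1 i 1 (by rw [mul_one]; exact hm))

lemma Reg.prime_qq (h : P.Reg Z) (i : Fin r) : Prime (P.qq Z i) := by
  refine prime_mk (h.notMem_f1 i) ?_
  have h1 := P.dom2 h i
  rw [IL_cons] at h1
  exact h1

lemma Reg.iotaB_injective (h : P.Reg Z) : Function.Injective (P.iotaB Z) := by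
  rw [injective_iff_map_eq_zero]
  intro u hu
  have h1 : evZ Z (inB u) ∈ P.IZ Z := Ideal.Quotient.eq_zero_iff_mem.1 hu
  have h2 := P.B_inj h (inB_mem u) h1
  exact inB_injective (by rw [h2, map_zero])

lemma mkR_bC_mem : P.mkR Z P.bC ∈ MM (P.qq Z) := by
  rw [bC, map_prod]
  exact Submonoid.prod_mem _ fun i _ => Submonoid.subset_closure (Or.inr ⟨i, rfl⟩)

/-- reduction modulo the `ff i` to polynomials without `τ` -/
lemma exists_red (c : CC κ n r) :
    ∃ (M : ℕ) (u : BB κ n r), P.mkR Z P.bC ^ M * P.mkR Z c = P.iotaB Z u := by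
  have hα : ∀ w ∈ W1 n r, P.α1 w ∈ elimB (κ := κ) (W1 n r) := by
    intro w hw
    obtain ⟨i, rfl⟩ := mem_W1.1 hw
    exact P.f0_mem i
  have hβ : ∀ w ∈ W1 n r, P.β1 w ∈ elimB (κ := κ) (W1 n r) := by
    intro w hw
    obtain ⟨i, rfl⟩ := mem_W1.1 hw
    exact P.f1_mem i
  obtain ⟨M, u, hu, h⟩ := elim_red hα hβ c
  obtain ⟨v, rfl⟩ := exists_inB hu
  refine ⟨M, v, ?_⟩
  rw [P.prod_W1, P.elimI1] at h
  have h1 := Ideal.mem_map_of_mem (evZ Z : CC κ n r →ₐ[κ] MvPolynomial (Fin n) Z) h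
  rw [P.map_span_ff] at h1
  have h2 : P.mkR Z (P.bC ^ M * c - inB v) = 0 := Ideal.Quotient.eq_zero_iff_mem.2 h1
  rw [map_sub, map_mul, map_pow, sub_eq_zero] at h2
  exact h2

lemma unit_lam {l : Lam κ r} (hl : l ≠ 0) : IsUnit (P.mkR Z (lamC n l)) :=
  (evZ_lamC_unit (n := n) Z hl).map (Ideal.Quotient.mk (P.IZ Z))

lemma Reg.frac (h : P.Reg Z) (ρ : P.RR Z) :
    ∃ t u : BB κ n r, P.iotaB Z t ∈ MM (P.qq Z) ∧ P.iotaB Z t * ρ = P.iotaB Z u := by
  obtain ⟨s, rfl⟩ := Ideal.Quotient.mk_surjective ρ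
  obtain ⟨l, hl, c, e⟩ := exists_den (κ := κ) (r := r) Z s
  obtain ⟨M, u, hu⟩ := exists_red (P := P) (Z := Z) c
  obtain ⟨M', u', hu'⟩ := exists_red (P := P) (Z := Z) (lamC n l)
  obtain ⟨b, hb⟩ := exists_inB P.bC_mem
  have hbb : P.iotaB Z b = P.mkR Z P.bC := by rw [iotaB_apply, hb]
  refine ⟨b ^ M * u', b ^ M' * u, ?_, ?_⟩
  · rw [map_mul, ← hu', map_pow, hbb]
    exact Submonoid.mul_mem _ (Submonoid.pow_mem _ mkR_bC_mem _)
      (Submonoid.mul_mem _ (Submonoid.pow_mem _ mkR_bC_mem _) (Submonoid.subset_closure (Or.inl (unit_lam hl))))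
  · have e' : P.mkR Z (lamC n l) * Ideal.Quotient.mk (P.IZ Z) s = P.mkR Z c := by
      rw [mkR_apply, mkR_apply, ← e, map_mul]
    rw [map_mul, map_mul, ← hu, ← hu', ← e', map_pow, map_pow, hbb]
    ring

theorem Reg.ufd (h : P.Reg Z) [IsDomain (P.RR Z)] : UniqueFactorizationMonoid (P.RR Z) :=
  nag_ufd (B := BB κ n r) h.prime_qq h.iotaB_injective h.frac

theorem Reg.prime_cases (h : P.Reg Z) [IsDomain (P.RR Z)] {π : P.RR Z} (hπ : Prime π) :
    (∃ i, Associated π (P.qq Z i)) ∨ ((∀ i, ¬ Associated π (P.qq Z i)) ∧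
      ∃ (Q : BB κ n r) (m : P.RR Z), Prime Q ∧ m ∈ MM (P.qq Z) ∧ P.iotaB Z Q = π * m ∧
        ∀ u : BB κ n r, π ∣ P.iotaB Z u → Q ∣ u) :=
  nag_prime h.prime_qq h.iotaB_injective h.frac hπ

end Pen

end Z

end Pool.Agent.K1Z
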