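import Mathlib
import Pool.Agent.K1Z.Ufd
import Pool.Agent.CB27.Phi

/-!
# Derivations of `κ[x, s, s', τ]` killing all `f_i`, and stability of the annihilator of `G`
-/

set_option autoImplicit false
set_option linter.all false

noncomputable section

namespace Pool.Agent.K1Z

open Module MvPolynomial Pool.Agent.CB Pool.Agent.CB27

variable {κ : Type*} [Field κ] {n r : ℕ}

/-! ### partial derivatives and evaluation -/

lemma pderiv_inr_rename_inl (q : Par r) (u : MvPolynomial (Fin n) κ) :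
    pderiv (Sum.inr q) (rename Sum.inl u : CC κ n r) = 0 := by
  classical
  refine pderiv_eq_zero_of_notMem_vars ?_
  intro h
  obtain ⟨q, -, hq⟩ := Finset.mem_image.1 (vars_rename Sum.inl u h)
  exact Sum.inl_ne_inr hq

lemma pderiv_tau_inB (i : Fin r) (u : BB κ n r) :
    pderiv (Sum.inr (i, 2)) (inB u) = 0 := by
  classical
  refine pderiv_eq_zero_of_notMem_vars ?_
  intro h
  obtain ⟨q, -, hq⟩ := Finset.mem_image.1 (vars_rename (embB n r) u h)
  exact embB_notMem q (hq ▸ Pen.mem_W1.2 ⟨i, rfl⟩)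

lemma pderiv_embB_inB (v : Fin n ⊕ (Fin r × Fin 2)) (u : BB κ n r) :
    pderiv (embB n r v) (inB u) = inB (pderiv v u) :=
  pderiv_rename (embB_injective n r) v u

section Z

variable {Z : Type*} [Field Z] [Algebra κ Z] [Algebra (Lam κ r) Z]

lemma evZ_pderiv_inl (a : Fin n) (c : CC κ n r) :
    evZ Z (pderiv (Sum.inl a) c) = pderiv a (evZ Z c) := by
  classical
  induction c using MvPolynomial.induction_on with
  | C x =>
    rw [pderiv_C, map_zero, ← algebraMap_eq, AlgHom.commutes,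
      IsScalarTower.algebraMap_apply κ Z (MvPolynomial (Fin n) Z), algebraMap_eq, pderiv_C]
  | add p q hp hq => rw [map_add, map_add, map_add, map_add, hp, hq]
  | mul_X p v hp =>
    rw [pderiv_mul, map_add, map_mul, map_mul, map_mul, pderiv_mul, hp]
    congr 2
    rcases v with b | q
    · rw [evZ, evA_inl, pderiv_X, pderiv_X]
      by_cases hab : b = a
      · subst hab
        simp
      · rw [Pi.single_eq_of_ne hab, Pi.single_eq_of_ne (by simpa using hab), map_zero]
    · rw [evZ, evA_inr, pderiv_C, pderiv_X_of_ne (by simp), map_zero]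

variable [IsScalarTower κ (Lam κ r) Z]

lemma coeff_evZ (β : Fin n →₀ ℕ) (c : CC κ n r) :
    coeff β (evZ Z c) = algebraMap (Lam κ r) Z (coeff β (evL c)) := by
  rw [evZ_eq_map, coeff_map]

lemma coeff_evL_pderiv_inr (q : Par r) (c : CC κ n r) (β : Fin n →₀ ℕ) :
    coeff β (evL (pderiv (Sum.inr q) c)) = pderiv q (coeff β (evL c)) := by
  classical
  induction c using MvPolynomial.induction_on generalizing β with
  | C x =>
    rw [pderiv_C, map_zero, coeff_zero, ← algebraMap_eq, AlgHom.commutes,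
      IsScalarTower.algebraMap_apply κ (Lam κ r) (MvPolynomial (Fin n) (Lam κ r)),
      algebraMap_eq, algebraMap_eq, coeff_C]
    split_ifs
    · rw [pderiv_C]
    · rw [map_zero]
  | add p q hp hq => rw [map_add, map_add, map_add, coeff_add, coeff_add, map_add, hp, hq]
  | mul_X p v hp =>
    rw [pderiv_mul, map_add, map_mul, map_mul, map_mul]
    rcases v with b | q'
    · rw [pderiv_X_of_ne (by simp), map_zero, mul_zero, add_zero, evL, evA_inl, coeff_mul_X',
        coeff_mul_X']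
      split_ifs
      · exact hp _
      · rw [map_zero]
    · rw [evL, evA_inr, coeff_add, mul_comm _ (C (X q')), coeff_C_mul, mul_comm _ (C (X q')),
        coeff_C_mul, pderiv_mul]
      have h1 := hp β
      rw [evL] at h1
      rw [h1]
      rw [pderiv_X, pderiv_X]
      by_cases hq : q' = q
      · subst hq
        simp only [Pi.single_eq_same, map_one, mul_one, one_mul]
        ring
      · rw [Pi.single_eq_of_ne hq, Pi.single_eq_of_ne (by simpa using hq), map_zero, mul_zero,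
          coeff_zero, zero_mul]
        ring

variable [IsFractionRing (Lam κ r) Z]

lemma evZ_pderiv_inr_hom (q : Par r) {c : CC κ n r} {j : ℕ} (hc : (evZ Z c).IsHomogeneous j) :
    (evZ Z (pderiv (Sum.inr q) c)).IsHomogeneous j := by
  intro β hβ
  apply hc
  rw [coeff_evZ, coeff_evL_pderiv_inr] at hβ
  rw [coeff_evZ]
  intro h
  rw [FaithfulSMul.algebraMap_eq_zero_iff] at h
  rw [h, map_zero, map_zero] at hβ
  exact hβ rfl

lemma evZ_pderiv_inl_hom (a : Fin n) {c : CC κ n r} {j : ℕ} (hc : (evZ Z c).IsHomogeneous j) :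
    (evZ Z (pderiv (Sum.inl a) c)).IsHomogeneous (j - 1) := by
  rw [evZ_pderiv_inl]
  exact hc.pderiv

/-! ### integration by parts -/

/-- derivations compatible with integration by parts -/
def Good (p : ℕ) (φ : MvPolynomial (Fin n) κ →ₗ[κ] κ) (D : Derivation κ (CC κ n r) (CC κ n r)) :
    Prop := ∀ v : CC κ n r, (∀ s, PhiC p φ (v * s) = 0) → PhiC p φ (D v) = 0

lemma good_smul_pderiv {p : ℕ} [CharP κ p] [Fact p.Prime] (φ : MvPolynomial (Fin n) κ →ₗ[κ] κ)
    (u : CC κ n r) (y : Fin n ⊕ Par r) : Good p φ (u • pderiv y) := by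
  intro v hv
  have h1 : (u • (pderiv y : Derivation κ (CC κ n r) (CC κ n r))) v =
      pderiv y (u * v) - pderiv y u * v := by
    rw [Derivation.smul_apply, pderiv_mul, smul_eq_mul]
    ring
  have h2 : PhiC p φ (pderiv y u * v) = 0 := by
    rw [mul_comm]
    exact hv _
  rw [h1, map_sub, h2, sub_zero]
  rcases y with a | q
  · exact PhiC_pderiv_inl p φ a _
  · rw [PhiC_pderiv_inr]
    have h3 : PhiC p φ (u * v) = 0 := by
      rw [mul_comm]
      exact hv _
    rw [h3, map_zero]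

lemma Good.sub {p : ℕ} {φ : MvPolynomial (Fin n) κ →ₗ[κ] κ}
    {D D' : Derivation κ (CC κ n r) (CC κ n r)} (h : Good p φ D) (h' : Good p φ D') :
    Good p φ (D - D') := by
  intro v hv
  rw [Derivation.sub_apply, map_sub, h v hv, h' v hv, sub_zero]

lemma Good.sum {p : ℕ} {φ : MvPolynomial (Fin n) κ →ₗ[κ] κ} {T : Type*} (s : Finset T)
    {D : T → Derivation κ (CC κ n r) (CC κ n r)} (h : ∀ t ∈ s, Good p φ (D t)) :
    Good p φ (∑ t ∈ s, D t) := by
  classical
  induction s using Finset.induction_on with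
  | empty =>
    intro v _
    rw [Finset.sum_empty, Derivation.zero_apply, map_zero]
  | insert t s ht ih =>
    intro v hv
    rw [Finset.sum_insert ht, Derivation.add_apply, map_add,
      h t (Finset.mem_insert_self _ _) v hv,
      ih (fun t' ht' => h t' (Finset.mem_insert_of_mem ht')) v hv, add_zero]

namespace Pen

variable (P : Pen κ n r)

lemma mem_Ann_GG_iff (p : ℕ) (φ : MvPolynomial (Fin n) κ →ₗ[κ] κ) (c : CC κ n r) :
    evZ Z c ∈ Ann (P.GG Z p φ) ↔ ∀ s : CC κ n r, PhiC p φ (P.HH p * c * s) = 0 := by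
  rw [GG, Ann_act, mem_col, mem_Ann']
  have hH : (∏ i, P.fZ Z i ^ (p - 1)) = evZ Z (P.HH p) := by
    rw [HH, map_prod]
    refine Finset.prod_congr rfl fun i _ => ?_
    rw [map_pow]
    rfl
  rw [hH]
  constructor
  · intro h s
    have h1 := h (evZ Z s)
    rw [← map_mul, ← map_mul, frob_evZ] at h1
    exact (FaithfulSMul.algebraMap_eq_zero_iff _ _).1 h1
  · intro h f
    obtain ⟨l, hl, s, e⟩ := exists_den (κ := κ) (r := r) Z f
    have h1 : frob p Z φ (evZ Z (P.HH p * c * s)) = 0 := by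
      rw [frob_evZ, h s, map_zero]
    rw [map_mul (evZ Z), map_mul (evZ Z), ← e, evZ_lamC] at h1
    have h2 : evZ Z (P.HH p) * evZ Z c * (C (algebraMap (Lam κ r) Z l) * f) =
        C (algebraMap (Lam κ r) Z l) * (evZ Z (P.HH p) * evZ Z c * f) := by ring
    rw [h2, frob_C_mul] at h1
    refine (mul_eq_zero.1 h1).resolve_left ?_
    rwa [FaithfulSMul.algebraMap_eq_zero_iff]

lemma D_HH {D : Derivation κ (CC κ n r) (CC κ n r)} (hD : ∀ i, D (P.ff i) = 0) (p : ℕ) :
    D (P.HH p) = 0 := by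
  have h1 : ∀ s : Finset (Fin r), D (∏ i ∈ s, P.ff i ^ (p - 1)) = 0 := by
    intro s
    induction s using Finset.induction_on with
    | empty => rw [Finset.prod_empty, Derivation.map_one_eq_zero]
    | insert i s hi ih =>
      rw [Finset.prod_insert hi, Derivation.leibniz, ih, Derivation.leibniz_pow, hD]
      simp
  exact h1 _

/-- stability of the annihilator of `G` -/
lemma stab {p : ℕ} {φ : MvPolynomial (Fin n) κ →ₗ[κ] κ} {D : Derivation κ (CC κ n r) (CC κ n r)}
    (hgood : Good p φ D) (hD : ∀ i, D (P.ff i) = 0) {c : CC κ n r}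
    (hc : evZ Z c ∈ Ann (P.GG Z p φ)) : evZ Z (D c) ∈ Ann (P.GG Z p φ) := by
  rw [mem_Ann_GG_iff] at hc ⊢
  intro s
  have h1 : P.HH p * D c * s = D (P.HH p * c * s) - P.HH p * c * D s := by
    rw [Derivation.leibniz, Derivation.leibniz, P.D_HH hD]
    simp only [smul_eq_mul]
    ring
  rw [h1, map_sub, hc, sub_zero]
  refine hgood _ fun s' => ?_
  rw [mul_assoc]
  exact hc _

/-- stability of the ideal `(f_*)` -/
lemma stab_IZ {D : Derivation κ (CC κ n r) (CC κ n r)} (hD : ∀ i, D (P.ff i) = 0) {c : CC κ n r}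
    (hc : evZ Z c ∈ P.IZ Z) : evZ Z (D c) ∈ P.IZ Z := by
  rw [← P.map_span_ff] at hc
  obtain ⟨l, hl, hlc⟩ := den_mem Z _ hc
  obtain ⟨l, hl0, rfl⟩ := mem_LamS.1 hl
  have h1 : ∀ c ∈ Ideal.span (Set.range P.ff), D c ∈ Ideal.span (Set.range P.ff) := by
    intro c hc
    induction hc using Submodule.span_induction with
    | mem x hx =>
      obtain ⟨i, rfl⟩ := hx
      rw [hD]
      exact Ideal.zero_mem _
    | zero =>
      rw [map_zero]
      exact Ideal.zero_mem _
    | add a b _ _ ha hb =>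
      rw [map_add]
      exact Ideal.add_mem _ ha hb
    | smul a x hx hx' =>
      rw [smul_eq_mul, Derivation.leibniz]
      exact Ideal.add_mem _ (Ideal.mul_mem_left _ _ hx') (Ideal.mul_mem_right _ _ hx)
  have h2 := h1 _ hlc
  have h3 : lamC n l * lamC n l * D c ∈ Ideal.span (Set.range P.ff) := by
    have : lamC n l * lamC n l * D c = lamC n l * D (lamC n l * c) -
        D (lamC n l) * (lamC n l * c) := by
      rw [Derivation.leibniz]
      simp only [smul_eq_mul]
      ring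
    rw [this]
    exact Ideal.sub_mem _ (Ideal.mul_mem_left _ _ h2) (Ideal.mul_mem_left _ _ hlc)
  have h4 := Ideal.mem_map_of_mem (evZ Z : CC κ n r →ₐ[κ] MvPolynomial (Fin n) Z) h3
  rw [P.map_span_ff, map_mul, map_mul] at h4
  obtain ⟨u, hu⟩ := (evZ_lamC_unit (n := n) Z hl0)
  rw [← hu] at h4
  have h5 := Ideal.mul_mem_left (P.IZ Z) (↑u⁻¹ * ↑u⁻¹ : MvPolynomial (Fin n) Z) h4
  have h6 : (↑u⁻¹ * ↑u⁻¹ : MvPolynomial (Fin n) Z) * (↑u * ↑u * evZ Z (D c)) = evZ Z (D c) := by
    have h7 : (↑u⁻¹ : MvPolynomial (Fin n) Z) * ↑u = 1 := Units.inv_mul u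
    linear_combination (↑u⁻¹ * ↑u * evZ Z (D c) + evZ Z (D c)) * h7
  rwa [h6] at h5

/-! ### the derivations -/

/-- `D_y = b ∂_y - ∑ (b / f1_i) (∂_y f_i) ∂_{τ_i}` -/
def DY (y : Fin n ⊕ Par r) : Derivation κ (CC κ n r) (CC κ n r) :=
  P.bC • pderiv y - ∑ i, ((∏ l ∈ Finset.univ.erase i, P.f1 l) * pderiv y (P.ff i)) •
    pderiv (Sum.inr (i, 2))

/-- `D_(i) = τ_i b'_i ∂_{s_i} - b_i ∂_{s'_i}` -/
def DI (i : Fin r) : Derivation κ (CC κ n r) (CC κ n r) :=
  (X (Sum.inr (i, 2)) * rename Sum.inl (P.b1 i) : CC κ n r) • pderiv (Sum.inr (i, 0)) -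
    (rename Sum.inl (P.b0 i) : CC κ n r) • pderiv (Sum.inr (i, 1))

lemma good_DY {p : ℕ} [CharP κ p] [Fact p.Prime] (φ : MvPolynomial (Fin n) κ →ₗ[κ] κ)
    (y : Fin n ⊕ Par r) : Good p φ (P.DY y) :=
  Good.sub (good_smul_pderiv φ _ _) (Good.sum _ fun i _ => good_smul_pderiv φ _ _)

lemma good_DI {p : ℕ} [CharP κ p] [Fact p.Prime] (φ : MvPolynomial (Fin n) κ →ₗ[κ] κ)
    (i : Fin r) : Good p φ (P.DI i) :=
  Good.sub (good_smul_pderiv φ _ _) (good_smul_pderiv φ _ _)

lemma pderiv_tau_f0 (i j : Fin r) : pderiv (Sum.inr (i, 2)) (P.f0 j) = 0 := by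
  classical
  rw [f0, map_add, pderiv_mul, pderiv_inr_rename_inl, pderiv_inr_rename_inl,
    pderiv_X_of_ne (by simp)]
  ring

lemma pderiv_tau_f1 (i j : Fin r) : pderiv (Sum.inr (i, 2)) (P.f1 j) = 0 := by
  classical
  rw [f1, map_add, pderiv_mul, pderiv_inr_rename_inl, pderiv_inr_rename_inl,
    pderiv_X_of_ne (by simp)]
  ring

lemma pderiv_tau_ff (i j : Fin r) :
    pderiv (Sum.inr (i, 2)) (P.ff j) = if i = j then P.f1 j else 0 := by
  classical
  rw [ff, map_add, pderiv_mul, P.pderiv_tau_f0, P.pderiv_tau_f1]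
  split_ifs with h
  · subst h
    rw [pderiv_X_self]
    ring
  · rw [pderiv_X_of_ne (by
      simp only [ne_eq, Sum.inr.injEq, Prod.mk.injEq, and_true]
      exact fun h' => h h'.symm)]
    ring

lemma DY_apply (y : Fin n ⊕ Par r) (c : CC κ n r) : P.DY y c = P.bC * pderiv y c -
    ∑ i, (∏ l ∈ Finset.univ.erase i, P.f1 l) * pderiv y (P.ff i) *
      pderiv (Sum.inr (i, 2)) c := by
  rw [DY, Derivation.sub_apply, Derivation.smul_apply, smul_eq_mul]
  congr 1
  have h1 : ∀ s : Finset (Fin r), (∑ i ∈ s, ((∏ l ∈ Finset.univ.erase i, P.f1 l) *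
      pderiv y (P.ff i)) • (pderiv (Sum.inr (i, 2)) : Derivation κ (CC κ n r) (CC κ n r))) c =
      ∑ i ∈ s, (∏ l ∈ Finset.univ.erase i, P.f1 l) * pderiv y (P.ff i) *
        pderiv (Sum.inr (i, 2)) c := by
    intro s
    induction s using Finset.induction_on with
    | empty => rw [Finset.sum_empty, Finset.sum_empty, Derivation.zero_apply]
    | insert i s hi ih =>
      rw [Finset.sum_insert hi, Finset.sum_insert hi, Derivation.add_apply, ih,
        Derivation.smul_apply, smul_eq_mul]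
  exact h1 _

lemma DY_ff (y : Fin n ⊕ Par r) (j : Fin r) : P.DY y (P.ff j) = 0 := by
  rw [DY_apply, Finset.sum_eq_single j]
  · rw [pderiv_tau_ff, if_pos rfl, bC, ← Finset.mul_prod_erase Finset.univ _ (Finset.mem_univ j)]
    ring
  · intro i _ hij
    rw [pderiv_tau_ff, if_neg hij, mul_zero]
  · intro h
    exact absurd (Finset.mem_univ j) h

lemma DI_apply (i : Fin r) (c : CC κ n r) : P.DI i c =
    X (Sum.inr (i, 2)) * rename Sum.inl (P.b1 i) * pderiv (Sum.inr (i, 0)) c -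
      rename Sum.inl (P.b0 i) * pderiv (Sum.inr (i, 1)) c := by
  rw [DI, Derivation.sub_apply, Derivation.smul_apply, Derivation.smul_apply, smul_eq_mul,
    smul_eq_mul]

lemma DI_f1 (i : Fin r) :
    P.DI i (P.f1 i) = -(rename Sum.inl (P.b0 i) * rename Sum.inl (P.b1 i)) := by
  rw [DI_apply, f1]
  simp only [map_add, pderiv_mul, pderiv_inr_rename_inl, pderiv_X_self]
  rw [pderiv_X_of_ne (by simp)]
  ring

lemma DI_ff (i j : Fin r) : P.DI i (P.ff j) = 0 := by
  rw [DI_apply, ff, f0, f1]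
  simp only [map_add, pderiv_mul, pderiv_inr_rename_inl]
  have h0 : pderiv (Sum.inr (i, 0)) (X (Sum.inr (j, 1)) : CC κ n r) = 0 :=
    pderiv_X_of_ne (by simp)
  have h1 : pderiv (Sum.inr (i, 0)) (X (Sum.inr (j, 2)) : CC κ n r) = 0 :=
    pderiv_X_of_ne (by simp)
  have h2 : pderiv (Sum.inr (i, 1)) (X (Sum.inr (j, 0)) : CC κ n r) = 0 :=
    pderiv_X_of_ne (by simp)
  have h3 : pderiv (Sum.inr (i, 1)) (X (Sum.inr (j, 2)) : CC κ n r) = 0 :=
    pderiv_X_of_ne (by simp)
  rw [h0, h1, h2, h3]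
  by_cases hij : j = i
  · subst hij
    rw [pderiv_X_self, pderiv_X_self]
    ring
  · rw [pderiv_X_of_ne (by simpa using hij), pderiv_X_of_ne (by simpa using hij)]
    ring

lemma DY_inB (v : Fin n ⊕ (Fin r × Fin 2)) (u : BB κ n r) :
    P.DY (embB n r v) (inB u) = P.bC * inB (pderiv v u) := by
  rw [DY_apply, pderiv_embB_inB, Finset.sum_eq_zero, sub_zero]
  intro i _
  rw [pderiv_tau_inB, mul_zero]

/-! ### degrees -/

lemma bC_hom : (evZ Z P.bC).IsHomogeneous P.bb := by
  rw [bC, map_prod, bb]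
  exact IsHomogeneous.prod _ _ _ fun i _ => P.f1Z_hom i

lemma prod_erase_hom (i : Fin r) :
    (evZ Z (∏ l ∈ Finset.univ.erase i, P.f1 l)).IsHomogeneous (P.bb - P.d i) := by
  rw [map_prod]
  have h : P.bb - P.d i = ∑ l ∈ Finset.univ.erase i, P.d l := by
    rw [bb, ← Finset.add_sum_erase Finset.univ _ (Finset.mem_univ i), Nat.add_sub_cancel_left]
  rw [h]
  exact IsHomogeneous.prod _ _ _ fun l _ => P.f1Z_hom l

lemma d_le_bb (i : Fin r) : P.d i ≤ P.bb :=
  Finset.single_le_sum (f := P.d) (fun _ _ => Nat.zero_le _) (Finset.mem_univ i)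

lemma DY_hom (y : Fin n ⊕ Par r) {c : CC κ n r} {j : ℕ} (hj : 1 ≤ j)
    (hc : (evZ Z c).IsHomogeneous j) :
    ∃ j', j' ≤ j + P.bb ∧ (evZ Z (P.DY y c)).IsHomogeneous j' := by
  rcases y with a | q
  · refine ⟨P.bb + (j - 1), by omega, ?_⟩
    rw [DY_apply, map_sub, map_mul, map_sum]
    refine (P.bC_hom.mul (evZ_pderiv_inl_hom a hc)).sub ?_
    refine IsHomogeneous.sum _ _ _ fun i _ => ?_
    rw [map_mul, map_mul]
    have h1 := ((P.prod_erase_hom (Z := Z) i).mul
      (evZ_pderiv_inl_hom a (c := P.ff i) (P.fZ_hom i))).mul (evZ_pderiv_inr_hom (i, 2) hc)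
    have h2 : P.bb - P.d i + (P.d i - 1) + j = P.bb + (j - 1) := by
      have := P.hd i
      have := P.d_le_bb i
      omega
    rwa [h2] at h1
  · refine ⟨P.bb + j, by omega, ?_⟩
    rw [DY_apply, map_sub, map_mul, map_sum]
    refine (P.bC_hom.mul (evZ_pderiv_inr_hom q hc)).sub ?_
    refine IsHomogeneous.sum _ _ _ fun i _ => ?_
    rw [map_mul, map_mul]
    have h1 := ((P.prod_erase_hom (Z := Z) i).mul
      (evZ_pderiv_inr_hom q (c := P.ff i) (P.fZ_hom i))).mul (evZ_pderiv_inr_hom (i, 2) hc)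
    have h2 : P.bb - P.d i + P.d i + j = P.bb + j := by
      have := P.d_le_bb i
      omega
    rwa [h2] at h1

lemma DI_hom (i : Fin r) {c : CC κ n r} {j : ℕ} (hc : (evZ Z c).IsHomogeneous j) :
    (evZ Z (P.DI i c)).IsHomogeneous (P.d i + j) := by
  rw [DI_apply, map_sub, map_mul, map_mul, map_mul]
  refine IsHomogeneous.sub ?_ ?_
  · have h1 : evZ Z (X (Sum.inr (i, 2)) : CC κ n r) =
        C (algebraMap (Lam κ r) Z (X (i, 2))) := by rw [evZ, evA_inr]
    have h2 : evZ Z (rename Sum.inl (P.b1 i) : CC κ n r) = P.b1Z Z i := by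
      rw [evZ, evA_rename]
      rfl
    rw [h1, h2]
    exact (hom_C_mul _ (P.b1Z_hom i)).mul (evZ_pderiv_inr_hom _ hc)
  · have h2 : evZ Z (rename Sum.inl (P.b0 i) : CC κ n r) = P.b0Z Z i := by
      rw [evZ, evA_rename]
      rfl
    rw [h2]
    exact (P.b0Z_hom i).mul (evZ_pderiv_inr_hom _ hc)

end Pen

end Z

end Pool.Agent.K1Z
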