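import Mathlib
import Pool.Agent.K1Z.Ufd
import Pool.Agent.K1Z.WRZero

/-!
# Step (i): forms of small degree killing `G` are multiples of the one of least degree
-/

set_option autoImplicit false
set_option linter.all false

noncomputable section

namespace Pool.Agent.K1Z

open Module MvPolynomial Pool.Agent.CB Pool.Agent.CB27

section gen

variable {K : Type*} [Field K] {N : ℕ} {I : Ideal (MvPolynomial (Fin N) K)}

lemma hom_deg_unique (hI : HI I) {u v : MvPolynomial (Fin N) K} {i j : ℕ}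
    (hu : u.IsHomogeneous i) (hv : v.IsHomogeneous j) (huI : u ∉ I)
    (h : Ideal.Quotient.mk I u = Ideal.Quotient.mk I v) : i = j := by
  by_contra hij
  apply huI
  rw [Ideal.Quotient.eq] at h
  have h1 := hI _ h i
  rw [map_sub, homogeneousComponent_eq_self hu,
    homogeneousComponent_of_mem ((mem_homogeneousSubmodule _ _).2 hv), if_neg hij, sub_zero] at h1
  exact h1

lemma mk_unit_of_deg_zero {u : MvPolynomial (Fin N) K} (hu : u.IsHomogeneous 0) (huI : u ∉ I) :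
    ∃ z : K, z ≠ 0 ∧ u = C z := by
  rw [← totalDegree_zero_iff_isHomogeneous, totalDegree_eq_zero_iff_eq_C] at hu
  refine ⟨coeff 0 u, ?_, hu⟩
  intro h0
  rw [h0, map_zero] at hu
  exact huI (hu ▸ I.zero_mem)

lemma isUnit_C {z : K} (hz : z ≠ 0) : IsUnit (C z : MvPolynomial (Fin N) K) :=
  (isUnit_iff_ne_zero.2 hz).map C

end gen

variable {κ : Type*} [Field κ] {n r : ℕ}
variable {Z : Type*} [Field Z] [Algebra κ Z] [Algebra (Lam κ r) Z] [IsScalarTower κ (Lam κ r) Z]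
  [IsFractionRing (Lam κ r) Z]

namespace Pen

variable {P : Pen κ n r}

lemma sum_sub_one (P : Pen κ n r) : ∑ i, (P.d i - 1) + r = P.bb := by
  have h1 : (∑ _i : Fin r, 1) = r := by simp
  have h2 : ∑ i, (P.d i - 1) + (∑ _i : Fin r, 1) = P.bb := by
    rw [bb, ← Finset.sum_add_distrib]
    refine Finset.sum_congr rfl fun i _ => ?_
    have := P.hd i
    omega
  rwa [h1] at h2

theorem Reg.div_step (h : P.Reg Z) (hn : n = r + 2) {G : MvPolynomial (Fin n) Z →ₗ[Z] Z}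
    {σ m : ℕ} (hG : G ∈ DD Z n σ) (hσ : σ + n = m + P.bb) (hIG : P.IZ Z ≤ Ann G)
    {j0 : ℕ} {g : MvPolynomial (Fin n) Z} (hg : g.IsHomogeneous j0) (hgG : g ∈ Ann G)
    (hgI : g ∉ P.IZ Z)
    (hmin : ∀ j u, j < j0 → u.IsHomogeneous j → u ∈ Ann G → u ∈ P.IZ Z)
    {j : ℕ} {g' : MvPolynomial (Fin n) Z} (hj : j + j0 < m) (hg' : g'.IsHomogeneous j)
    (hg'G : g' ∈ Ann G) :
    Ideal.Quotient.mk (P.IZ Z) g ∣ Ideal.Quotient.mk (P.IZ Z) g' := by
  have hdom : IsDomain (P.RR Z) := h.isDomain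
  have hufd : UniqueFactorizationMonoid (P.RR Z) := h.ufd
  have hprime := P.IZ_isPrime h
  have hHI : HI (P.IZ Z) := P.HI_IZ
  have hmk0 : ∀ {u : MvPolynomial (Fin n) Z}, Ideal.Quotient.mk (P.IZ Z) u ≠ 0 ↔ u ∉ P.IZ Z :=
    fun {u} => by rw [Ne, Ideal.Quotient.eq_zero_iff_mem]
  by_cases hg'I : g' ∈ P.IZ Z
  · rw [Ideal.Quotient.eq_zero_iff_mem.2 hg'I]
    exact dvd_zero _
  have hg0 : Ideal.Quotient.mk (P.IZ Z) g ≠ 0 := hmk0.2 hgI
  obtain ⟨a', b', c', hrel, ha, hb⟩ := UniqueFactorizationMonoid.exists_reduced_factors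
    (Ideal.Quotient.mk (P.IZ Z) g) hg0 (Ideal.Quotient.mk (P.IZ Z) g')
  obtain ⟨i1, i2, h1, u, hsum, hh1, hu, hc, ha'⟩ := hom_factor hHI hprime hg hgI ha
  obtain ⟨i3, i4, h2, v, hsum', hh2, hv, hc2, hb'⟩ := hom_factor hHI hprime hg' hg'I hb
  have hc0 : c' ≠ 0 := by
    rintro rfl
    rw [zero_mul] at ha
    exact hg0 ha.symm
  have hh1I : h1 ∉ P.IZ Z := hmk0.1 (by rw [hc]; exact hc0)
  have huI : u ∉ P.IZ Z := hmk0.1 (by
    rw [ha']
    rintro rfl
    rw [mul_zero] at ha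
    exact hg0 ha.symm)
  have hvI : v ∉ P.IZ Z := hmk0.1 (by
    rw [hb']
    rintro rfl
    rw [mul_zero] at hb
    exact (hmk0.2 hg'I) hb.symm)
  have hi13 : i1 = i3 := hom_deg_unique hHI hh1 hh2 hh1I (by rw [hc, hc2])
  by_cases hi2 : i2 = 0
  · subst hi2
    obtain ⟨z, hz, rfl⟩ := mk_unit_of_deg_zero hu huI
    have hua : IsUnit a' := by
      rw [← ha']
      exact (isUnit_C hz).map _
    rw [← ha, ← hb]
    exact mul_dvd_mul_left c' hua.dvd
  have hh1G : h1 ∉ Ann G := fun hmem => hh1I (hmin i1 h1 (by omega) hh1 hmem)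
  by_cases hi4 : i4 = 0
  · subst hi4
    obtain ⟨z, hz, rfl⟩ := mk_unit_of_deg_zero hv hvI
    exfalso
    apply hh1G
    have h3 : Ideal.Quotient.mk (P.IZ Z) (h1 * C z) = Ideal.Quotient.mk (P.IZ Z) g' := by
      rw [map_mul, hc, hb', hb]
    rw [Ideal.Quotient.eq] at h3
    have h4 : h1 * C z ∈ Ann G := by
      have : h1 * C z = (h1 * C z - g') + g' := by ring
      rw [this]
      exact Ideal.add_mem _ (hIG h3) hg'G
    obtain ⟨w, hw⟩ := (isUnit_C (N := n) hz)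
    have h5 := Ideal.mul_mem_left (Ann G) (↑w⁻¹ : MvPolynomial (Fin n) Z) h4
    rwa [← hw, mul_left_comm, Units.inv_mul, mul_one] at h5
  exfalso
  -- the regular sequence
  have hnz1 : NZD (IL (P.FL Z)) u := by
    intro w hw
    exact (hprime.mem_or_mem hw).resolve_left huI
  have hnz2 : NZD (IL ((i2, u) :: P.FL Z)) v := by
    intro w hw
    rw [IL_cons] at hw ⊢
    change v * w ∈ P.IZ Z ⊔ Ideal.span {u} at hw
    change w ∈ P.IZ Z ⊔ Ideal.span {u}
    rw [← mk_dvd_mk, map_mul, ha', hb'] at hw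
    rw [← mk_dvd_mk, ha']
    exact hrel.dvd_of_dvd_mul_left hw
  have hwr : WR ((i4, v) :: (i2, u) :: P.FL Z) := ⟨⟨h.r0, hnz1⟩, hnz2⟩
  have hok : ∀ a ∈ ((i4, v) :: (i2, u) :: P.FL Z), okf a := by
    intro a ha
    rcases List.mem_cons.1 ha with rfl | ha
    · exact ⟨Nat.one_le_iff_ne_zero.2 hi4, hv⟩
    · rcases List.mem_cons.1 ha with rfl | ha
      · exact ⟨Nat.one_le_iff_ne_zero.2 hi2, hu⟩
      · exact P.okf_FL a ha
  have hlen : ((i4, v) :: (i2, u) :: P.FL Z).length = n := by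
    rw [List.length_cons, List.length_cons, P.FL_length, hn]
  have hi1σ : i1 ≤ σ := by
    by_contra hcon
    exact hh1G (mem_Ann_of_lt hG (not_le.1 hcon) hh1)
  have hG1 : act h1 G ∈ DD Z n (σ - i1) :=
    act_mem_DD hh1 (by rw [Nat.sub_add_cancel hi1σ]; exact hG)
  have hle : IL ((i4, v) :: (i2, u) :: P.FL Z) ≤ Ann (act h1 G) := by
    rw [Ann_act]
    refine IL_le fun a ha => ?_
    rw [mem_col]
    rcases List.mem_cons.1 ha with rfl | ha
    · have h3 : Ideal.Quotient.mk (P.IZ Z) (h1 * v) = Ideal.Quotient.mk (P.IZ Z) g' := by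
        rw [map_mul, hc, hb', hb]
      rw [Ideal.Quotient.eq] at h3
      have : h1 * v = (h1 * v - g') + g' := by ring
      change h1 * v ∈ Ann G
      rw [this]
      exact Ideal.add_mem _ (hIG h3) hg'G
    · rcases List.mem_cons.1 ha with rfl | ha
      · have h3 : Ideal.Quotient.mk (P.IZ Z) (h1 * u) = Ideal.Quotient.mk (P.IZ Z) g := by
          rw [map_mul, hc, ha', ‹c' * a' = _›]
        rw [Ideal.Quotient.eq] at h3
        have : h1 * u = (h1 * u - g) + g := by ring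
        change h1 * u ∈ Ann G
        rw [this]
        exact Ideal.add_mem _ (hIG h3) hgG
      · exact Ideal.mul_mem_left _ _ (hIG (mem_IL ha))
  have hfin := deg_le_sd hlen hok hwr hG1 hh1G hle
  have hsd : sd ((i4, v) :: (i2, u) :: P.FL Z) = (i4 - 1) + ((i2 - 1) + sd (P.FL Z)) := by
    simp [sd]
  rw [hsd, P.sd_FL] at hfin
  have hb := P.sum_sub_one
  omega

end Pen

end Pool.Agent.K1Z
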