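import Mathlib

/-!
# A prime polynomial over an algebraically closed field does not divide all its derivatives
-/

set_option autoImplicit false
set_option linter.all false

noncomputable section

namespace Pool.Agent.K1Z

open MvPolynomial

variable {k : Type*} [Field k] {σ : Type*}

lemma pderiv_eq_zero_of_dvd {Q : MvPolynomial σ k} (hQ : Q ≠ 0) {v : σ} (h : Q ∣ pderiv v Q) :
    pderiv v Q = 0 := by
  classical
  by_contra hne
  obtain ⟨w, hw⟩ := h
  have hw0 : w ≠ 0 := by
    rintro rfl
    rw [mul_zero] at hw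
    exact hne hw
  have h1 : degreeOf v (pderiv v Q) = degreeOf v Q + degreeOf v w := by
    rw [hw, degreeOf_mul_eq hQ hw0]
  obtain ⟨m, hm, hm'⟩ : ∃ m ∈ (pderiv v Q).support, m v = degreeOf v (pderiv v Q) := by
    have h2 : (pderiv v Q).support.Nonempty := support_nonempty.2 hne
    obtain ⟨m, hm, hm'⟩ := Finset.exists_max_image _ (fun m => m v) h2
    refine ⟨m, hm, le_antisymm (monomial_le_degreeOf v hm) ?_⟩
    rw [degreeOf_le_iff]
    exact hm'
  rw [mem_support_iff, coeff_pderiv] at hm
  have h3 : coeff (m + Finsupp.single v 1) Q ≠ 0 := fun h => hm (by rw [h, zero_mul])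
  have h4 := monomial_le_degreeOf v (mem_support_iff.2 h3)
  rw [Finsupp.add_apply, Finsupp.single_eq_same] at h4
  omega

lemma exists_pow_eq [IsAlgClosed k] {p : ℕ} [CharP k p] [hp : Fact p.Prime]
    {Q : MvPolynomial σ k} (h : ∀ v, pderiv v Q = 0) : ∃ R : MvPolynomial σ k, R ^ p = Q := by
  classical
  have hp1 : p.Prime := hp.out
  have hdiv : ∀ m ∈ Q.support, ∀ v, p ∣ m v := by
    intro m hm v
    rcases Nat.eq_zero_or_pos (m v) with h0 | h0
    · rw [h0]
      exact dvd_zero p
    · have h1 := coeff_pderiv (i := v) Q (m - Finsupp.single v 1)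
      rw [h v, coeff_zero] at h1
      have h2 : m - Finsupp.single v 1 + Finsupp.single v 1 = m := by
        ext w
        rw [Finsupp.add_apply, Finsupp.tsub_apply]
        by_cases hw : v = w
        · subst hw
          rw [Finsupp.single_eq_same]
          omega
        · rw [Finsupp.single_eq_of_ne' hw]
          omega
      rw [h2, Finsupp.tsub_apply, Finsupp.single_eq_same] at h1
      have h3 : ((m v - 1 : ℕ) : k) + 1 = ((m v : ℕ) : k) := by
        have : ((m v - 1 + 1 : ℕ) : k) = ((m v : ℕ) : k) := by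
          congr 1
          omega
        rw [← this]
        push_cast
        ring
      rw [h3] at h1
      rw [← CharP.cast_eq_zero_iff k p]
      rcases mul_eq_zero.1 h1.symm with h4 | h4
      · exact absurd h4 (mem_support_iff.1 hm)
      · exact h4
  choose! c hc using fun m : σ →₀ ℕ => IsAlgClosed.exists_pow_nat_eq (coeff m Q) hp1.pos
  haveI : CharP (MvPolynomial σ k) p := inferInstance
  refine ⟨∑ m ∈ Q.support, monomial (m.mapRange (fun a => a / p) (Nat.zero_div p)) (c m), ?_⟩
  rw [sum_pow_char]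
  conv_rhs => rw [Q.as_sum]
  refine Finset.sum_congr rfl fun m hm => ?_
  rw [monomial_pow, hc]
  have h1 : p • m.mapRange (fun a => a / p) (Nat.zero_div p) = m := by
    ext v
    rw [Finsupp.smul_apply, Finsupp.mapRange_apply, smul_eq_mul]
    exact Nat.mul_div_cancel' (hdiv m hm v)
  rw [h1]

theorem exists_not_dvd_pderiv [IsAlgClosed k] {p : ℕ} [CharP k p] [hp : Fact p.Prime]
    {Q : MvPolynomial σ k} (hQ : Prime Q) : ∃ v : σ, ¬ Q ∣ pderiv v Q := by
  by_contra hcon
  push Not at hcon
  obtain ⟨R, hR⟩ := exists_pow_eq (p := p) fun v => pderiv_eq_zero_of_dvd hQ.ne_zero (hcon v)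
  have hp1 : p.Prime := hp.out
  have h1 : Q ∣ R := hQ.dvd_of_dvd_pow (n := p) (by rw [hR])
  have h2 : R ∣ Q := by
    rw [← hR]
    exact dvd_pow_self R hp1.ne_zero
  have h3 : R ^ 2 ∣ R := by
    have h4 : R ^ 2 ∣ R ^ p := pow_dvd_pow R hp1.two_le
    rw [hR] at h4
    exact h4.trans h1
  have hR0 : R ≠ 0 := by
    rintro rfl
    rw [zero_pow hp1.ne_zero] at hR
    exact hQ.ne_zero hR.symm
  have h5 : IsUnit R := by
    obtain ⟨w, hw⟩ := h3
    have h6 : R * 1 = R * (R * w) := by
      rw [mul_one, ← mul_assoc, ← pow_two]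
      exact hw
    exact IsUnit.of_mul_eq_one w (mul_left_cancel₀ hR0 h6).symm
  exact hQ.not_unit (isUnit_of_dvd_unit h1 h5)

end Pool.Agent.K1Z
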