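import Mathlib
import Pool.Agent.K1Z.Der
import Pool.Agent.K1Z.DivStep
import Pool.Agent.K1Z.PthPow

/-!
# The structure theorem for the annihilator of `G`
-/

set_option autoImplicit false
set_option linter.all false

noncomputable section

namespace Pool.Agent.K1Z

open Module MvPolynomial Pool.Agent.CB Pool.Agent.CB27

lemma not_dvd_MM {R : Type*} [CommRing R] [IsDomain R] {J : Type*} {q : J → R}
    (hq : ∀ i, Prime (q i)) {π : R} (hπ : Prime π) (hna : ∀ i, ¬ Associated π (q i)) {m : R}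
    (hm : m ∈ MM q) : ¬ π ∣ m := by
  intro hd
  obtain ⟨i, hi⟩ := prime_mem_MM hq hπ (MM_of_dvd hq hm hd)
  exact hna i hi

/-- cancel a power of a prime -/
lemma dvd_of_pow_dvd {R : Type*} [CommRing R] [IsDomain R] {π y z w : R} (hπ : π ≠ 0) {k : ℕ}
    (h : π ^ (k + 1) ∣ π ^ k * z) : π ∣ z := by
  rw [pow_succ] at h
  exact (mul_dvd_mul_iff_left (pow_ne_zero k hπ)).1 h

variable {κ : Type*} [Field κ] {n r : ℕ}
variable {Z : Type*} [Field Z] [Algebra κ Z] [Algebra (Lam κ r) Z] [IsScalarTower κ (Lam κ r) Z]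
  [IsFractionRing (Lam κ r) Z]

namespace Pen

variable {P : Pen κ n r}

lemma MM_dvd_pow {m : P.RR Z} (hm : m ∈ MM (P.qq Z)) : ∃ N : ℕ, m ∣ P.mkR Z P.bC ^ N := by
  induction hm using Submonoid.closure_induction with
  | mem x hx =>
    rcases hx with hx | ⟨i, rfl⟩
    · exact ⟨0, hx.dvd⟩
    · refine ⟨1, ?_⟩
      rw [pow_one, bC, map_prod]
      exact Finset.dvd_prod_of_mem _ (Finset.mem_univ i)
  | one => exact ⟨0, one_dvd _⟩
  | mul x y _ _ hx hy =>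
    obtain ⟨N1, h1⟩ := hx
    obtain ⟨N2, h2⟩ := hy
    exact ⟨N1 + N2, by rw [pow_add]; exact mul_dvd_mul h1 h2⟩

lemma mk_den {s : MvPolynomial (Fin n) Z} {l : Lam κ r} {c : CC κ n r}
    (e : evZ Z (lamC n l) * s = evZ Z c) :
    P.mkR Z (lamC n l) * Ideal.Quotient.mk (P.IZ Z) s = P.mkR Z c := by
  rw [mkR_apply, mkR_apply, ← e, map_mul]

lemma unit_natCast {p : ℕ} [CharP κ p] [hp : Fact p.Prime] {k : ℕ} (h1 : 1 ≤ k) (h2 : k < p) :
    IsUnit ((k : ℕ) : P.RR Z) := by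
  have h3 : ((k : ℕ) : κ) ≠ 0 := by
    rw [Ne, CharP.cast_eq_zero_iff κ p]
    exact fun h => absurd (Nat.le_of_dvd (by omega) h) (by omega)
  have h4 := (isUnit_iff_ne_zero.2 h3).map ((P.mkR Z).comp (algebraMap κ (CC κ n r)))
  rwa [map_natCast] at h4

/-- existence of forms in the annihilator outside of the ideal `(f_*)` -/
lemma Reg.exists_form (h : P.Reg Z) (hn : n = r + 2) {G : MvPolynomial (Fin n) Z →ₗ[Z] Z} {σ : ℕ}
    (hG : G ∈ DD Z n σ) : ∃ (j : ℕ) (u : MvPolynomial (Fin n) Z), u.IsHomogeneous j ∧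
      u ∈ Ann G ∧ u ∉ P.IZ Z := by
  have hprime := P.IZ_isPrime h
  have hex : ∃ (d : ℕ) (u : MvPolynomial (Fin n) Z), 1 ≤ d ∧ u.IsHomogeneous d ∧
      u ∉ P.IZ Z := by
    rcases Nat.eq_zero_or_pos r with hr | hr
    · refine ⟨1, X ⟨0, by omega⟩, le_rfl, isHomogeneous_X _ _, ?_⟩
      intro hm
      have h1 : P.IZ Z = ⊥ := by
        have h2 : P.FL Z = [] := by
          rw [← List.length_eq_zero_iff, P.FL_length, hr]
        rw [IZ, h2, IL_nil]
      rw [h1, Ideal.mem_bot] at hm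
      exact X_ne_zero _ hm
    · exact ⟨_, P.f1Z Z ⟨0, hr⟩, P.hd _, P.f1Z_hom _, h.notMem_f1 _⟩
  obtain ⟨d, u, hd, hu, huI⟩ := hex
  refine ⟨d * (σ + 1), u ^ (σ + 1), hu.pow _, ?_, fun hm => huI (hprime.mem_of_pow_mem _ hm)⟩
  refine mem_Ann_of_lt hG ?_ (hu.pow _)
  nlinarith

theorem k1_struct {p : ℕ} [IsAlgClosed κ] [CharP κ p] [hp : Fact p.Prime] (hn : n = r + 2)
    (h : P.Reg Z) {φ : MvPolynomial (Fin n) κ →ₗ[κ] κ} {σ m : ℕ}
    (hG : P.GG Z p φ ∈ DD Z n σ) (hσ : σ + n = m + P.bb) (hIG : P.IZ Z ≤ Ann (P.GG Z p φ))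
    (hG0 : P.GG Z p φ ≠ 0) :
    ∃ (j0 : ℕ) (g : MvPolynomial (Fin n) Z), 1 ≤ j0 ∧ g.IsHomogeneous j0 ∧
      g ∈ Ann (P.GG Z p φ) ∧ g ∉ P.IZ Z ∧
      (∀ j < j0, ∀ g', g'.IsHomogeneous j → g' ∈ Ann (P.GG Z p φ) → g' ∈ P.IZ Z) ∧
      (∀ j g', j + j0 < m → g'.IsHomogeneous j → g' ∈ Ann (P.GG Z p φ) →
        ∃ w, g' - g * w ∈ P.IZ Z) ∧
      (p ≤ j0 ∨ m ≤ 2 * j0 + P.bb) := by
  classical
  have hdom : IsDomain (P.RR Z) := h.isDomain
  have hufd : UniqueFactorizationMonoid (P.RR Z) := h.ufd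
  have hprime := P.IZ_isPrime h
  have hHI : HI (P.IZ Z) := P.HI_IZ
  have hmk0 : ∀ {u : MvPolynomial (Fin n) Z}, Ideal.Quotient.mk (P.IZ Z) u ≠ 0 ↔ u ∉ P.IZ Z :=
    fun {u} => by rw [Ne, Ideal.Quotient.eq_zero_iff_mem]
  have hex := h.exists_form hn hG
  obtain ⟨g, hg, hgG, hgI⟩ := Nat.find_spec hex
  set j0 := Nat.find hex with hj0
  have hmin : ∀ j < j0, ∀ u : MvPolynomial (Fin n) Z, u.IsHomogeneous j →
      u ∈ Ann (P.GG Z p φ) → u ∈ P.IZ Z := by
    intro j hj u hu huG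
    by_contra hcon
    exact Nat.find_min hex hj ⟨u, hu, huG, hcon⟩
  have hj1 : 1 ≤ j0 := by
    by_contra hcon
    have h0 : j0 = 0 := by omega
    rw [h0] at hg
    obtain ⟨z, hz, rfl⟩ := mk_unit_of_deg_zero hg hgI
    have h1 := Ideal.eq_top_of_isUnit_mem _ hgG (isUnit_C hz)
    apply hG0
    have h2 : (1 : MvPolynomial (Fin n) Z) ∈ Ann (P.GG Z p φ) := by
      rw [h1]
      trivial
    rw [mem_Ann'] at h2
    apply LinearMap.ext
    intro u
    have h3 := h2 u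
    rwa [one_mul] at h3
  have hdiv : ∀ {j : ℕ} {g' : MvPolynomial (Fin n) Z}, j + j0 < m → g'.IsHomogeneous j →
      g' ∈ Ann (P.GG Z p φ) →
      Ideal.Quotient.mk (P.IZ Z) g ∣ Ideal.Quotient.mk (P.IZ Z) g' := fun {j g'} hj hg' hg'G =>
    h.div_step hn hG hσ hIG hg hgG hgI (fun j u hj => hmin j hj u) hj hg' hg'G
  refine ⟨j0, g, hj1, hg, hgG, hgI, hmin, ?_, ?_⟩
  · intro j g' hj hg' hg'G
    obtain ⟨w, hw⟩ := hdiv hj hg' hg'G
    obtain ⟨w, rfl⟩ := Ideal.Quotient.mk_surjective w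
    rw [← map_mul, Ideal.Quotient.eq] at hw
    exact ⟨w, hw⟩
  by_contra hcon
  push Not at hcon
  obtain ⟨hjp, hjm⟩ := hcon
  set x := Ideal.Quotient.mk (P.IZ Z) g with hx
  have hx0 : x ≠ 0 := hmk0.2 hgI
  -- `x` is not a unit
  have h1I : (1 : MvPolynomial (Fin n) Z) ∉ P.IZ Z := fun hh =>
    hprime.ne_top ((Ideal.eq_top_iff_one _).2 hh)
  have hxu : ¬ IsUnit x := by
    intro hu
    obtain ⟨y, hy⟩ := hu.exists_right_inv
    obtain ⟨i, j, u, v, hij, hu', -, hux, -⟩ := hom_factor hHI hprime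
      (isHomogeneous_one (Fin n) Z) h1I (x := x) (y := y) (by rw [hy, map_one])
    have h3 := hom_deg_unique hHI hg hu' hgI hux.symm
    omega
  obtain ⟨π, hπi, hπx⟩ := WfDvdMonoid.exists_irreducible_factor hxu hx0
  have hπ : Prime π := UniqueFactorizationMonoid.irreducible_iff_prime.1 hπi
  obtain ⟨k, ρ, hρ, hxk⟩ := WfDvdMonoid.max_power_factor hx0 hπi
  have hk1 : 1 ≤ k := by
    by_contra hk
    have : k = 0 := by omega
    rw [this, pow_zero, one_mul] at hxk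
    rw [hxk] at hπx
    exact hρ hπx
  obtain ⟨k', rfl⟩ : ∃ k', k = k' + 1 := ⟨k - 1, by omega⟩
  -- degrees
  have hkp : k' + 1 < p := by
    obtain ⟨e1, e2, π1, v1, he, hπ1, -, hmk1, -⟩ := hom_factor hHI hprime hg hgI
      (x := π) (y := π ^ k' * ρ) (by
        rw [← hx, hxk, pow_succ]
        ring)
    have hπ1I : π1 ∉ P.IZ Z := hmk0.1 (by rw [hmk1]; exact hπ.ne_zero)
    have he1 : 1 ≤ e1 := by
      by_contra hcon
      have h0 : e1 = 0 := by omega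
      rw [h0] at hπ1
      obtain ⟨z, hz, rfl⟩ := mk_unit_of_deg_zero hπ1 hπ1I
      apply hπ.not_unit
      rw [← hmk1]
      exact (isUnit_C hz).map _
    obtain ⟨e3, e4, u, v, he', hu, hv, hmu, hmv⟩ := hom_factor hHI hprime hg hgI
      (x := π ^ (k' + 1)) (y := ρ) (by rw [← hx, hxk])
    have huI : u ∉ P.IZ Z := hmk0.1 (by rw [hmu]; exact pow_ne_zero _ hπ.ne_zero)
    have h4 := hom_deg_unique hHI hu (hπ1.pow (k' + 1)) huI (by rw [hmu, map_pow, hmk1])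
    nlinarith
  have hku : IsUnit (((k' + 1 : ℕ)) : P.RR Z) := unit_natCast (κ := κ) hk1 hkp
  -- consequences of stability
  have hstepY : ∀ (y : Fin n ⊕ Par r) (c : CC κ n r), (evZ Z c).IsHomogeneous j0 →
      evZ Z c ∈ Ann (P.GG Z p φ) → x ∣ P.mkR Z (P.DY y c) := by
    intro y c hc hcG
    obtain ⟨j', hj', hhom⟩ := P.DY_hom y hj1 hc
    exact hdiv (by omega) hhom (P.stab (P.good_DY φ y) (P.DY_ff y) hcG)
  have hstepI : ∀ (i : Fin r) (c : CC κ n r), (evZ Z c).IsHomogeneous j0 →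
      evZ Z c ∈ Ann (P.GG Z p φ) → x ∣ P.mkR Z (P.DI i c) := by
    intro i c hc hcG
    have h3 := P.d_le_bb i
    exact hdiv (by omega) (P.DI_hom i hc) (P.stab (P.good_DI φ i) (P.DI_ff i) hcG)
  have hlam_hom : ∀ (l : Lam κ r) {u : MvPolynomial (Fin n) Z} {j : ℕ}, u.IsHomogeneous j →
      (evZ Z (lamC n l) * u).IsHomogeneous j := by
    intro l u j hu
    rw [evZ_lamC]
    exact hom_C_mul _ hu
  rcases h.prime_cases hπ with ⟨i, hi⟩ | ⟨hna, Q, μ, hQ, hμ, hQμ, hdvd⟩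
  · -- case A
    obtain ⟨u, hu⟩ := hi
    have hq := h.prime_qq i
    set q := P.qq Z i with hqdef
    set ρ' : P.RR Z := (↑u⁻¹ : P.RR Z) ^ (k' + 1) * ρ with hρ'
    have hxq : q ^ (k' + 1) * ρ' = x := by
      rw [hρ', ← hu, mul_pow, hxk]
      have h3 : (↑u : P.RR Z) ^ (k' + 1) * (↑u⁻¹ : P.RR Z) ^ (k' + 1) = 1 := by
        rw [← mul_pow, Units.mul_inv, one_pow]
      linear_combination (π ^ (k' + 1) * ρ) * h3
    have hqρ : ¬ q ∣ ρ' := by
      intro hd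
      apply hρ
      rw [hρ'] at hd
      rcases hq.dvd_or_dvd hd with hd | hd
      · exact absurd (isUnit_of_dvd_unit hd ((u⁻¹).isUnit.pow _)) hq.not_unit
      · exact (Dvd.intro _ hu).trans hd
    obtain ⟨i2, j2, u2, v, hij, hu2, hv, hmu2, hmv⟩ := hom_factor hHI hprime hg hgI
      (x := q ^ (k' + 1)) (y := ρ') hxq
    have hu2I : u2 ∉ P.IZ Z := hmk0.1 (by rw [hmu2]; exact pow_ne_zero _ hq.ne_zero)
    have hi2 : i2 = P.d i * (k' + 1) := hom_deg_unique hHI hu2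
      ((P.f1Z_hom (Z := Z) i).pow (k' + 1)) hu2I (by rw [hmu2, map_pow]; rfl)
    obtain ⟨l, hl, c1, e1⟩ := exists_den (κ := κ) (r := r) Z v
    have hc1 : P.mkR Z c1 = P.mkR Z (lamC n l) * ρ' := by rw [← mk_den e1, hmv]
    obtain ⟨c, hc⟩ : ∃ c : CC κ n r, c = P.f1 i ^ (k' + 1) * c1 := ⟨_, rfl⟩
    have hcev : evZ Z c = P.f1Z Z i ^ (k' + 1) * (evZ Z (lamC n l) * v) := by
      rw [hc, map_mul, map_pow, ← e1]
      rfl
    have hchom : (evZ Z c).IsHomogeneous j0 := by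
      rw [hcev]
      have h4 := ((P.f1Z_hom (Z := Z) i).pow (k' + 1)).mul (hlam_hom l hv)
      rwa [← hi2, hij] at h4
    have hmkc : P.mkR Z c = P.mkR Z (lamC n l) * x := by
      rw [hc, map_mul, map_pow, hc1, ← hxq]
      have : P.mkR Z (P.f1 i) = q := rfl
      rw [this]
      ring
    have hcG : evZ Z c ∈ Ann (P.GG Z p φ) := by
      have h4 : evZ Z c - evZ Z (lamC n l) * g ∈ P.IZ Z := by
        rw [← Ideal.Quotient.eq, map_mul (Ideal.Quotient.mk (P.IZ Z)) (evZ Z (lamC n l)) g]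
        exact hmkc
      have h5 : evZ Z c = (evZ Z c - evZ Z (lamC n l) * g) + evZ Z (lamC n l) * g := by ring
      rw [h5]
      exact Ideal.add_mem _ (hIG h4) (Ideal.mul_mem_left _ _ hgG)
    have h6 := hstepI i c hchom hcG
    have h7 : P.DI i c = P.f1 i ^ (k' + 1) * P.DI i c1 +
        P.f1 i ^ k' * (((k' + 1 : ℕ) : CC κ n r) * c1 *
          ((-1 : CC κ n r) * (rename Sum.inl (P.b0 i) * rename Sum.inl (P.b1 i)))) := by
      rw [hc, Derivation.leibniz, Derivation.leibniz_pow, P.DI_f1]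
      simp only [smul_eq_mul, nsmul_eq_mul, Nat.add_sub_cancel]
      ring
    have h8 : q ^ (k' + 1) ∣ q ^ k' * (((k' + 1 : ℕ) : P.RR Z) * P.mkR Z c1 *
        (P.mkR Z (-1) * (P.mkR Z (rename Sum.inl (P.b0 i)) *
          P.mkR Z (rename Sum.inl (P.b1 i))))) := by
      have h9 : q ^ (k' + 1) ∣ P.mkR Z (P.DI i c) := (Dvd.intro _ hxq).trans h6
      have hq1 : P.mkR Z (P.f1 i) = q := rfl
      rw [h7, map_add, map_mul (P.mkR Z), map_mul (P.mkR Z), map_mul (P.mkR Z),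
        map_mul (P.mkR Z), map_mul (P.mkR Z), map_mul (P.mkR Z), map_pow, map_pow,
        map_natCast, hq1] at h9
      exact (dvd_add_right (dvd_mul_right _ _)).1 h9
    have h10 := dvd_of_pow_dvd (y := 0) (w := 0) hq.ne_zero h8
    have hb0 : ¬ q ∣ P.mkR Z (rename Sum.inl (P.b0 i)) := by
      intro hd
      have h11 : evZ Z (rename Sum.inl (P.b0 i)) ∈ P.IZ Z ⊔ Ideal.span {P.f1Z Z i} :=
        mk_dvd_mk.1 hd
      have h12 : IL ((P.d i, P.f1Z Z i) :: P.FL Z) = P.IZ Z ⊔ Ideal.span {P.f1Z Z i} := by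
        rw [IL_cons]
        rfl
      rw [← h12, evZ, evA_rename] at h11
      have hok : ∀ a ∈ ((P.d i, P.f1Z Z i) :: P.FL Z), okf a := by
        intro a ha
        rcases List.mem_cons.1 ha with rfl | ha
        · exact ⟨P.hd i, P.f1Z_hom i⟩
        · exact P.okf_FL a ha
      exact one_notMem_IL hok ((h.r1 i).2 1 (by rw [mul_one]; exact h11))
    have hb1 : ¬ q ∣ P.mkR Z (rename Sum.inl (P.b1 i)) := by
      intro hd
      have h11 : evZ Z (rename Sum.inl (P.b1 i)) ∈ P.IZ Z ⊔ Ideal.span {P.f1Z Z i} :=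
        mk_dvd_mk.1 hd
      have h12 : IL ((P.d i, P.f1Z Z i) :: P.FL Z) = P.IZ Z ⊔ Ideal.span {P.f1Z Z i} := by
        rw [IL_cons]
        rfl
      rw [← h12, evZ, evA_rename] at h11
      have hok : ∀ a ∈ ((P.d i, P.f1Z Z i) :: P.FL Z), okf a := by
        intro a ha
        rcases List.mem_cons.1 ha with rfl | ha
        · exact ⟨P.hd i, P.f1Z_hom i⟩
        · exact P.okf_FL a ha
      exact one_notMem_IL hok ((h.r2 i).2 1 (by rw [mul_one]; exact h11))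
    rcases hq.dvd_or_dvd h10 with hd | hd
    · rcases hq.dvd_or_dvd hd with hd | hd
      · exact hq.not_unit (isUnit_of_dvd_unit hd hku)
      · rw [hc1] at hd
        rcases hq.dvd_or_dvd hd with hd | hd
        · exact hq.not_unit (isUnit_of_dvd_unit hd (unit_lam hl))
        · exact hqρ hd
    · rcases hq.dvd_or_dvd hd with hd | hd
      · exact hq.not_unit (isUnit_of_dvd_unit hd ((isUnit_one.neg).map (P.mkR Z)))
      rcases hq.dvd_or_dvd hd with hd | hd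
      · exact hb0 hd
      · exact hb1 hd
  · -- case B
    obtain ⟨v, hv⟩ := exists_not_dvd_pderiv (p := p) hQ
    apply hv
    apply hdvd
    have hnd : ∀ {m : P.RR Z}, m ∈ MM (P.qq Z) → ¬ π ∣ m := fun {m} hm =>
      not_dvd_MM h.prime_qq hπ hna hm
    have hbMM : P.mkR Z P.bC ∈ MM (P.qq Z) := mkR_bC_mem
    obtain ⟨N, μ', hN⟩ := MM_dvd_pow ((MM (P.qq Z)).pow_mem hμ (k' + 1))
    have hμ' : μ' ∈ MM (P.qq Z) := MM_dvd h.prime_qq ((MM (P.qq Z)).pow_mem hbMM N) μ'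
      (μ ^ (k' + 1)) (by rw [hN, mul_comm])
    obtain ⟨l0, hl0, c0, e0⟩ := exists_den (κ := κ) (r := r) Z g
    obtain ⟨s2, hs2⟩ := Ideal.Quotient.mk_surjective (μ' * ρ)
    obtain ⟨l1, hl1, c1', e1⟩ := exists_den (κ := κ) (r := r) Z s2
    have hc0 : P.mkR Z c0 = P.mkR Z (lamC n l0) * x := (mk_den e0).symm
    have hc1' : P.mkR Z c1' = P.mkR Z (lamC n l1) * (μ' * ρ) := by rw [← mk_den e1, hs2]
    obtain ⟨c, hc⟩ : ∃ c : CC κ n r, c = lamC n l1 * c0 := ⟨_, rfl⟩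
    obtain ⟨c1, hc1⟩ : ∃ c1 : CC κ n r, c1 = lamC n l0 * c1' := ⟨_, rfl⟩
    have hchom : (evZ Z c).IsHomogeneous j0 := by
      rw [hc, map_mul, ← e0]
      exact hlam_hom _ (hlam_hom _ hg)
    have hcG : evZ Z c ∈ Ann (P.GG Z p φ) := by
      rw [hc, map_mul, ← e0]
      exact Ideal.mul_mem_left _ _ (Ideal.mul_mem_left _ _ hgG)
    have hxc : x ∣ P.mkR Z c := by
      rw [hc, map_mul, hc0]
      exact Dvd.intro_left (P.mkR Z (lamC n l1) * P.mkR Z (lamC n l0)) (by ring)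
    have hιQ : P.mkR Z (inB Q) = π * μ := hQμ
    have heq : P.mkR Z (P.bC ^ N * c) = P.mkR Z (inB Q ^ (k' + 1) * c1) := by
      rw [map_mul, map_pow, hN, hc, map_mul, hc0, map_mul, map_pow, hιQ, hc1, map_mul, hc1', hxk]
      ring
    have hmem : evZ Z (P.bC ^ N * c - inB Q ^ (k' + 1) * c1) ∈ P.IZ Z := by
      rw [map_sub]
      exact (Ideal.Quotient.eq).1 heq
    have hmem2 := P.stab_IZ (P.DY_ff (embB n r v)) hmem
    have heq2 : P.mkR Z (P.DY (embB n r v) (P.bC ^ N * c)) =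
        P.mkR Z (P.DY (embB n r v) (inB Q ^ (k' + 1) * c1)) := by
      rw [map_sub, map_sub] at hmem2
      exact (Ideal.Quotient.eq).2 hmem2
    have hleft : π ^ (k' + 1) ∣ P.mkR Z (P.DY (embB n r v) (P.bC ^ N * c)) := by
      have h3 : π ^ (k' + 1) ∣ x := Dvd.intro _ hxk.symm
      have hL : P.DY (embB n r v) (P.bC ^ N * c) = P.bC ^ N * P.DY (embB n r v) c +
          c * P.DY (embB n r v) (P.bC ^ N) := by
        rw [Derivation.leibniz]
        simp only [smul_eq_mul]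
      rw [hL, map_add, map_mul (P.mkR Z), map_mul (P.mkR Z)]
      refine dvd_add (dvd_mul_of_dvd_right ?_ _) (dvd_mul_of_dvd_left ?_ _)
      · exact h3.trans (hstepY _ c hchom hcG)
      · exact h3.trans hxc
    have hright : P.DY (embB n r v) (inB Q ^ (k' + 1) * c1) =
        inB Q ^ (k' + 1) * P.DY (embB n r v) c1 +
        inB Q ^ k' * (((k' + 1 : ℕ) : CC κ n r) * c1 * (P.bC * inB (pderiv v Q))) := by
      rw [Derivation.leibniz, Derivation.leibniz_pow, P.DY_inB]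
      simp only [smul_eq_mul, nsmul_eq_mul, Nat.add_sub_cancel]
      ring
    rw [heq2, hright, map_add, map_mul (P.mkR Z), map_mul (P.mkR Z), map_mul (P.mkR Z),
      map_mul (P.mkR Z), map_mul (P.mkR Z), map_pow, map_pow, map_natCast, hιQ] at hleft
    have h4 : π ^ (k' + 1) ∣ π ^ k' * (μ ^ k' * (((k' + 1 : ℕ) : P.RR Z) * P.mkR Z c1 *
        (P.mkR Z P.bC * P.mkR Z (inB (pderiv v Q))))) := by
      have h5 : π ^ (k' + 1) ∣ (π * μ) ^ (k' + 1) * P.mkR Z (P.DY (embB n r v) c1) := by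
        rw [mul_pow, mul_assoc]
        exact dvd_mul_right _ _
      have h6 := (dvd_add_right h5).1 hleft
      rwa [mul_pow, mul_assoc] at h6
    have h7 := dvd_of_pow_dvd (y := 0) (w := 0) hπ.ne_zero h4
    rcases hπ.dvd_or_dvd h7 with hd | hd
    · exact absurd hd (hnd ((MM (P.qq Z)).pow_mem hμ k'))
    rcases hπ.dvd_or_dvd hd with hd | hd
    · exfalso
      rcases hπ.dvd_or_dvd hd with hd | hd
      · exact hπ.not_unit (isUnit_of_dvd_unit hd hku)
      · rw [hc1, map_mul, hc1'] at hd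
        rcases hπ.dvd_or_dvd hd with hd | hd
        · exact hπ.not_unit (isUnit_of_dvd_unit hd (unit_lam hl0))
        rcases hπ.dvd_or_dvd hd with hd | hd
        · exact hπ.not_unit (isUnit_of_dvd_unit hd (unit_lam hl1))
        rcases hπ.dvd_or_dvd hd with hd | hd
        · exact hnd hμ' hd
        · exact hρ hd
    · rcases hπ.dvd_or_dvd hd with hd | hd
      · exact absurd hd (hnd hbMM)
      · exact hd

end Pen

end Pool.Agent.K1Z
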