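import Mathlib
import Pool.Agent.K1Z.Struct
import Pool.Agent.CB27.CoreProof

/-!
# The structure theorem in the form used by the assembly
-/

set_option autoImplicit false
set_option linter.all false

noncomputable section

namespace Pool.Agent.K1Z

open Module MvPolynomial Pool.Agent.CB Pool.Agent.CB27

theorem structP : StructP := by
  intro p κ _ _ _ _ n r t e P φ hn hreg hφ ht h0 h0' h1 h1' hG0
  have hp : 0 < p := (Fact.out : p.Prime).pos
  have hG := GG_mem_DD (Z := FractionRing (Lam κ r)) P hp hn hφ ht
  have hle : n ≤ (e + 2) * p + P.bb := by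
    have h2 := P.sum_sub_one
    have h3 : 2 ≤ (e + 2) * p := by nlinarith
    omega
  exact Pen.k1_struct hn hreg hG (by omega) (P.IZ_le_Ann_GG h0 h0' h1 h1') hG0

end Pool.Agent.K1Z
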